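import Pool.Agent.Work.MP_8b6acb_ti_helper76.SetFinal

/-!
# Sums over exit sets as averages over orders (helper76)

`NL τ D c` is the sum over the sets `U` with label `c` of `|U| * fwb U / C(l, |U|)`: the expected
level of the first exit if the exit has label `c`.
-/

namespace R5

namespace Two

open Finset T7

variable {α : Type} [DecidableEq α]

/-- expected first exit level, label `c` -/
noncomputable def NL (τ : Finset α → Lab) (D : Finset α) (c : Lab) : ℝ :=
  ∑ U ∈ D.powerset, if τ U = c then (U.card : ℝ) * fwb τ U / (D.card.choose U.card : ℝ) else 0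

theorem Av_exL (τ : Finset α → Lab) {W : Finset α} {k : ℕ} (hk : k < W.card) (c : Lab) (F : ℝ) :
    Av W (fun π => if allA τ π k ∧ τ (pre π (k + 1)) = c then F else 0) =
    ∑ U ∈ powersetCard (k + 1) W, (if τ U = c then F * fwb τ U / (W.card.choose (k + 1) : ℝ)
      else 0) := by
  have e : Av W (fun π => if allA τ π k ∧ τ (pre π (k + 1)) = c then F else 0) =
      Av W (fun π => (fun (π1 _π2 : List α) =>
        if allA τ π1 k ∧ τ π1.toFinset = c then F else 0)
        (π.take (k + 1)) (π.drop (k + 1))) := by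
    refine Av_congr fun π hπ => ?_
    simp only [allA_take (Nat.le_succ k)]
    rfl
  rw [e, Av_take_drop hk (fun (π1 _π2 : List α) =>
        if allA τ π1 k ∧ τ π1.toFinset = c then F else 0), sum_div]
  refine sum_congr rfl fun U hU => ?_
  obtain ⟨-, hc⟩ := mem_powersetCard.1 hU
  have hne : U.Nonempty := by
    rw [← card_pos, hc]
    omega
  by_cases hX : τ U = c
  · rw [if_pos hX, fwb_eq_Av τ hne, ← Av_mul]
    congr 1
    refine Av_congr fun π1 h1 => ?_
    rw [(mem_seqs_card.1 h1).2, Av_const, hc, Nat.add_sub_cancel]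
    by_cases h2 : allA τ π1 k
    · simp [hX, h2]
    · simp [h2]
  · rw [if_neg hX]
    rw [div_eq_zero_iff]
    left
    refine (Av_congr (f' := fun _ => 0) fun π1 h1 => ?_).trans (Av_zero U)
    rw [(mem_seqs_card.1 h1).2, Av_const]
    simp [hX]

theorem NL_eq (τ : Finset α → Lab) (D : Finset α) (c : Lab) :
    NL τ D c = Av D (fun π => ∑ k ∈ range D.card,
      if allA τ π k ∧ τ (pre π (k + 1)) = c then (k : ℝ) + 1 else 0) := by
  unfold NL
  rw [sum_levels_vert D _ (by simp), Av_sum]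
  refine sum_congr rfl fun k hk => ?_
  rw [mem_range] at hk
  rw [Av_exL τ hk c ((k : ℝ) + 1)]
  refine sum_congr rfl fun U hU => ?_
  obtain ⟨-, hc⟩ := mem_powersetCard.1 hU
  rw [hc]
  push_cast
  rfl

theorem sum_exL {τ : Finset α → Lab} {D : Finset α} {π : List α} (h0 : τ ∅ = Lab.A)
    (hD : τ D ≠ Lab.A) (hπ : π ∈ seqs D.card D) {c : Lab} (hc : c ≠ Lab.A) :
    (∑ k ∈ range D.card, if allA τ π k ∧ τ (pre π (k + 1)) = c then (k : ℝ) + 1 else 0) =
      if τ (pre π (kA τ π + 1)) = c then (kA τ π : ℝ) + 1 else 0 := by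
  have hk := kA_lt h0 hD hπ
  rw [sum_eq_single (kA τ π)]
  · by_cases h : τ (pre π (kA τ π + 1)) = c
    · rw [if_pos h, if_pos ⟨(allA_iff h0 hD hπ _).2 le_rfl, h⟩]
    · rw [if_neg h, if_neg (fun h' => h h'.2)]
  · intro k _ hne
    rw [if_neg]
    rintro ⟨h3, h4⟩
    have h5 := (allA_iff h0 hD hπ k).1 h3
    have h6 : allA τ π (k + 1) := (allA_iff h0 hD hπ (k + 1)).2 (by omega)
    have h7 := (allA_succ.1 h6).2
    rw [h4] at h7
    exact hc h7
  · intro h
    exact absurd (mem_range.2 hk) h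

/-- vertex exits -/
theorem NV_path {τ : Finset α → Lab} {D : Finset α} (h0 : τ ∅ = Lab.A) (hD : τ D = Lab.B) :
    NL τ D Lab.X = Av D (fun π => ((kA τ π : ℝ) + 1) * (1 - iE τ π (kA τ π))) := by
  have hD' : τ D ≠ Lab.A := by rw [hD]; decide
  rw [NL_eq]
  refine Av_congr fun π hπ => ?_
  rw [sum_exL h0 hD' hπ (by decide)]
  have h1 := lab_kA h0 hD' hπ
  have h2 := (allA_iff h0 hD' hπ (kA τ π)).2 le_rfl
  rcases h3 : τ (pre π (kA τ π + 1)) with _ | _ | _
  · exact absurd h3 h1
  · rw [iE_pos ⟨h2, h3⟩]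
    simp
  · rw [iE_neg]
    · simp
    · intro h
      rw [h.2] at h3
      exact absurd h3 (by decide)

/-- edge exits -/
theorem NE_path {τ : Finset α → Lab} {D : Finset α} (h0 : τ ∅ = Lab.A) (hD : τ D = Lab.B) :
    NL τ D Lab.B = Av D (fun π => ((kA τ π : ℝ) + 1) * iE τ π (kA τ π)) := by
  have hD' : τ D ≠ Lab.A := by rw [hD]; decide
  rw [NL_eq]
  refine Av_congr fun π hπ => ?_
  rw [sum_exL h0 hD' hπ (by decide)]
  have h1 := lab_kA h0 hD' hπ
  have h2 := (allA_iff h0 hD' hπ (kA τ π)).2 le_rfl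
  rcases h3 : τ (pre π (kA τ π + 1)) with _ | _ | _
  · exact absurd h3 h1
  · rw [iE_pos ⟨h2, h3⟩]
    simp
  · rw [iE_neg]
    · simp
    · intro h
      rw [h.2] at h3
      exact absurd h3 (by decide)

/-- vertex exits at the top -/
theorem NV_dual_path {τ : Finset α → Lab} {D : Finset α} (h0 : τ ∅ = Lab.A)
    (hD : τ D = Lab.B) :
    NL (dual τ D) D Lab.X = Av D (fun π => ((D.card : ℝ) - kN τ π) * lx τ π) := by
  have h0' : τ ∅ ≠ Lab.B := by rw [h0]; decide
  rw [NV_path (dual_empty hD) (dual_top h0), ← Av_reverse D]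
  refine Av_congr fun π hπ => ?_
  have hN := kN_lt h0' hD hπ
  rw [iE_dual h0 hD hπ, kA_dual h0 hD hπ, Nat.cast_sub (by omega), Nat.cast_sub (by omega)]
  push_cast
  ring

/-- edge exits at the top -/
theorem NE_dual_path {τ : Finset α → Lab} {D : Finset α} (h0 : τ ∅ = Lab.A)
    (hD : τ D = Lab.B) :
    NL (dual τ D) D Lab.B = Av D (fun π => ((D.card : ℝ) - kN τ π) * (1 - lx τ π)) := by
  have h0' : τ ∅ ≠ Lab.B := by rw [h0]; decide
  rw [NE_path (dual_empty hD) (dual_top h0), ← Av_reverse D]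
  refine Av_congr fun π hπ => ?_
  have hN := kN_lt h0' hD hπ
  rw [iE_dual h0 hD hπ, kA_dual h0 hD hπ, Nat.cast_sub (by omega), Nat.cast_sub (by omega)]
  push_cast
  ring

/-- the bound of the cost in both forms -/
theorem costV_of {τ : Finset α → Lab} {D : Finset α} (h0 : τ ∅ = Lab.A) (hD : τ D = Lab.B)
    (h : ((D.card : ℝ) + 1) * COST1 τ D ≤
      (NL τ D Lab.X + NL (dual τ D) D Lab.X) / (D.card : ℝ) ^ 2) : CostV τ D := by
  unfold CostV
  refine h.trans (le_of_eq ?_)
  rw [NV_path h0 hD, NV_dual_path h0 hD, ← Av_add, ← Av_div]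

end Two

end R5
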