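import Pool.Agent.Work.MP_8b6acb_ti_helper76.CostPath
import Pool.Agent.Work.MP_8b6acb_cap.FPART
import Pool.Agent.Work.MP_8b6acb_fq.CUTQ

/-!
# The typewise inequality for the set kernel: the final case distinction (helper76)
-/

namespace R5

namespace Two

open Finset T7

section

variable {α : Type} [DecidableEq α]

theorem CL1_congr {τ τ' : Finset α → Lab} {D : Finset α} (h : ∀ U ⊆ D, τ U = τ' U) (z : ℝ) :
    CL1 τ D z = CL1 τ' D z := by
  unfold CL1
  congr 1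
  · refine sum_congr rfl fun V hV => sum_congr rfl fun x hx => ?_
    rw [mem_powerset] at hV
    rw [FPARTAux.yLe_congr h hV (mem_sdiff.1 hx).1, aw_congr fun X hX => h X (hX.trans hV)]
  · refine sum_congr rfl fun V hV => ?_
    rw [mem_powerset] at hV
    rw [FPARTAux.yLv_congr h hV, aw_congr fun X hX => h X (hX.trans hV)]

theorem COST1_dual (τ : Finset α → Lab) (D : Finset α) : COST1 (dual τ D) D = COST1 τ D := by
  unfold COST1
  rw [Zt_dual, CL1_congr (τ := dual (dual τ D) D) (τ' := τ) (fun U hU => dual_dual hU)]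
  ring

theorem vset_dual_dual (τ : Finset α → Lab) (D : Finset α) (ρ : Finset α → α → ℝ)
    (L : Finset α) : K.vset (dual (dual τ D) D) D ρ L = K.vset τ D ρ L := by
  unfold K.vset K.SGs
  exact K.SGx_dual_dual τ D ρ _

theorem VAL_dual (τ : Finset α → Lab) (D : Finset α) (g g' : ℝ) :
    K.VAL (dual τ D) D g' g = K.VAL τ D g g' := by
  unfold K.VAL
  rw [COST1_dual, PEL_dual_dual]
  ring

end

section

variable (α : Type) [DecidableEq α]

/-- the statewise lemma -/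
def Stmt_StateK : Prop := ∀ (τ : Finset α → Lab) (D : Finset α) (ρ : Finset α → α → ℝ),
  τ ∅ = Lab.A → τ D = Lab.B → (∀ X ⊆ D, ∀ g ∈ D \ X, 0 < ρ X g ∧ ρ X g ≤ 1) → K.StateK τ D ρ

/-- the bound of the cost -/
def Stmt_CostV : Prop := ∀ (τ : Finset α → Lab) (D : Finset α), 2 ≤ D.card → τ ∅ = Lab.A →
  τ D = Lab.B → ((D.card : ℝ) + 1) * COST1 τ D ≤
      (NL τ D Lab.X + NL (dual τ D) D Lab.X) / (D.card : ℝ) ^ 2

/-- no light element at the top -/
def Stmt_J0 : Prop := ∀ (τ : Finset α → Lab) (D L L' : Finset α) (ρ ρ' : Finset α → α → ℝ),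
  2 ≤ D.card → τ ∅ = Lab.A → τ D = Lab.B → (∀ x ∈ D, (x ∈ L ↔ τ {x} = Lab.B)) →
  (∀ x ∈ D, τ (D.erase x) ≠ Lab.A) → Disjoint L' D → L.card + L'.card + 1 ≤ D.card →
  (∀ X ⊆ D, ∀ g ∈ D \ X, 0 < ρ X g ∧ ρ X g ≤ 1) →
  (∀ X ⊆ D, ∀ g ∈ D \ X, 0 < ρ' X g ∧ ρ' X g ≤ 1) →
  0 ≤ K.VAL τ D (K.vset τ D ρ L) (K.vset (dual τ D) D ρ' L')

/-- **the typewise inequality for the set kernel** -/
theorem TIS_of (hK : Stmt_StateK α) (hC : Stmt_CostV α) (hJ0 : Stmt_J0 α) {l q : ℕ}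
    (hl : 2 ≤ l) (hql : q ≤ l) : K.Stmt_TIS α l q := by
  intro τ D L L' ρ ρ' hcard h0 hD hL hL' hLL hρ hρ'
  subst hcard
  have hq : 1 ≤ q := by omega
  have hpel : 0 ≤ Real.log ((D.card : ℝ) / (q : ℝ)) * (PEL τ D + PEL (dual τ D) D) := by
    apply mul_nonneg
    · apply Real.log_nonneg
      rw [le_div_iff₀ (by exact_mod_cast hq)]
      have : (q : ℝ) ≤ D.card := by exact_mod_cast hql
      linarith
    · exact add_nonneg (CQ.PEL_nonneg _ _) (CQ.PEL_nonneg _ _)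
  refine add_nonneg ?_ hpel
  have d0 := dual_empty hD
  have dD := dual_top (D := D) h0
  by_cases hJ' : ∃ x ∈ D, τ (D.erase x) = Lab.A
  · by_cases hJ : ∃ x ∈ D, τ {x} = Lab.B
    · exact VAL_nonneg L L' ρ ρ' h0 hD hl hJ hJ' hL hL' (by omega) (by omega)
        (hK τ D ρ' h0 hD hρ') (hK (dual τ D) D ρ d0 dD hρ) (costV_of h0 hD (hC τ D hl h0 hD))
    · push Not at hJ
      have h1 := hJ0 (dual τ D) D L' L ρ' ρ hl d0 dD
        (fun x hx => by rw [hL' x hx, dual_flip, flip_eq_B, sdiff_singleton_eq_erase])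
        (fun x hx => by
          rw [dual_flip, ne_eq, flip_eq_A, sdiff_erase_self hx]
          exact hJ x hx)
        (disjoint_left.2 fun x hx hxD => hJ x hxD ((hL x hxD).1 hx)) (by omega) hρ' hρ
      rw [vset_dual_dual, VAL_dual] at h1
      exact h1
  · push Not at hJ'
    exact hJ0 τ D L L' ρ ρ' hl h0 hD hL hJ'
      (disjoint_left.2 fun x hx hxD => hJ' x hxD ((hL' x hxD).1 hx)) (by omega) hρ hρ'

end

end Two

end R5
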