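import Pool.Agent.Work.MP_8b6acb_ti_helper76.Both

/-!
# The two-sided path inequality for `J, J' ≥ 1`, vertices included: assembly (helper76)

Note 1523 of the R5 room (helper25).
-/

namespace R5

namespace Two

open Finset T7

variable {α : Type} [DecidableEq α]

section path

variable {τ : Finset α → Lab} {D : Finset α} {π : List α}

theorem dual_empty (hD : τ D = Lab.B) : dual τ D ∅ = Lab.A := by
  rw [dual_flip, sdiff_empty, hD]; rfl

theorem dual_top (h0 : τ ∅ = Lab.A) : dual τ D D = Lab.B := by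
  rw [dual_flip, sdiff_self, bot_eq_empty, h0]; rfl

/-- the first exit of the dual path is an edge iff `V_K` is no vertex -/
theorem iE_dual (h0 : τ ∅ = Lab.A) (hD : τ D = Lab.B) (hπ : π ∈ seqs D.card D) :
    iE (dual τ D) π.reverse (kA (dual τ D) π.reverse) = 1 - lx τ π := by
  have h0' : τ ∅ ≠ Lab.B := by rw [h0]; decide
  have hN := kN_lt h0' hD hπ
  have d0 := dual_empty hD
  have dD : dual τ D D ≠ Lab.A := by rw [dual_top h0]; decide
  have hrev := reverse_mem hπ
  have hk := kA_dual h0 hD hπ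
  have h1 : allA (dual τ D) π.reverse (kA (dual τ D) π.reverse) :=
    (allA_iff d0 dD hrev _).2 le_rfl
  have h2 : dual τ D (pre π.reverse (kA (dual τ D) π.reverse + 1)) = (τ (pre π (kN τ π))).flip := by
    rw [hk, pre_reverse hπ (by omega), dual_flip, Finset.sdiff_sdiff_eq_self
      (pre_subset_of_mem hπ _)]
    have e : D.card - (D.card - 1 - kN τ π + 1) = kN τ π := by omega
    rw [e]
  unfold lx
  by_cases h3 : τ (pre π (kN τ π)) = Lab.A
  · rw [if_pos h3, iE_pos ⟨h1, by rw [h2, h3]; rfl⟩, sub_zero]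
  · rw [if_neg h3, iE_neg, sub_self]
    intro h4
    have h5 := h4.2
    rw [h2, flip_eq_B] at h5
    exact h3 h5

/-- `V_K` of the dual path is a vertex iff the first exit is a vertex -/
theorem lx_dual (h0 : τ ∅ = Lab.A) (hD : τ D = Lab.B) (hπ : π ∈ seqs D.card D) :
    lx (dual τ D) π.reverse = 1 - iE τ π (kA τ π) := by
  have hD' : τ D ≠ Lab.A := by rw [hD]; decide
  have hk := kA_lt h0 hD' hπ
  have h1 := kN_dual h0 hD hπ
  have h2 : dual τ D (pre π.reverse (kN (dual τ D) π.reverse)) =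
      (τ (pre π (kA τ π + 1))).flip := by
    rw [h1, pre_reverse hπ (by omega), dual_flip, Finset.sdiff_sdiff_eq_self
      (pre_subset_of_mem hπ _)]
    have e : D.card - (D.card - 1 - kA τ π) = kA τ π + 1 := by omega
    rw [e]
  unfold lx
  by_cases h3 : τ (pre π (kA τ π + 1)) = Lab.B
  · rw [if_pos (by rw [h2, h3]; rfl), iE_pos ⟨(allA_iff h0 hD' hπ _).2 le_rfl, h3⟩, sub_self]
  · rw [if_neg (by rw [h2, flip_eq_A]; exact h3), iE_neg (fun h => h3 h.2), sub_zero]

theorem exit_cases (h0 : τ ∅ = Lab.A) (hD : τ D = Lab.B) (hπ : π ∈ seqs D.card D) :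
    (lv τ D π = 0 ∧ nl τ D π = 0 ∧ (1 : ℝ) ≤ (kN τ π : ℝ) - kA τ π) ∨
    (lv τ D π = 1 ∧ nl τ D π = 0) ∨ (lv τ D π = 0 ∧ nl τ D π = 1) := by
  have hD' : τ D ≠ Lab.A := by rw [hD]; decide
  have hk := kA_lt h0 hD' hπ
  have h1 := iE_eq h0 hD hπ
  have h2 : iE τ π (kA τ π) = 0 ∨ iE τ π (kA τ π) = 1 := by
    unfold iE
    split_ifs
    · exact Or.inr rfl
    · exact Or.inl rfl
  have h3 : lv τ D π = 0 ∨ lv τ D π = 1 := nx_cases hπ hk _
  have h4 : nl τ D π = 0 ∨ nl τ D π = 1 := nx_cases hπ hk _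
  rcases h3 with h3 | h3 <;> rcases h4 with h4 | h4
  · left
    refine ⟨h3, h4, ?_⟩
    have h5 := lt_of_fv h0 hD hπ (by rw [h1, h3, h4, add_zero])
    have : (kA τ π : ℝ) + 1 ≤ kN τ π := by exact_mod_cast h5
    linarith
  · exact Or.inr (Or.inr ⟨h3, h4⟩)
  · exact Or.inr (Or.inl ⟨h3, h4⟩)
  · exfalso
    rw [h3, h4] at h1
    rcases h2 with h2 | h2 <;> rw [h2] at h1 <;> norm_num at h1

theorem n00_le (τ : Finset α → Lab) (D : Finset α) (π : List α) : n00 τ D π ≤ kA τ π := by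
  unfold n00
  refine (card_filter_le _ _).trans ?_
  rw [Nat.card_Icc]
  omega

end path

/-- the surplus on the paths through vertices -/
noncomputable def sur (τ : Finset α → Lab) (D : Finset α) (π : List α) : ℝ :=
  ((D.card : ℝ) - kN τ π) * ((1 - iE τ π (kA τ π)) * (1 - lx τ π)) +
    ((kA τ π : ℝ) + 1) * (iE τ π (kA τ π) * lx τ π) +
    2 * ((1 - iE τ π (kA τ π)) * lx τ π)

theorem point {τ : Finset α → Lab} {D : Finset α} {π : List α} (h0 : τ ∅ = Lab.A)
    (hD : τ D = Lab.B) (hπ : π ∈ seqs D.card D) :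
    sur τ D π ≤ LC τ D π + LC (dual τ D) D π.reverse := by
  have hD' : τ D ≠ Lab.A := by rw [hD]; decide
  have h0' : τ ∅ ≠ Lab.B := by rw [h0]; decide
  have d0 := dual_empty hD
  have dD := dual_top (D := D) h0
  have hk := kA_lt h0 hD' hπ
  have hN := kN_lt h0' hD hπ
  have hAN := kA_le_kN h0 hD hπ
  have hrev := reverse_mem hπ
  have k1 := kA_dual h0 hD hπ
  have k2 := kN_dual h0 hD hπ
  have i1 := iE_eq h0 hD hπ
  have i2 := iE_eq d0 dD hrev
  have x1 := iE_dual h0 hD hπ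
  have x2 := lx_dual h0 hD hπ
  have c1 := exit_cases h0 hD hπ
  have c2 := exit_cases d0 dD hrev
  have n1 := n00_le τ D π
  have n2 := n00_le (dual τ D) D π.reverse
  have K1 : ((kA (dual τ D) π.reverse : ℕ) : ℝ) = (D.card : ℝ) - 1 - kN τ π := by
    rw [k1, Nat.cast_sub (by omega), Nat.cast_sub (by omega)]
    push_cast
    ring
  have K2 : ((kN (dual τ D) π.reverse : ℕ) : ℝ) = (D.card : ℝ) - 1 - kA τ π := by
    rw [k2, Nat.cast_sub (by omega), Nat.cast_sub (by omega)]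
    push_cast
    ring
  have n1' : (n00 τ D π : ℝ) ≤ kA τ π := by exact_mod_cast n1
  have n2' : (n00 (dual τ D) D π.reverse : ℝ) ≤ kA (dual τ D) π.reverse := by exact_mod_cast n2
  have hr : (0 : ℝ) ≤ (kN τ π : ℝ) - kA τ π := by
    have : (kA τ π : ℝ) ≤ kN τ π := by exact_mod_cast hAN
    linarith
  have hw : (1 : ℝ) ≤ (D.card : ℝ) - kN τ π := by
    have : (kN τ π : ℝ) + 1 ≤ D.card := by exact_mod_cast hN
    linarith
  have hu : (1 : ℝ) ≤ (kA τ π : ℝ) + 1 := by
    have : (0 : ℝ) ≤ kA τ π := Nat.cast_nonneg _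
    linarith
  have hlx : lx τ π = 1 - lv (dual τ D) D π.reverse - nl (dual τ D) D π.reverse := by
    linarith
  have hmain := pointwise (u := (kA τ π : ℝ) + 1) (w := (D.card : ℝ) - kN τ π)
    (r := (kN τ π : ℝ) - kA τ π) (n := (n00 τ D π : ℝ)) (n' := (n00 (dual τ D) D π.reverse : ℝ))
    (a := lv τ D π) (b := nl τ D π) (a' := lv (dual τ D) D π.reverse)
    (b' := nl (dual τ D) D π.reverse) hu hw hr (Nat.cast_nonneg _) (by linarith)
    (Nat.cast_nonneg _) (by rw [K1] at n2'; linarith) c1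
    (by
      rcases c2 with ⟨h1, h2, h3⟩ | h | h
      · left
        refine ⟨h1, h2, ?_⟩
        rw [K1, K2] at h3
        linarith
      · exact Or.inr (Or.inl h)
      · exact Or.inr (Or.inr h))
  unfold sur LC
  rw [K1, K2, i1, x1, x2, hlx, i1]
  have e1 : 1 - (1 - lv (dual τ D) D π.reverse - nl (dual τ D) D π.reverse) =
      lv (dual τ D) D π.reverse + nl (dual τ D) D π.reverse := by ring
  rw [e1]
  nlinarith [hmain]

/-- **BOTH SIDES** -/
theorem both {τ : Finset α → Lab} {D : Finset α} (h0 : τ ∅ = Lab.A) (hD : τ D = Lab.B)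
    (hJ : ∃ x ∈ D, τ {x} = Lab.B) (hJ' : ∃ x ∈ D, dual τ D {x} = Lab.B)
    (g g' : List α → ℝ)
    (hW : ∀ π ∈ seqs D.card D, ∀ i ≤ kA τ π, (vv τ D π i - on τ D π i) * lamn D.card ≤
      (pn τ π i : ℝ) * Lam (kN τ π) D.card - gg D.card (an τ D π i) +
        gg (kN τ π) (pn τ π i) + g π)
    (hW' : ∀ π ∈ seqs D.card D, ∀ i ≤ kA (dual τ D) π,
      (vv (dual τ D) D π i - on (dual τ D) D π i) * lamn D.card ≤
      (pn (dual τ D) π i : ℝ) * Lam (kN (dual τ D) π) D.card - gg D.card (an (dual τ D) D π i) +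
        gg (kN (dual τ D) π) (pn (dual τ D) π i) + g' π) :
    lamn D.card * Av D (sur τ D) ≤ Av D (TP τ D g) + Av D (TP (dual τ D) D g') := by
  have d0 := dual_empty hD
  have dD := dual_top (D := D) h0
  have h1 := one_side' h0 hD hJ g hW
  have h2 := one_side' d0 dD hJ' g' hW'
  rw [← Av_reverse D (LC (dual τ D) D)] at h2
  have h3 : Av D (sur τ D) ≤ Av D (LC τ D) + Av D (fun π => LC (dual τ D) D π.reverse) := by
    rw [← Av_add]
    exact Av_mono fun π hπ => point h0 hD hπ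
  have h4 := mul_le_mul_of_nonneg_left h3 (lamn_nonneg D.card)
  rw [mul_add] at h4
  linarith

end Two

end R5
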