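import Pool.Agent.Work.MP_8b6acb_ti_helper76.Comp

/-!
# The two-sided path inequality (helper52, note 1480 (3)), helper76

`A X` = live S-lights at `X`, `Z V` = live T-lights of `V` (any functions with the properties used).
-/

namespace R5

namespace Blk

open Finset

variable {α : Type} [DecidableEq α]

theorem insert_nx {D : Finset α} {π : List α} (hπ : π ∈ seqs D.card D) {i : ℕ} (hi : i < D.card)
    {z : α} (hz : z ∈ nx π i) : insert z (pre π i) = pre π (i + 1) := by
  have hc := card_nx hπ hi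
  have h1 : pre π i ⊆ pre π (i + 1) := pre_mono (Nat.le_succ i)
  unfold nx at hz hc
  have h2 := mem_sdiff.1 hz
  ext x
  simp only [mem_insert]
  constructor
  · rintro (rfl | h)
    · exact h2.1
    · exact h1 h
  · intro h
    by_cases hx : x ∈ pre π i
    · exact Or.inr hx
    · left
      obtain ⟨w, hw⟩ := card_eq_one.1 hc
      have h3 : x ∈ pre π (i + 1) \ pre π i := mem_sdiff.2 ⟨h, hx⟩
      rw [hw, mem_singleton] at h3 hz
      rw [h3, hz]

theorem erase_nx {D : Finset α} {π : List α} (hπ : π ∈ seqs D.card D) {i : ℕ} (hi : i < D.card)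
    {z : α} (hz : z ∈ nx π i) : (pre π (i + 1)).erase z = pre π i := by
  rw [← insert_nx hπ hi hz, erase_insert]
  unfold nx at hz
  exact (mem_sdiff.1 hz).2

/-- chains of the first kind -/
noncomputable def q1 (τ : Finset α → Lab) (A : Finset α → Finset α) (π : List α) : ℝ :=
  ∑ y ∈ nx π (kB τ π), ∑ z ∈ nx π (kA τ π),
    if y ∈ A (pre π (kA τ π)) ∧ z ∈ A (pre π (kA τ π)) ∧
      τ ((pre π (kB τ π + 1)).erase z) = Lab.B then 1 else 0

/-- chains of the second kind -/
noncomputable def q2 (τ : Finset α → Lab) (Z : Finset α → Finset α) (π : List α) : ℝ :=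
  ∑ y ∈ nx π (kA τ π), ∑ z ∈ nx π (kB τ π),
    if y ∈ Z (pre π (kB τ π + 1)) ∧ z ∈ Z (pre π (kB τ π + 1)) ∧
      τ (insert z (pre π (kA τ π))) = Lab.A then 1 else 0

/-- unpaid pairs of the first kind -/
noncomputable def un1 (τ : Finset α → Lab) (A : Finset α → Finset α) (l : ℕ) (π : List α) : ℝ :=
  ∑ i ∈ range (kA τ π + 1), ∑ j ∈ Ioc (kB τ π + 1) l, ∑ y ∈ nx π (kB τ π),
    ∑ z ∈ nx π (j - 1), if y ∈ A (pre π i) ∧ z ∈ A (pre π i) ∧
      τ ((pre π j).erase y) ≠ Lab.B then 1 else 0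

/-- unpaid pairs of the second kind -/
noncomputable def un2 (τ : Finset α → Lab) (Z : Finset α → Finset α) (l : ℕ) (π : List α) : ℝ :=
  ∑ j ∈ Ioc (kB τ π) l, ∑ i ∈ range (kA τ π), ∑ y ∈ nx π (kA τ π),
    ∑ z ∈ nx π i, if y ∈ Z (pre π j) ∧ z ∈ Z (pre π j) ∧
      τ (insert y (pre π i)) ≠ Lab.A then 1 else 0

theorem sum_ite_nonneg {ι κ : Type*} (S : Finset ι) (T : Finset κ) (P : ι → κ → Prop)
    [∀ i j, Decidable (P i j)] : (0 : ℝ) ≤ ∑ y ∈ S, ∑ z ∈ T, if P y z then 1 else 0 :=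
  sum_nonneg fun y _ => sum_nonneg fun z _ => by split_ifs <;> norm_num

/-- **the injection, first kind** -/
theorem inj1 {τ : Finset α → Lab} {D : Finset α} (h0 : τ ∅ = Lab.A) (hB : τ D = Lab.B)
    (A : Finset α → Finset α) (hA : ∀ X, ∀ x ∈ A X, τ (insert x X) = Lab.B) :
    Av D (un1 τ A D.card) ≤ Av D (fun π => ((kB τ π : ℝ) - kA τ π) * q1 τ A π) := by
  obtain ⟨G, hG⟩ : ∃ G : ℕ → List α → Finset α → List α → α → α → ℝ, G = fun i π1 U π3 y z =>
    if allA τ π1 i ∧ aB τ U π3 ∧ y ∈ A π1.toFinset ∧ z ∈ A π1.toFinset ∧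
      τ (U.erase y) ≠ Lab.B ∧ τ (U.erase z) = Lab.B then 1 else 0 := ⟨_, rfl⟩
  have hG0 : ∀ i π1 U π3 y z, 0 ≤ G i π1 U π3 y z := by
    intro i π1 U π3 y z
    rw [hG]
    show 0 ≤ (if _ then _ else _ : ℝ)
    split_ifs <;> norm_num
  have hLD : ∀ π ∈ seqs D.card D, 0 < D.card := by
    intro π hπ
    rcases Nat.eq_zero_or_pos D.card with h | h
    · rw [card_eq_zero] at h
      rw [h, h0] at hB
      exact absurd hB (by decide)
    · exact h
  -- step 1
  have s1 : Av D (un1 τ A D.card) ≤ Av D (fun π => ∑ i ∈ range D.card, ∑ j ∈ Icc 1 D.card,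
      ∑ K ∈ Ico i (j - 1), ∑ y ∈ nx π K, ∑ z ∈ nx π (j - 1),
        G i (π.take i) (pre π j) (π.drop j) y z) := by
    refine Av_mono fun π hπ => ?_
    have hl := length_of_mem hπ
    have hBπ : τ π.toFinset = Lab.B := by rw [(mem_seqs_card.1 hπ).2]; exact hB
    have hpos := hLD π hπ
    have h1 := kA_le_kB hBπ h0
    have h2 := kB_lt hBπ (by omega)
    unfold un1
    have s2 : ∑ i ∈ range (kA τ π + 1), ∑ j ∈ Ioc (kB τ π + 1) D.card, ∑ y ∈ nx π (kB τ π),
        ∑ z ∈ nx π (j - 1), (if y ∈ A (pre π i) ∧ z ∈ A (pre π i) ∧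
          τ ((pre π j).erase y) ≠ Lab.B then (1 : ℝ) else 0) ≤
        ∑ i ∈ range (kA τ π + 1), ∑ j ∈ Icc 1 D.card, ∑ K ∈ Ico i (j - 1),
          ∑ y ∈ nx π K, ∑ z ∈ nx π (j - 1), G i (π.take i) (pre π j) (π.drop j) y z := by
      refine sum_le_sum fun i hi => ?_
      rw [mem_range] at hi
      have s3 : ∑ j ∈ Ioc (kB τ π + 1) D.card, ∑ y ∈ nx π (kB τ π),
          ∑ z ∈ nx π (j - 1), (if y ∈ A (pre π i) ∧ z ∈ A (pre π i) ∧
            τ ((pre π j).erase y) ≠ Lab.B then (1 : ℝ) else 0) ≤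
          ∑ j ∈ Ioc (kB τ π + 1) D.card, ∑ K ∈ Ico i (j - 1),
            ∑ y ∈ nx π K, ∑ z ∈ nx π (j - 1), G i (π.take i) (pre π j) (π.drop j) y z := by
        refine sum_le_sum fun j hj => ?_
        rw [mem_Ioc] at hj
        have hKm : kB τ π ∈ Ico i (j - 1) := by rw [mem_Ico]; omega
        refine le_trans ?_ (single_le_sum (f := fun K => ∑ y ∈ nx π K, ∑ z ∈ nx π (j - 1),
          G i (π.take i) (pre π j) (π.drop j) y z) (fun K _ => sum_nonneg fun y _ =>
            sum_nonneg fun z _ => hG0 _ _ _ _ _ _) hKm)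
        refine sum_le_sum fun y hy => sum_le_sum fun z hz => ?_
        rw [hG]
        beta_reduce
        split_ifs with h3 h4
        · exact le_rfl
        · exfalso
          apply h4
          refine ⟨allA_iff_take.1 ((allA_iff h0 (by omega)).2 (by omega)),
            (allB_iff_aB (by omega)).1 ((allB_iff (by omega) (by omega)).2 (by omega)),
            h3.1, h3.2.1, h3.2.2, ?_⟩
          have h5 : pre π j = pre π (j - 1 + 1) := by congr 1; omega
          rw [h5, erase_nx hπ (by omega) hz]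
          exact (allB_iff (j := j - 1) (by omega) (by omega)).2 (by omega) (j - 1)
            (by rw [mem_Icc]; omega)
        · norm_num
        · exact le_rfl
      refine s3.trans (sum_le_sum_of_subset_of_nonneg ?_ fun j _ _ => ?_)
      · intro j hj
        rw [mem_Ioc] at hj
        rw [mem_Icc]
        omega
      · exact sum_nonneg fun K _ => sum_nonneg fun y _ => sum_nonneg fun z _ => hG0 _ _ _ _ _ _
    refine s2.trans (sum_le_sum_of_subset_of_nonneg ?_ fun i _ _ => ?_)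
    · intro i hi
      rw [mem_range] at hi ⊢
      omega
    · exact sum_nonneg fun j _ => sum_nonneg fun K _ => sum_nonneg fun y _ =>
        sum_nonneg fun z _ => hG0 _ _ _ _ _ _
  refine s1.trans ?_
  -- step 2: exchange
  have s4 : Av D (fun π => ∑ i ∈ range D.card, ∑ j ∈ Icc 1 D.card,
      ∑ K ∈ Ico i (j - 1), ∑ y ∈ nx π K, ∑ z ∈ nx π (j - 1),
        G i (π.take i) (pre π j) (π.drop j) y z) =
      Av D (fun π => ∑ i ∈ range D.card, ∑ j ∈ Icc 1 D.card,
      ∑ _K ∈ Ico i (j - 1), ∑ y ∈ nx π (j - 1), ∑ z ∈ nx π i,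
        G i (π.take i) (pre π j) (π.drop j) y z) := by
    rw [Av_sum, Av_sum]
    refine sum_congr rfl fun i _ => ?_
    rw [Av_sum, Av_sum]
    refine sum_congr rfl fun j hj => ?_
    rw [Av_sum, Av_sum]
    refine sum_congr rfl fun K hK => ?_
    rw [mem_Icc] at hj
    rw [mem_Ico] at hK
    exact Av_two_two (i := i) (p := j) (a := K) (b := j - 1) (c := j - 1) (d := i) hK.1 (by omega)
      (by omega) (by omega) (by omega) (by omega) (by omega) le_rfl (by omega) (by omega) hj.2 (G i)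
  rw [s4]
  refine Av_mono fun π hπ => ?_
  have hl := length_of_mem hπ
  have hBπ : τ π.toFinset = Lab.B := by rw [(mem_seqs_card.1 hπ).2]; exact hB
  have hpos := hLD π hπ
  have h1 := kA_le_kB hBπ h0
  have h2 := kB_lt hBπ (by omega)
  have key : ∀ i ∈ range D.card, ∀ j ∈ Icc 1 D.card, ∀ y ∈ nx π (j - 1), ∀ z ∈ nx π i,
      ¬ (i = kA τ π ∧ j = kB τ π + 1) → G i (π.take i) (pre π j) (π.drop j) y z = 0 := by
    intro i hi j hj y hy z hz hne
    rw [mem_range] at hi
    rw [mem_Icc] at hj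
    rw [hG]
    show (if _ then _ else _ : ℝ) = 0
    refine if_neg fun h => hne ?_
    obtain ⟨h3, h4, h5, h6, h7, h8⟩ := h
    constructor
    · symm
      rw [kA_eq_iff hBπ h0 (by omega)]
      refine ⟨allA_iff_take.2 h3, ?_⟩
      rw [← insert_nx hπ hi hz]
      have := hA (π.take i).toFinset z h6
      rw [← pre_eq_take] at this
      rw [this]
      decide
    · have h9 : kB τ π = j - 1 := by
        rw [kB_eq_iff hBπ h0 (by omega)]
        have e : j - 1 + 1 = j := by omega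
        rw [e]
        refine ⟨(allB_iff_aB (by omega)).2 h4, ?_⟩
        have h10 := erase_nx hπ (i := j - 1) (by omega) hy
        rw [e] at h10
        rw [← h10]
        exact h7
      omega
  have s5 : ∑ i ∈ range D.card, ∑ j ∈ Icc 1 D.card,
      ∑ _K ∈ Ico i (j - 1), ∑ y ∈ nx π (j - 1), ∑ z ∈ nx π i,
        G i (π.take i) (pre π j) (π.drop j) y z =
      ∑ _K ∈ Ico (kA τ π) (kB τ π + 1 - 1), ∑ y ∈ nx π (kB τ π + 1 - 1), ∑ z ∈ nx π (kA τ π),
        G (kA τ π) (π.take (kA τ π)) (pre π (kB τ π + 1)) (π.drop (kB τ π + 1)) y z := by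
    rw [sum_eq_single_of_mem (kA τ π) (by rw [mem_range]; omega)]
    · rw [sum_eq_single_of_mem (kB τ π + 1) (by rw [mem_Icc]; omega)]
      intro j hj hne
      exact sum_eq_zero fun K _ => sum_eq_zero fun y hy => sum_eq_zero fun z hz =>
        key _ (by rw [mem_range]; omega) j hj y hy z hz (fun h => hne h.2)
    · intro i hi hne
      exact sum_eq_zero fun j hj => sum_eq_zero fun K _ => sum_eq_zero fun y hy =>
        sum_eq_zero fun z hz => key _ hi j hj y hy z hz (fun h => hne h.1)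
  rw [s5, sum_const, Nat.card_Ico, nsmul_eq_mul]
  have e1 : ((kB τ π + 1 - 1 - kA τ π : ℕ) : ℝ) = (kB τ π : ℝ) - kA τ π := by
    rw [Nat.cast_sub (by omega)]
    simp
  rw [e1]
  have h3 : (0 : ℝ) ≤ (kB τ π : ℝ) - kA τ π := by
    have : (kA τ π : ℝ) ≤ kB τ π := by exact_mod_cast h1
    linarith
  refine mul_le_mul_of_nonneg_left ?_ h3
  unfold q1
  simp only [Nat.add_sub_cancel]
  refine sum_le_sum fun y _ => sum_le_sum fun z _ => ?_
  rw [hG]
  show (if _ then _ else _ : ℝ) ≤ _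
  split_ifs with h4 h5
  · exact le_rfl
  · exfalso
    exact h5 ⟨h4.2.2.1, h4.2.2.2.1, h4.2.2.2.2.2⟩
  · norm_num
  · exact le_rfl

/-- **the injection, second kind** -/
theorem inj2 {τ : Finset α → Lab} {D : Finset α} (h0 : τ ∅ = Lab.A) (hB : τ D = Lab.B)
    (Z : Finset α → Finset α) (hZ : ∀ V, ∀ x ∈ Z V, τ (V.erase x) = Lab.A) :
    Av D (un2 τ Z D.card) ≤ Av D (fun π => ((kB τ π : ℝ) - kA τ π) * q2 τ Z π) := by
  obtain ⟨G, hG⟩ : ∃ G : ℕ → List α → Finset α → List α → α → α → ℝ, G = fun i π1 U π3 y z =>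
    if allA τ π1 i ∧ aB τ U π3 ∧ y ∈ Z U ∧ z ∈ Z U ∧
      τ (insert y π1.toFinset) ≠ Lab.A ∧ τ (insert z π1.toFinset) = Lab.A then 1 else 0 :=
    ⟨_, rfl⟩
  have hG0 : ∀ i π1 U π3 y z, 0 ≤ G i π1 U π3 y z := by
    intro i π1 U π3 y z
    rw [hG]
    show 0 ≤ (if _ then _ else _ : ℝ)
    split_ifs <;> norm_num
  have hLD : ∀ π ∈ seqs D.card D, 0 < D.card := by
    intro π hπ
    rcases Nat.eq_zero_or_pos D.card with h | h
    · rw [card_eq_zero] at h
      rw [h, h0] at hB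
      exact absurd hB (by decide)
    · exact h
  -- step 1
  have s1 : Av D (un2 τ Z D.card) ≤ Av D (fun π => ∑ j ∈ Icc 1 D.card, ∑ i ∈ range D.card,
      ∑ k ∈ Ioc i (j - 1), ∑ y ∈ nx π k, ∑ z ∈ nx π i,
        G i (π.take i) (pre π j) (π.drop j) y z) := by
    refine Av_mono fun π hπ => ?_
    have hl := length_of_mem hπ
    have hBπ : τ π.toFinset = Lab.B := by rw [(mem_seqs_card.1 hπ).2]; exact hB
    have hpos := hLD π hπ
    have h1 := kA_le_kB hBπ h0
    have h2 := kB_lt hBπ (by omega)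
    unfold un2
    have s2 : ∑ j ∈ Ioc (kB τ π) D.card, ∑ i ∈ range (kA τ π), ∑ y ∈ nx π (kA τ π),
        ∑ z ∈ nx π i, (if y ∈ Z (pre π j) ∧ z ∈ Z (pre π j) ∧
          τ (insert y (pre π i)) ≠ Lab.A then (1 : ℝ) else 0) ≤
        ∑ j ∈ Ioc (kB τ π) D.card, ∑ i ∈ range D.card, ∑ k ∈ Ioc i (j - 1),
          ∑ y ∈ nx π k, ∑ z ∈ nx π i, G i (π.take i) (pre π j) (π.drop j) y z := by
      refine sum_le_sum fun j hj => ?_
      rw [mem_Ioc] at hj
      have s3 : ∑ i ∈ range (kA τ π), ∑ y ∈ nx π (kA τ π),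
          ∑ z ∈ nx π i, (if y ∈ Z (pre π j) ∧ z ∈ Z (pre π j) ∧
            τ (insert y (pre π i)) ≠ Lab.A then (1 : ℝ) else 0) ≤
          ∑ i ∈ range (kA τ π), ∑ k ∈ Ioc i (j - 1),
            ∑ y ∈ nx π k, ∑ z ∈ nx π i, G i (π.take i) (pre π j) (π.drop j) y z := by
        refine sum_le_sum fun i hi => ?_
        rw [mem_range] at hi
        have hKm : kA τ π ∈ Ioc i (j - 1) := by rw [mem_Ioc]; omega
        refine le_trans ?_ (single_le_sum (f := fun k => ∑ y ∈ nx π k, ∑ z ∈ nx π i,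
          G i (π.take i) (pre π j) (π.drop j) y z) (fun K _ => sum_nonneg fun y _ =>
            sum_nonneg fun z _ => hG0 _ _ _ _ _ _) hKm)
        refine sum_le_sum fun y hy => sum_le_sum fun z hz => ?_
        rw [hG]
        beta_reduce
        split_ifs with h3 h4
        · exact le_rfl
        · exfalso
          apply h4
          refine ⟨allA_iff_take.1 ((allA_iff h0 (by omega)).2 (by omega)),
            (allB_iff_aB (by omega)).1 ((allB_iff (by omega) (by omega)).2 (by omega)),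
            h3.1, h3.2.1, h3.2.2, ?_⟩
          rw [← pre_eq_take, insert_nx hπ (by omega) hz]
          exact (allA_iff h0 (i := i + 1) (by omega)).2 (by omega) (i + 1) (by simp)
        · norm_num
        · exact le_rfl
      refine s3.trans (sum_le_sum_of_subset_of_nonneg ?_ fun i _ _ => ?_)
      · intro i hi
        rw [mem_range] at hi ⊢
        omega
      · exact sum_nonneg fun K _ => sum_nonneg fun y _ => sum_nonneg fun z _ => hG0 _ _ _ _ _ _
    refine s2.trans (sum_le_sum_of_subset_of_nonneg ?_ fun i _ _ => ?_)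
    · intro j hj
      rw [mem_Ioc] at hj
      rw [mem_Icc]
      omega
    · exact sum_nonneg fun j _ => sum_nonneg fun K _ => sum_nonneg fun y _ =>
        sum_nonneg fun z _ => hG0 _ _ _ _ _ _
  refine s1.trans ?_
  -- step 2: exchange
  have s4 : Av D (fun π => ∑ j ∈ Icc 1 D.card, ∑ i ∈ range D.card,
      ∑ k ∈ Ioc i (j - 1), ∑ y ∈ nx π k, ∑ z ∈ nx π i,
        G i (π.take i) (pre π j) (π.drop j) y z) =
      Av D (fun π => ∑ j ∈ Icc 1 D.card, ∑ i ∈ range D.card,
      ∑ _k ∈ Ioc i (j - 1), ∑ y ∈ nx π i, ∑ z ∈ nx π (j - 1),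
        G i (π.take i) (pre π j) (π.drop j) y z) := by
    rw [Av_sum, Av_sum]
    refine sum_congr rfl fun j hj => ?_
    rw [Av_sum, Av_sum]
    refine sum_congr rfl fun i _ => ?_
    rw [Av_sum, Av_sum]
    refine sum_congr rfl fun k hk => ?_
    rw [mem_Icc] at hj
    rw [mem_Ioc] at hk
    exact Av_two_two (i := i) (p := j) (a := k) (b := i) (c := i) (d := j - 1) (by omega)
      (by omega) le_rfl (by omega) (by omega) le_rfl (by omega) (by omega) (by omega) (by omega)
      hj.2 (G i)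
  rw [s4]
  refine Av_mono fun π hπ => ?_
  have hl := length_of_mem hπ
  have hBπ : τ π.toFinset = Lab.B := by rw [(mem_seqs_card.1 hπ).2]; exact hB
  have hpos := hLD π hπ
  have h1 := kA_le_kB hBπ h0
  have h2 := kB_lt hBπ (by omega)
  have key : ∀ i ∈ range D.card, ∀ j ∈ Icc 1 D.card, ∀ y ∈ nx π i, ∀ z ∈ nx π (j - 1),
      ¬ (i = kA τ π ∧ j = kB τ π + 1) → G i (π.take i) (pre π j) (π.drop j) y z = 0 := by
    intro i hi j hj y hy z hz hne
    rw [mem_range] at hi
    rw [mem_Icc] at hj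
    rw [hG]
    show (if _ then _ else _ : ℝ) = 0
    refine if_neg fun h => hne ?_
    obtain ⟨h3, h4, h5, h6, h7, h8⟩ := h
    constructor
    · symm
      rw [kA_eq_iff hBπ h0 (by omega)]
      refine ⟨allA_iff_take.2 h3, ?_⟩
      rw [← insert_nx hπ hi hy]
      rw [← pre_eq_take] at h7
      exact h7
    · have h9 : kB τ π = j - 1 := by
        rw [kB_eq_iff hBπ h0 (by omega)]
        have e : j - 1 + 1 = j := by omega
        rw [e]
        refine ⟨(allB_iff_aB (by omega)).2 h4, ?_⟩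
        have h10 := erase_nx hπ (i := j - 1) (by omega) hz
        rw [e] at h10
        rw [← h10, hZ _ z h6]
        decide
      omega
  have s5 : ∑ j ∈ Icc 1 D.card, ∑ i ∈ range D.card,
      ∑ _k ∈ Ioc i (j - 1), ∑ y ∈ nx π i, ∑ z ∈ nx π (j - 1),
        G i (π.take i) (pre π j) (π.drop j) y z =
      ∑ _k ∈ Ioc (kA τ π) (kB τ π + 1 - 1), ∑ y ∈ nx π (kA τ π), ∑ z ∈ nx π (kB τ π + 1 - 1),
        G (kA τ π) (π.take (kA τ π)) (pre π (kB τ π + 1)) (π.drop (kB τ π + 1)) y z := by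
    rw [sum_eq_single_of_mem (kB τ π + 1) (by rw [mem_Icc]; omega)]
    · rw [sum_eq_single_of_mem (kA τ π) (by rw [mem_range]; omega)]
      intro i hi hne
      exact sum_eq_zero fun K _ => sum_eq_zero fun y hy => sum_eq_zero fun z hz =>
        key _ hi _ (by rw [mem_Icc]; omega) y hy z hz (fun h => hne h.1)
    · intro j hj hne
      exact sum_eq_zero fun i hi => sum_eq_zero fun K _ => sum_eq_zero fun y hy =>
        sum_eq_zero fun z hz => key _ hi j hj y hy z hz (fun h => hne h.2)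
  rw [s5, sum_const, Nat.card_Ioc, nsmul_eq_mul]
  have e1 : ((kB τ π + 1 - 1 - kA τ π : ℕ) : ℝ) = (kB τ π : ℝ) - kA τ π := by
    rw [Nat.cast_sub (by omega)]
    simp
  rw [e1]
  have h3 : (0 : ℝ) ≤ (kB τ π : ℝ) - kA τ π := by
    have : (kA τ π : ℝ) ≤ kB τ π := by exact_mod_cast h1
    linarith
  refine mul_le_mul_of_nonneg_left ?_ h3
  unfold q2
  simp only [Nat.add_sub_cancel]
  refine sum_le_sum fun y _ => sum_le_sum fun z _ => ?_
  rw [hG]
  show (if _ then _ else _ : ℝ) ≤ _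
  split_ifs with h4 h5
  · exact le_rfl
  · exfalso
    exact h5 ⟨h4.2.2.1, h4.2.2.2.1, h4.2.2.2.2.2⟩
  · norm_num
  · exact le_rfl

/-! ### the two kinds exclude each other, and the surplus -/

/-- `h = l - K - |A_k - V_K|` -/
noncomputable def hh (τ : Finset α → Lab) (A : Finset α → Finset α) (D : Finset α)
    (π : List α) : ℝ :=
  (D.card : ℝ) - kB τ π - (((D \ pre π (kB τ π)) ∩ A (pre π (kA τ π))).card : ℝ)

/-- `h* = k + 1 - |Z_(K+1) ∩ V_(k+1)|` -/
noncomputable def hs (τ : Finset α → Lab) (Z : Finset α → Finset α) (π : List α) : ℝ :=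
  (kA τ π : ℝ) + 1 - ((pre π (kA τ π + 1) ∩ Z (pre π (kB τ π + 1))).card : ℝ)

theorem nx_single {D : Finset α} {π : List α} (hπ : π ∈ seqs D.card D) {i : ℕ}
    (hi : i < D.card) : ∃ x, nx π i = {x} := card_eq_one.1 (card_nx hπ hi)

theorem mem_nx {π : List α} {i : ℕ} {x : α} : x ∈ nx π i ↔ x ∈ pre π (i + 1) ∧ x ∉ pre π i := by
  unfold nx
  exact mem_sdiff

/-- **surplus**: `q1 + q2 ≤ h + h*` on every chain -/
theorem q_le {τ : Finset α → Lab} {D : Finset α} (h0 : τ ∅ = Lab.A) (hB : τ D = Lab.B)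
    (A Z : Finset α → Finset α) (hA : ∀ X, ∀ x ∈ A X, τ (insert x X) = Lab.B)
    (hZ : ∀ V, ∀ x ∈ Z V, τ (V.erase x) = Lab.A) {π : List α} (hπ : π ∈ seqs D.card D) :
    q1 τ A π + q2 τ Z π ≤ hh τ A D π + hs τ Z π ∧ 0 ≤ hh τ A D π ∧ 0 ≤ hs τ Z π := by
  have hpos : 0 < D.card := by
    rcases Nat.eq_zero_or_pos D.card with h | h
    · rw [card_eq_zero] at h
      rw [h, h0] at hB
      exact absurd hB (by decide)
    · exact h
  have hl := length_of_mem hπ
  have hBπ : τ π.toFinset = Lab.B := by rw [(mem_seqs_card.1 hπ).2]; exact hB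
  have h1 := kA_le_kB hBπ h0
  have h2 := kB_lt hBπ (by omega)
  obtain ⟨y, hy⟩ := nx_single hπ (i := kB τ π) (by omega)
  obtain ⟨z, hz⟩ := nx_single hπ (i := kA τ π) (by omega)
  have hy' := mem_nx.1 (hy ▸ mem_singleton_self y : y ∈ nx π (kB τ π))
  have hz' := mem_nx.1 (hz ▸ mem_singleton_self z : z ∈ nx π (kA τ π))
  -- bounds for the counts
  have c1 : ((D \ pre π (kB τ π)) ∩ A (pre π (kA τ π))).card ≤ D.card - kB τ π := by
    refine (card_le_card inter_subset_left).trans ?_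
    rw [card_sdiff_of_subset (pre_subset_of_mem hπ _), card_pre_of_mem hπ (by omega)]
  have c2 : (pre π (kA τ π + 1) ∩ Z (pre π (kB τ π + 1))).card ≤ kA τ π + 1 := by
    refine (card_le_card inter_subset_left).trans ?_
    rw [card_pre_of_mem hπ (by omega)]
  have n1 : 0 ≤ hh τ A D π := by
    unfold hh
    have : (((D \ pre π (kB τ π)) ∩ A (pre π (kA τ π))).card : ℝ) ≤ (D.card : ℝ) - kB τ π := by
      rw [← Nat.cast_sub (by omega)]
      exact_mod_cast c1
    linarith
  have n2 : 0 ≤ hs τ Z π := by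
    unfold hs
    have : ((pre π (kA τ π + 1) ∩ Z (pre π (kB τ π + 1))).card : ℝ) ≤ (kA τ π : ℝ) + 1 := by
      exact_mod_cast c2
    linarith
  refine ⟨?_, n1, n2⟩
  have e1 : q1 τ A π = if y ∈ A (pre π (kA τ π)) ∧ z ∈ A (pre π (kA τ π)) ∧
      τ ((pre π (kB τ π + 1)).erase z) = Lab.B then 1 else 0 := by
    unfold q1
    rw [hy, hz, sum_singleton, sum_singleton]
  have e2 : q2 τ Z π = if z ∈ Z (pre π (kB τ π + 1)) ∧ y ∈ Z (pre π (kB τ π + 1)) ∧
      τ (insert y (pre π (kA τ π))) = Lab.A then 1 else 0 := by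
    unfold q2
    rw [hy, hz, sum_singleton, sum_singleton]
  rw [e1, e2]
  by_cases p1 : y ∈ A (pre π (kA τ π)) ∧ z ∈ A (pre π (kA τ π)) ∧
      τ ((pre π (kB τ π + 1)).erase z) = Lab.B
  · have p2 : ¬ (z ∈ Z (pre π (kB τ π + 1)) ∧ y ∈ Z (pre π (kB τ π + 1)) ∧
      τ (insert y (pre π (kA τ π))) = Lab.A) := by
      rintro ⟨h3, -, -⟩
      have := hZ _ z h3
      rw [p1.2.2] at this
      exact absurd this (by decide)
    rw [if_pos p1, if_neg p2]
    have c3 : (pre π (kA τ π + 1) ∩ Z (pre π (kB τ π + 1))).card ≤ kA τ π := by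
      have hsub : pre π (kA τ π + 1) ∩ Z (pre π (kB τ π + 1)) ⊆ (pre π (kA τ π + 1)).erase z := by
        intro x hx
        rw [mem_inter] at hx
        refine mem_erase.2 ⟨?_, hx.1⟩
        rintro rfl
        have := hZ _ x hx.2
        rw [p1.2.2] at this
        exact absurd this (by decide)
      refine (card_le_card hsub).trans ?_
      rw [card_erase_of_mem hz'.1, card_pre_of_mem hπ (by omega)]
      omega
    have : (1 : ℝ) ≤ hs τ Z π := by
      unfold hs
      have : ((pre π (kA τ π + 1) ∩ Z (pre π (kB τ π + 1))).card : ℝ) ≤ (kA τ π : ℝ) := by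
        exact_mod_cast c3
      linarith
    linarith
  · rw [if_neg p1]
    by_cases p2 : z ∈ Z (pre π (kB τ π + 1)) ∧ y ∈ Z (pre π (kB τ π + 1)) ∧
      τ (insert y (pre π (kA τ π))) = Lab.A
    · rw [if_pos p2]
      have c3 : ((D \ pre π (kB τ π)) ∩ A (pre π (kA τ π))).card + 1 ≤ D.card - kB τ π := by
        have hyD : y ∈ D \ pre π (kB τ π) := mem_sdiff.2 ⟨pre_subset_of_mem hπ _ hy'.1, hy'.2⟩
        have hsub : (D \ pre π (kB τ π)) ∩ A (pre π (kA τ π)) ⊆ (D \ pre π (kB τ π)).erase y := by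
          intro x hx
          rw [mem_inter] at hx
          refine mem_erase.2 ⟨?_, hx.1⟩
          rintro rfl
          have := hA _ x hx.2
          rw [p2.2.2] at this
          exact absurd this (by decide)
        have h3 := card_le_card hsub
        rw [card_erase_of_mem hyD, card_sdiff_of_subset (pre_subset_of_mem hπ _),
          card_pre_of_mem hπ (by omega)] at h3
        omega
      have : (1 : ℝ) ≤ hh τ A D π := by
        unfold hh
        have h4 : ((((D \ pre π (kB τ π)) ∩ A (pre π (kA τ π))).card + 1 : ℕ) : ℝ) ≤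
            (D.card : ℝ) - kB τ π := by
          rw [← Nat.cast_sub (by omega)]
          exact_mod_cast c3
        push_cast at h4
        linarith
      linarith
    · rw [if_neg p2]
      linarith

/-- **THE TWO-SIDED PATH INEQUALITY** in the form `unpaid pairs ≤ E[(K - k)(h + h*)]` -/
theorem two_sided {τ : Finset α → Lab} {D : Finset α} (h0 : τ ∅ = Lab.A) (hB : τ D = Lab.B)
    (A Z : Finset α → Finset α) (hA : ∀ X, ∀ x ∈ A X, τ (insert x X) = Lab.B)
    (hZ : ∀ V, ∀ x ∈ Z V, τ (V.erase x) = Lab.A) :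
    Av D (fun π => un1 τ A D.card π + un2 τ Z D.card π) ≤
      Av D (fun π => ((kB τ π : ℝ) - kA τ π) * (hh τ A D π + hs τ Z π)) := by
  rw [Av_add]
  have h1 := inj1 h0 hB A hA
  have h2 := inj2 h0 hB Z hZ
  have h3 : Av D (fun π => ((kB τ π : ℝ) - kA τ π) * q1 τ A π) +
      Av D (fun π => ((kB τ π : ℝ) - kA τ π) * q2 τ Z π) ≤
      Av D (fun π => ((kB τ π : ℝ) - kA τ π) * (hh τ A D π + hs τ Z π)) := by
    rw [← Av_add]
    refine Av_mono fun π hπ => ?_
    have hBπ : τ π.toFinset = Lab.B := by rw [(mem_seqs_card.1 hπ).2]; exact hB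
    have h4 := kA_le_kB hBπ h0
    have h5 : (0 : ℝ) ≤ (kB τ π : ℝ) - kA τ π := by
      have : (kA τ π : ℝ) ≤ kB τ π := by exact_mod_cast h4
      linarith
    rw [← mul_add]
    exact mul_le_mul_of_nonneg_left (q_le h0 hB A Z hA hZ hπ).1 h5
  have e1 : Av D (fun π => un1 τ A D.card π) = Av D (un1 τ A D.card) := rfl
  have e2 : Av D (fun π => un2 τ Z D.card π) = Av D (un2 τ Z D.card) := rfl
  rw [e1, e2]
  linarith

end Blk

end R5
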