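import Pool.Agent.Work.MP_8b6acb_ti_helper76.Level

/-!
# The linearised level lemma (helper76)

Note 1480 (1) of the R5 room (helper52).
-/

namespace R5

namespace Lev

open Finset

/-- `log ((x + h) / x) ≥ h * log (l / (l - 1))` for `x + h ≤ l`. -/
theorem log_step {l x h : ℕ} (hx : 1 ≤ x) (hl : x + h ≤ l) :
    (h : ℝ) * Real.log ((l : ℝ) / ((l : ℝ) - 1)) ≤ Real.log (((x : ℝ) + h) / x) := by
  have hx' : (1 : ℝ) ≤ x := by exact_mod_cast hx
  induction h with
  | zero => simp [div_self (by linarith : (x : ℝ) ≠ 0)]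
  | succ h ih =>
    have h1 := ih (by omega)
    have h2 : (x : ℝ) + h + 1 ≤ l := by exact_mod_cast hl
    have h0 : (0 : ℝ) ≤ h := Nat.cast_nonneg h
    push_cast
    have e1 : ((x : ℝ) + (h + 1)) / x = (((x : ℝ) + h) / x) * (((x : ℝ) + h + 1) / ((x : ℝ) + h)) := by
      field_simp
      ring
    rw [e1, Real.log_mul (by positivity) (by positivity)]
    have h3 : Real.log ((l : ℝ) / ((l : ℝ) - 1)) ≤
        Real.log (((x : ℝ) + h + 1) / ((x : ℝ) + h)) := by
      apply Real.log_le_log (div_pos (by linarith) (by linarith))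
      rw [div_le_div_iff₀ (by linarith) (by linarith)]
      nlinarith
    linarith

/-- surplus of the re-entry sum -/
theorem rs_ge_lin {l K o p h : ℕ} (hh : K + o + h = l) (hp : p ≤ K) :
    (p : ℝ) * h * Real.log ((l : ℝ) / ((l : ℝ) - 1)) +
      ∑ j ∈ range p, Real.log ((l : ℝ) / ((l : ℝ) - o - j)) ≤ rs l K p := by
  have key : ∀ j ∈ range p, (h : ℝ) * Real.log ((l : ℝ) / ((l : ℝ) - 1)) +
      Real.log ((l : ℝ) / ((l : ℝ) - o - j)) ≤ Real.log ((l : ℝ) / ((K : ℝ) - j)) := by
    intro j hj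
    have hj' : j < p := mem_range.1 hj
    have hjK : j + 1 ≤ K := by omega
    have h1 := log_step (l := l) (x := K - j) (h := h) (by omega) (by omega)
    have h3 : (j : ℝ) + 1 ≤ K := by exact_mod_cast hjK
    have h4 : (K : ℝ) + o + h = l := by exact_mod_cast hh
    have h0 : (0 : ℝ) ≤ j := Nat.cast_nonneg j
    have h5 : (0 : ℝ) ≤ o := Nat.cast_nonneg o
    have h6 : (0 : ℝ) ≤ h := Nat.cast_nonneg h
    have e0 : ((K - j : ℕ) : ℝ) = (K : ℝ) - j := by
      rw [Nat.cast_sub (by omega)]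
    rw [e0] at h1
    have e1 : (l : ℝ) / ((K : ℝ) - j) =
        (((K : ℝ) - j + h) / ((K : ℝ) - j)) * ((l : ℝ) / ((l : ℝ) - o - j)) := by
      have e2 : (l : ℝ) - o - j = (K : ℝ) - j + h := by linarith
      rw [e2]
      have : (K : ℝ) - j + h ≠ 0 := by
        have : (0 : ℝ) < (K : ℝ) - j + h := by linarith
        exact this.ne'
      have : (K : ℝ) - j ≠ 0 := by
        have : (0 : ℝ) < (K : ℝ) - j := by linarith
        exact this.ne'
      field_simp
    rw [e1, Real.log_mul]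
    · linarith
    · exact (div_pos (by linarith) (by linarith)).ne'
    · exact (div_pos (by linarith) (by linarith)).ne'
  have h7 := sum_le_sum key
  rw [sum_add_distrib, sum_const, card_range, nsmul_eq_mul] at h7
  unfold rs
  calc _ = (p : ℝ) * ((h : ℝ) * Real.log ((l : ℝ) / ((l : ℝ) - 1))) +
        ∑ j ∈ range p, Real.log ((l : ℝ) / ((l : ℝ) - o - j)) := by ring
    _ ≤ _ := h7

/-- LINEARISED LEVEL LEMMA, `e_N` not a live light; `h = l - K - o`. -/
theorem level_dead_lin {l K o p b J pN h : ℕ} (hh : K + o + h = l) (hp : p ≤ K)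
    (hpN : p ≤ pN) (hJ : o + pN ≤ J) (hb : J ≤ b) (hbl : b ≤ l) :
    (p : ℝ) * h * Real.log ((l : ℝ) / ((l : ℝ) - 1)) ≤
      rs l K p - gg l (o + p) + gg (b - pN) (J - pN) := by
  have h1 := gain_ge (c := l - p) hJ hb (by omega)
  have h2 := gg_add l o p
  have h3 := rs_ge_lin hh hp
  have h4 : gg l o ≤ gg (l - p) o := gg_anti_left (by omega) (by omega)
  linarith

/-- LINEARISED LEVEL LEMMA, `e_N` a live light, `o` = number of the other outer live lights;
`h = l - K - (o + 1)`. -/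
theorem level_live_lin {l K o p b J pN h : ℕ} (hh : K + (o + 1) + h = l) (hp : p ≤ K)
    (hpN : p + 1 ≤ pN) (hJ : o + pN ≤ J) (hb : J ≤ b) (hbl : b ≤ l) :
    ((p : ℝ) * h - o) * Real.log ((l : ℝ) / ((l : ℝ) - 1)) ≤
      rs l K p - gg l (o + 1 + p) + gg (b - pN) (J - pN) := by
  have h1 := gain_ge (c := l - 1) hJ hb (by omega)
  have h2 := gg_add l (o + 1) p
  have h3 := rs_ge_lin hh hp
  have h5 := del_live (m := l) (a := o) (by omega)
  linarith

end Lev

end R5
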