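import Pool.Agent.Work.MP_8b6acb_ti.Side
import Pool.Agent.Work.MP_8b6acb_ti_helper76.Inj
import Pool.Agent.Work.MP_8b6acb_ti_helper76.LevelLin

/-!
# One side: compensators applied to the path functional (helper76)

Note 1523 (1) of the R5 room (helper25).
-/

namespace R5

namespace Two

open Finset T7

variable {α : Type} [DecidableEq α]

section path

variable {τ : Finset α → Lab} {D : Finset α} {π : List α}

theorem kA_eq (h0 : τ ∅ = Lab.A) (hD : τ D = Lab.B) (hπ : π ∈ seqs D.card D) :
    Blk.kA τ π = kA τ π := by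
  have hl := length_of_mem hπ
  have hD' : τ D ≠ Lab.A := by rw [hD]; decide
  have h1 := Blk.kA_le τ π
  have h2 := (kA_lt h0 hD' hπ).le
  apply le_antisymm
  · rw [← allA_iff h0 hD' hπ, Blk.allA_iff h0 h1]
  · rw [← Blk.allA_iff h0 (by omega), allA_iff h0 hD' hπ]

theorem kB_eq (h0 : τ ∅ = Lab.A) (hD : τ D = Lab.B) (hπ : π ∈ seqs D.card D) :
    Blk.kB τ π = kN τ π := by
  have hl := length_of_mem hπ
  have h0' : τ ∅ ≠ Lab.B := by rw [h0]; decide
  have hB : τ π.toFinset = Lab.B := by rw [(mem_seqs_card.1 hπ).2]; exact hD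
  have h2 := kN_lt h0' hD hπ
  have h1 := Blk.kB_lt (τ := τ) hB (by omega)
  apply le_antisymm
  · by_contra hc
    have h3 := (Blk.allB_iff (τ := τ) (π := π) (j := Blk.kB τ π) (by omega) h1.le).1
      ((allB_iff h0' hD hπ _).2 (not_le.1 hc))
    omega
  · by_contra hc
    have h3 := (allB_iff h0' hD hπ (kN τ π)).1
      ((Blk.allB_iff (τ := τ) (π := π) (by omega) (by omega)).2 (not_le.1 hc))
    omega

/-- only the first exit level has an exit as next element -/
theorem sum_nx (h0 : τ ∅ = Lab.A) (hD : τ D = Lab.B) (hπ : π ∈ seqs D.card D)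
    (S : Finset α → Finset α) (hS : ∀ U, ∀ x ∈ S U, τ (insert x U) = Lab.B) (F : ℕ → ℝ) :
    ∑ i ∈ range D.card, (if allA τ π i then F i * ((nx π i ∩ S (pre π i)).card : ℝ) else 0) =
      F (kA τ π) * ((nx π (kA τ π) ∩ S (pre π (kA τ π))).card : ℝ) := by
  have hD' : τ D ≠ Lab.A := by rw [hD]; decide
  have hk := kA_lt h0 hD' hπ
  rw [sum_eq_single (kA τ π)]
  · rw [if_pos ((allA_iff h0 hD' hπ _).2 le_rfl)]
  · intro i hi hne
    rw [mem_range] at hi
    by_cases hA : allA τ π i
    · rw [if_pos hA]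
      have h1 := (allA_iff h0 hD' hπ i).1 hA
      have h2 : τ (pre π (i + 1)) = Lab.A := by
        have h3 := (allA_iff h0 hD' hπ (i + 1)).2 (by omega)
        exact h3 (i + 1) (by simp)
      have h4 : nx π i ∩ S (pre π i) = ∅ := by
        rw [eq_empty_iff_forall_notMem]
        intro x hx
        rw [mem_inter] at hx
        have h5 := hS _ x hx.2
        obtain ⟨y, hy⟩ := Blk.nx_single hπ hi
        have h6 : x = y := by
          have := hx.1
          rw [hy, mem_singleton] at this
          exact this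
        have h7 := Blk.insert_nx hπ hi hx.1
        rw [h7] at h5
        rw [h2] at h5
        exact absurd h5 (by decide)
      rw [h4]
      simp
    · rw [if_neg hA]
  · intro h
    exact absurd (mem_range.2 hk) h

theorem sum_allA (h0 : τ ∅ = Lab.A) (hD : τ D = Lab.B) (hπ : π ∈ seqs D.card D) (F : ℕ → ℝ) :
    ∑ i ∈ range D.card, (if allA τ π i then F i else 0) = ∑ i ∈ range (kA τ π + 1), F i := by
  have hD' : τ D ≠ Lab.A := by rw [hD]; decide
  have hk := kA_lt h0 hD' hπ
  rw [← sum_iA h0 hD' hπ hk F]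
  refine sum_congr rfl fun i _ => ?_
  unfold iA
  split_ifs <;> simp

end path

/-- first compensator, summed over the levels -/
theorem compA {τ : Finset α → Lab} {D : Finset α} (h0 : τ ∅ = Lab.A) (hD : τ D = Lab.B)
    (S : Finset α → Finset α) (hS : ∀ U, ∀ x ∈ S U, τ (insert x U) = Lab.B) (f : ℕ → ℝ) :
    Av D (fun π => ∑ i ∈ range (kA τ π + 1),
      (((pre π (kN τ π) \ pre π i) ∩ S (pre π i)).card : ℝ) * f (kN τ π)) =
    Av D (fun π => ((kN τ π : ℝ) - kA τ π) *
      ((nx π (kA τ π) ∩ S (pre π (kA τ π))).card : ℝ) * f (kN τ π)) := by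
  have e1 : Av D (fun π => ∑ i ∈ range (kA τ π + 1),
      (((pre π (kN τ π) \ pre π i) ∩ S (pre π i)).card : ℝ) * f (kN τ π)) =
      Av D (fun π => ∑ i ∈ range D.card, (if allA τ π i then
        (((pre π (Blk.kB τ π) \ pre π i) ∩ S (pre π i)).card : ℝ) *
          (fun (_ : List α) (U : Finset α) (_ : List α) => f U.card) (π.take i)
            (pre π (Blk.kB τ π)) (π.drop (Blk.kB τ π)) else 0)) := by
    refine Av_congr fun π hπ => ?_
    have hN := kN_lt (τ := τ) (by rw [h0]; decide) hD hπ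
    rw [sum_allA h0 hD hπ, kB_eq h0 hD hπ]
    refine sum_congr rfl fun i _ => ?_
    simp only []
    rw [card_pre_of_mem hπ hN.le]
  have e2 : Av D (fun π => ((kN τ π : ℝ) - kA τ π) *
      ((nx π (kA τ π) ∩ S (pre π (kA τ π))).card : ℝ) * f (kN τ π)) =
      Av D (fun π => ∑ i ∈ range D.card, (if allA τ π i then
        ((Blk.kB τ π : ℝ) - i) * (((nx π i) ∩ S (pre π i)).card : ℝ) *
          (fun (_ : List α) (U : Finset α) (_ : List α) => f U.card) (π.take i)
            (pre π (Blk.kB τ π)) (π.drop (Blk.kB τ π)) else 0)) := by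
    refine Av_congr fun π hπ => ?_
    have hN := kN_lt (τ := τ) (by rw [h0]; decide) hD hπ
    have h1 := sum_nx h0 hD hπ S hS (fun i => ((kN τ π : ℝ) - i) * f (kN τ π))
    rw [show ((kN τ π : ℝ) - kA τ π) * ((nx π (kA τ π) ∩ S (pre π (kA τ π))).card : ℝ) *
      f (kN τ π) = ((kN τ π : ℝ) - kA τ π) * f (kN τ π) *
        ((nx π (kA τ π) ∩ S (pre π (kA τ π))).card : ℝ) by ring, ← h1, kB_eq h0 hD hπ]
    refine sum_congr rfl fun i _ => ?_
    simp only []
    rw [card_pre_of_mem hπ hN.le]
    split_ifs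
    · ring
    · rfl
  rw [e1, e2, Av_sum, Av_sum]
  refine sum_congr rfl fun i hi => ?_
  exact Blk.comp1 h0 hD S (fun (_ : List α) (U : Finset α) (_ : List α) => f U.card)
    (mem_range.1 hi)

/-- second compensator, summed over the levels -/
theorem compB {τ : Finset α → Lab} {D : Finset α} (h0 : τ ∅ = Lab.A) (hD : τ D = Lab.B)
    (S : Finset α → Finset α) (hS : ∀ U, ∀ x ∈ S U, τ (insert x U) = Lab.B) :
    Av D (fun π => ∑ i ∈ range (kA τ π + 1),
      (((D \ pre π (kN τ π)) ∩ S (pre π i)).card : ℝ)) =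
    Av D (fun π => ((D.card : ℝ) - kN τ π) *
      ((nx π (kA τ π) ∩ S (pre π (kA τ π))).card : ℝ)) := by
  have e1 : Av D (fun π => ∑ i ∈ range (kA τ π + 1),
      (((D \ pre π (kN τ π)) ∩ S (pre π i)).card : ℝ)) =
      Av D (fun π => ∑ i ∈ range D.card, (if allA τ π i then
        (((D \ pre π (Blk.kB τ π)) ∩ S (pre π i)).card : ℝ) *
          (fun (_ : List α) => (1 : ℝ)) (π.take i) else 0)) := by
    refine Av_congr fun π hπ => ?_
    rw [sum_allA h0 hD hπ, kB_eq h0 hD hπ]
    refine sum_congr rfl fun i _ => ?_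
    simp only [mul_one]
  have e2 : Av D (fun π => ((D.card : ℝ) - kN τ π) *
      ((nx π (kA τ π) ∩ S (pre π (kA τ π))).card : ℝ)) =
      Av D (fun π => ∑ i ∈ range D.card, (if allA τ π i then
        ((D.card : ℝ) - Blk.kB τ π) * (((nx π i) ∩ S (pre π i)).card : ℝ) *
          (fun (_ : List α) => (1 : ℝ)) (π.take i) else 0)) := by
    refine Av_congr fun π hπ => ?_
    have h1 := sum_nx h0 hD hπ S hS (fun _ => (D.card : ℝ) - kN τ π)
    rw [← h1, kB_eq h0 hD hπ]
    refine sum_congr rfl fun i _ => ?_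
    simp only [mul_one]
  rw [e1, e2, Av_sum, Av_sum]
  refine sum_congr rfl fun i hi => ?_
  exact Blk.comp2 h0 hD S (fun (_ : List α) => (1 : ℝ)) (mem_range.1 hi)

/-! ### the path functional -/

/-- levels `1 ≤ i ≤ k` without edge exit -/
def n00 (τ : Finset α → Lab) (D : Finset α) (π : List α) : ℕ :=
  ((Icc 1 (kA τ π)).filter
    (fun i => ∀ x ∈ D \ pre π i, τ (insert x (pre π i)) ≠ Lab.B)).card

/-- edge exits that are not live lights -/
def HL (τ : Finset α → Lab) (D U : Finset α) : Finset α :=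
  (D \ U).filter (fun x => τ {x} ≠ Lab.B ∧ τ (insert x U) = Lab.B)

/-- the first exit is a live light -/
noncomputable def lv (τ : Finset α → Lab) (D : Finset α) (π : List α) : ℝ :=
  ((nx π (kA τ π) ∩ AL τ D (pre π (kA τ π))).card : ℝ)

/-- the first exit is an edge, but no live light -/
noncomputable def nl (τ : Finset α → Lab) (D : Finset α) (π : List α) : ℝ :=
  ((nx π (kA τ π) ∩ HL τ D (pre π (kA τ π))).card : ℝ)

/-- the number of live lights of level `i` inside `V_K` -/
def pn (τ : Finset α → Lab) (π : List α) (i : ℕ) : ℕ :=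
  (AL τ (pre π (kN τ π)) (pre π i)).card

/-- the number of live lights of level `i` -/
def an (τ : Finset α → Lab) (D : Finset α) (π : List α) (i : ℕ) : ℕ :=
  (AL τ D (pre π i)).card

/-- the path functional of one side, with the gain `g` on every state of the other side -/
noncomputable def TP (τ : Finset α → Lab) (D : Finset α) (g : List α → ℝ) (π : List α) : ℝ :=
  iE τ π (kA τ π) * (((kN τ π : ℝ) - kA τ π + n00 τ D π) * Lam (kN τ π) D.card) -
    ∑ i ∈ range (kA τ π + 1), (gg D.card (an τ D π i) - gg (kN τ π) (pn τ π i)) +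
    ((kA τ π : ℝ) + 1) * g π

theorem AL_exit (τ : Finset α → Lab) (D : Finset α) :
    ∀ U, ∀ x ∈ AL τ D U, τ (insert x U) = Lab.B := by
  intro U x hx
  unfold AL at hx
  exact (mem_filter.1 hx).2.2

theorem HL_exit (τ : Finset α → Lab) (D : Finset α) :
    ∀ U, ∀ x ∈ HL τ D U, τ (insert x U) = Lab.B := by
  intro U x hx
  unfold HL at hx
  exact (mem_filter.1 hx).2.2

theorem lv_nonneg (τ : Finset α → Lab) (D : Finset α) (π : List α) : 0 ≤ lv τ D π :=
  Nat.cast_nonneg _

theorem nl_nonneg (τ : Finset α → Lab) (D : Finset α) (π : List α) : 0 ≤ nl τ D π :=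
  Nat.cast_nonneg _

section path

variable {τ : Finset α → Lab} {D : Finset α} {π : List α}

/-- an edge exit is a live light or not -/
theorem iE_eq (h0 : τ ∅ = Lab.A) (hD : τ D = Lab.B) (hπ : π ∈ seqs D.card D) :
    iE τ π (kA τ π) = lv τ D π + nl τ D π := by
  have hD' : τ D ≠ Lab.A := by rw [hD]; decide
  have hk := kA_lt h0 hD' hπ
  obtain ⟨x, hx⟩ := Blk.nx_single hπ hk
  have hxm : x ∈ nx π (kA τ π) := by rw [hx]; exact mem_singleton_self x
  have h1 := Blk.insert_nx hπ hk hxm
  have h2 : x ∈ D \ pre π (kA τ π) := by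
    have h3 := Blk.mem_nx.1 hxm
    exact mem_sdiff.2 ⟨pre_subset_of_mem hπ _ h3.1, h3.2⟩
  unfold lv nl iE
  rw [hx]
  by_cases hB : τ (pre π (kA τ π + 1)) = Lab.B
  · rw [if_pos (show exE τ π (kA τ π) from ⟨(allA_iff h0 hD' hπ _).2 le_rfl, hB⟩)]
    by_cases hL : τ {x} = Lab.B
    · have e1 : ({x} : Finset α) ∩ AL τ D (pre π (kA τ π)) = {x} := by
        rw [inter_eq_left, singleton_subset_iff]
        unfold AL
        rw [mem_filter]
        exact ⟨h2, hL, by rw [h1]; exact hB⟩
      have e2 : ({x} : Finset α) ∩ HL τ D (pre π (kA τ π)) = ∅ := by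
        rw [singleton_inter_of_notMem]
        intro h
        unfold HL at h
        exact (mem_filter.1 h).2.1 hL
      rw [e1, e2]
      simp
    · have e1 : ({x} : Finset α) ∩ HL τ D (pre π (kA τ π)) = {x} := by
        rw [inter_eq_left, singleton_subset_iff]
        unfold HL
        rw [mem_filter]
        exact ⟨h2, hL, by rw [h1]; exact hB⟩
      have e2 : ({x} : Finset α) ∩ AL τ D (pre π (kA τ π)) = ∅ := by
        rw [singleton_inter_of_notMem]
        intro h
        unfold AL at h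
        exact hL (mem_filter.1 h).2.1
      rw [e1, e2]
      simp
  · rw [if_neg (fun h : exE τ π (kA τ π) => hB h.2)]
    have e1 : ({x} : Finset α) ∩ HL τ D (pre π (kA τ π)) = ∅ := by
      rw [singleton_inter_of_notMem]
      intro h
      have := HL_exit τ D _ x h
      rw [h1] at this
      exact hB this
    have e2 : ({x} : Finset α) ∩ AL τ D (pre π (kA τ π)) = ∅ := by
      rw [singleton_inter_of_notMem]
      intro h
      have := AL_exit τ D _ x h
      rw [h1] at this
      exact hB this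
    rw [e1, e2]
    simp

theorem pn_eq (hπ : π ∈ seqs D.card D) (i : ℕ) :
    pn τ π i = ((pre π (kN τ π) \ pre π i) ∩ AL τ D (pre π i)).card := by
  unfold pn AL
  congr 1
  ext x
  simp only [mem_filter, mem_inter, mem_sdiff]
  constructor
  · rintro ⟨⟨h1, h2⟩, h3⟩
    exact ⟨⟨h1, h2⟩, ⟨⟨pre_subset_of_mem hπ _ h1, h2⟩, h3⟩⟩
  · rintro ⟨⟨h1, h2⟩, ⟨⟨_, _⟩, h3⟩⟩
    exact ⟨⟨h1, h2⟩, h3⟩

/-- inside and outside -/
theorem an_eq (hπ : π ∈ seqs D.card D) {i : ℕ} :
    (an τ D π i : ℝ) - pn τ π i = (((D \ pre π (kN τ π)) ∩ AL τ D (pre π i)).card : ℝ) := by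
  have h1 : an τ D π i = pn τ π i + ((D \ pre π (kN τ π)) ∩ AL τ D (pre π i)).card := by
    rw [pn_eq hπ i, ← card_union_of_disjoint]
    · unfold an
      congr 1
      ext x
      simp only [mem_union, mem_inter, mem_sdiff]
      have hsub : x ∈ AL τ D (pre π i) → x ∈ D ∧ x ∉ pre π i := by
        intro h
        unfold AL at h
        exact mem_sdiff.1 (mem_filter.1 h).1
      constructor
      · intro h
        have h2 := hsub h
        by_cases h3 : x ∈ pre π (kN τ π)
        · exact Or.inl ⟨⟨h3, h2.2⟩, h⟩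
        · exact Or.inr ⟨⟨h2.1, h3⟩, h⟩
      · rintro (h | h)
        · exact h.2
        · exact h.2
    · rw [disjoint_left]
      intro x hx hx'
      simp only [mem_inter, mem_sdiff] at hx hx'
      exact hx'.1.2 hx.1.1
  rw [h1]
  push_cast
  ring

end path

end Two

end R5
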