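import Pool.Agent.Work.MP_8b6acb_fq.Defs

/-!
# The level lemma (scalar part), helper76

Note 1442 (A) of the R5 room.  `gg b j = ∑_{i<j} log (b / (b - i))`.
-/

namespace R5

namespace Lev

open Finset

/-- the re-entry sum -/
noncomputable def rs (l K p : ℕ) : ℝ := ∑ j ∈ range p, Real.log ((l : ℝ) / ((K : ℝ) - j))

theorem gg_zero (b : ℕ) : gg b 0 = 0 := by simp [gg]

theorem gg_succ (b j : ℕ) : gg b (j + 1) = gg b j + Real.log ((b : ℝ) / ((b : ℝ) - j)) := by
  simp [gg, sum_range_succ]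

/-- one term of `gg` is nonnegative -/
theorem term_nonneg {b i : ℕ} (h : i < b) : 0 ≤ Real.log ((b : ℝ) / ((b : ℝ) - i)) := by
  have h1 : (i : ℝ) + 1 ≤ b := by exact_mod_cast h
  apply Real.log_nonneg
  rw [one_le_div (by linarith)]
  have : (0 : ℝ) ≤ i := Nat.cast_nonneg i
  linarith

theorem gg_nonneg {b j : ℕ} (h : j ≤ b) : 0 ≤ gg b j :=
  sum_nonneg fun _ hi => term_nonneg (lt_of_lt_of_le (mem_range.1 hi) h)

theorem gg_mono_right {b j j' : ℕ} (h : j ≤ j') (h' : j' ≤ b) : gg b j ≤ gg b j' := by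
  unfold gg
  apply sum_le_sum_of_subset_of_nonneg (range_subset_range.2 h)
  intro i hi _
  exact term_nonneg (lt_of_lt_of_le (mem_range.1 hi) h')

theorem gg_anti_left {b b' j : ℕ} (h : j ≤ b) (h' : b ≤ b') : gg b' j ≤ gg b j := by
  unfold gg
  apply sum_le_sum
  intro i hi
  have hi' : i < j := mem_range.1 hi
  have h1 : (i : ℝ) + 1 ≤ b := by exact_mod_cast lt_of_lt_of_le hi' h
  have h2 : (b : ℝ) ≤ b' := by exact_mod_cast h'
  have h0 : (0 : ℝ) ≤ i := Nat.cast_nonneg i
  apply Real.log_le_log (div_pos (by linarith) (by linarith))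
  rw [div_le_div_iff₀ (by linarith) (by linarith)]
  nlinarith

/-- the last terms of `gg` -/
theorem gg_add (l o p : ℕ) :
    gg l (o + p) = gg l o + ∑ j ∈ range p, Real.log ((l : ℝ) / ((l : ℝ) - o - j)) := by
  induction p with
  | zero => simp
  | succ p ih =>
    rw [← add_assoc, gg_succ, ih, sum_range_succ]
    push_cast
    rw [add_assoc]
    congr 3
    ring

/-- the increment in `m`, the last element is live -/
theorem del_live {m a : ℕ} (h : a + 1 ≤ m) :
    gg m (a + 1) - gg (m - 1) a = a * Real.log ((m : ℝ) / ((m : ℝ) - 1)) := by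
  obtain ⟨n, rfl⟩ : ∃ n, m = n + 1 := ⟨m - 1, by omega⟩
  have hn : a ≤ n := by omega
  simp only [Nat.add_sub_cancel]
  unfold gg
  rw [sum_range_succ']
  simp only [Nat.cast_zero, sub_zero]
  have h0 : Real.log (((n + 1 : ℕ) : ℝ) / ((n + 1 : ℕ) : ℝ)) = 0 := by
    rw [div_self (by positivity), Real.log_one]
  rw [h0, add_zero, ← sum_sub_distrib]
  have : ∀ i ∈ range a, Real.log (((n + 1 : ℕ) : ℝ) / (((n + 1 : ℕ) : ℝ) - ((i + 1 : ℕ) : ℝ))) -
      Real.log ((n : ℝ) / ((n : ℝ) - i)) =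
        Real.log (((n + 1 : ℕ) : ℝ) / (((n + 1 : ℕ) : ℝ) - 1)) := by
    intro i hi
    have hi' : i < a := mem_range.1 hi
    have h1 : (i : ℝ) + 1 ≤ n := by exact_mod_cast lt_of_lt_of_le hi' hn
    have h0 : (0 : ℝ) ≤ i := Nat.cast_nonneg i
    have h2 : (0 : ℝ) < n := by linarith
    have h3 : (0 : ℝ) < (n : ℝ) - i := by linarith
    push_cast
    rw [← Real.log_div (by
      apply ne_of_gt
      apply div_pos <;> linarith) (by
      apply ne_of_gt
      apply div_pos <;> linarith)]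
    congr 1
    have e1 : (n : ℝ) + 1 - (i + 1) = (n : ℝ) - i := by ring
    have e2 : (n : ℝ) + 1 - 1 = n := by ring
    rw [e1, e2]
    field_simp
  rw [sum_congr rfl this, sum_const, card_range, nsmul_eq_mul]

/-- the increment in `m`, the last element is not live -/
theorem del_dead {m a : ℕ} (h : a + 1 ≤ m) :
    gg m a - gg (m - 1) a =
      a * Real.log ((m : ℝ) / ((m : ℝ) - 1)) - Real.log ((m : ℝ) / ((m : ℝ) - a)) := by
  have h1 := del_live h
  have h2 := gg_succ m a
  linarith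

/-- comparison of the re-entry sum with the last terms of `gg` -/
theorem rs_ge {l K o p : ℕ} (h : K + o ≤ l) (hp : p ≤ K) :
    ∑ j ∈ range p, Real.log ((l : ℝ) / ((l : ℝ) - o - j)) ≤ rs l K p := by
  unfold rs
  apply sum_le_sum
  intro j hj
  have hj' : j < p := mem_range.1 hj
  have h1 : (j : ℝ) + 1 ≤ K := by exact_mod_cast lt_of_lt_of_le hj' hp
  have h2 : (K : ℝ) + o ≤ l := by exact_mod_cast h
  have h0 : (0 : ℝ) ≤ j := Nat.cast_nonneg j
  have h3 : (0 : ℝ) ≤ o := Nat.cast_nonneg o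
  apply Real.log_le_log (div_pos (by linarith) (by linarith))
  apply div_le_div_of_nonneg_left (by linarith) (by linarith) (by linarith)

/-- the gain against `gg` of fewer marks -/
theorem gain_ge {b J pN c o : ℕ} (h1 : o + pN ≤ J) (h2 : J ≤ b) (h3 : b ≤ c + pN) :
    gg c o ≤ gg (b - pN) (J - pN) := by
  refine le_trans (gg_anti_left (b := b - pN) (by omega) (by omega)) ?_
  exact gg_mono_right (by omega) (by omega)

/-- LEVEL LEMMA, `e_N` not a live light: `p` live lights in `V_K`, `o` outside `V_{K+1}`. -/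
theorem level_dead {l K o p b J pN : ℕ} (hK : K + o + 1 ≤ l) (hp : p ≤ K) (hpN : p ≤ pN)
    (hJ : o + pN ≤ J) (hb : J ≤ b) (hbl : b ≤ l) :
    0 ≤ rs l K p - gg l (o + p) + gg (b - pN) (J - pN) := by
  have h1 := gain_ge (c := l - p) hJ hb (by omega)
  have h2 := gg_add l o p
  have h3 := rs_ge (l := l) (K := K) (o := o) (p := p) (by omega) hp
  have h4 : gg l o ≤ gg (l - p) o := gg_anti_left (by omega) (by omega)
  linarith

/-- the same without outer lights: a surplus -/
theorem level_surplus {l K p b J pN : ℕ} (hK : K + 1 ≤ l) (hp : p ≤ K)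
    (hJ : pN ≤ J) (hb : J ≤ b) :
    Real.log ((l : ℝ) / ((l : ℝ) - p)) ≤ rs l K p - gg l p + gg (b - pN) (J - pN) := by
  have h1 : 0 ≤ gg (b - pN) (J - pN) := gg_nonneg (by omega)
  have h3 := rs_ge (l := l) (K := K) (o := 1) (p := p) (by omega) hp
  have h2 := gg_add l 1 p
  have h4 : gg l 1 = 0 := by
    have hl : (l : ℝ) ≠ 0 := by
      have : 0 < l := by omega
      positivity
    simp [gg, div_self hl]
  have h5 := gg_succ l p
  rw [h4, add_comm 1 p, h5] at h2
  push_cast at h2 h3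
  linarith

/-- LEVEL LEMMA, `e_N` a live light: `p` live lights in `V_K`, `e_N`, and `o` outside `V_{K+1}`. -/
theorem level_live_gen {l K o p b J pN : ℕ} (hK : K + o + 1 ≤ l) (hp : p ≤ K)
    (hpN : p + 1 ≤ pN) (hJ : o + pN ≤ J) (hb : J ≤ b) :
    gg (b - 1) o - gg l (o + 1) ≤ rs l K p - gg l (o + 1 + p) + gg (b - pN) (J - pN) := by
  have h1 := gain_ge (c := b - 1) hJ hb (by omega)
  have h2 := gg_add l (o + 1) p
  have h3 := rs_ge (l := l) (K := K) (o := o + 1) (p := p) (by omega) hp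
  linarith

theorem level_live {l K o p b J pN : ℕ} (hK : K + o + 1 ≤ l) (hp : p ≤ K)
    (hpN : p + 1 ≤ pN) (hJ : o + pN ≤ J) (hb : J ≤ b) (hbl : b ≤ l) :
    -((o : ℝ) * Real.log ((l : ℝ) / ((l : ℝ) - 1))) ≤
      rs l K p - gg l (o + 1 + p) + gg (b - pN) (J - pN) := by
  have h1 := level_live_gen hK hp hpN hJ hb
  have h2 : gg (l - 1) o ≤ gg (b - 1) o := gg_anti_left (by omega) (by omega)
  have h3 := del_live (m := l) (a := o) (by omega)
  linarith

end Lev

end R5
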