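import Pool.Agent.Work.MP_8b6acb_ti.TForm2

/-!
# Uniformity of the order inside a block (helper76)

Given the first `i` elements, the set of the first `p` elements and the elements after place `p`, the
order of the elements between is uniform.  `nx π a` is the singleton of the element with index `a`.
-/

namespace R5

namespace Blk

open Finset

variable {α : Type} [DecidableEq α]

theorem nx_cons_zero (x : α) (π : List α) : nx (x :: π) 0 = {x} := by
  unfold nx
  rw [pre_cons_succ, pre_zero, pre_zero]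
  simp

theorem nx_cons_succ {x : α} {π : List α} (h : x ∉ π) (k : ℕ) :
    nx (x :: π) (k + 1) = nx π k := by
  unfold nx
  rw [pre_cons_succ, pre_cons_succ]
  have hx : x ∉ pre π (k + 1) := fun hx => h (List.mem_toFinset.1 (pre_subset π (k + 1) hx))
  ext y
  simp only [mem_sdiff, mem_insert, not_or]
  constructor
  · rintro ⟨h1 | h1, h2, h3⟩
    · exact absurd h1 h2
    · exact ⟨h1, h3⟩
  · rintro ⟨h1, h2⟩
    exact ⟨Or.inr h1, fun h3 => hx (h3 ▸ h1), h2⟩

theorem notMem_of_erase {W : Finset α} {g : α} {π : List α}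
    (h : π ∈ seqs (W.erase g).card (W.erase g)) : g ∉ π := by
  intro hg
  have := (mem_seqs.1 h).2.2 g hg
  exact notMem_erase g W this

/-- one element -/
theorem Av_nx (a : ℕ) : ∀ {W : Finset α}, a < W.card → ∀ φ : α → ℝ,
    Av W (fun σ => ∑ x ∈ nx σ a, φ x) = (∑ x ∈ W, φ x) / (W.card : ℝ) := by
  induction a with
  | zero =>
    intro W ha φ
    rw [Av_cons (card_pos.1 ha)]
    congr 1
    refine sum_congr rfl fun g _ => ?_
    simp only [nx_cons_zero, sum_singleton]
    exact Av_const _ _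
  | succ a ih =>
    intro W ha φ
    have hW : W.Nonempty := card_pos.1 (by omega)
    rw [Av_cons hW]
    have h1 : ∀ g ∈ W, Av (W.erase g) (fun π => ∑ x ∈ nx (g :: π) (a + 1), φ x) =
        ((∑ x ∈ W, φ x) - φ g) / ((W.card : ℝ) - 1) := by
      intro g hg
      have hc : (W.erase g).card = W.card - 1 := card_erase_of_mem hg
      have e1 : Av (W.erase g) (fun π => ∑ x ∈ nx (g :: π) (a + 1), φ x) =
          Av (W.erase g) (fun π => ∑ x ∈ nx π a, φ x) := by
        refine Av_congr fun π hπ => ?_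
        rw [nx_cons_succ (notMem_of_erase hπ)]
      rw [e1, ih (by rw [hc]; omega), hc, Nat.cast_sub (card_pos.2 hW)]
      have e2 := add_sum_erase W φ hg
      simp only [Nat.cast_one]
      congr 1
      linarith
    rw [sum_congr rfl h1, ← sum_div, sum_sub_distrib, sum_const, nsmul_eq_mul]
    have h2 : (1 : ℝ) < (W.card : ℝ) := by exact_mod_cast (by omega : 1 < W.card)
    have h3 : ((W.card : ℝ) - 1) ≠ 0 := by linarith
    have h4 : (W.card : ℝ) ≠ 0 := by linarith
    field_simp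

/-- two elements, first the one with the smaller index -/
theorem Av_nx2_lt (a : ℕ) : ∀ {W : Finset α} {b : ℕ}, a < b → b < W.card → ∀ φ : α → α → ℝ,
    Av W (fun σ => ∑ x ∈ nx σ a, ∑ y ∈ nx σ b, φ x y) =
      (∑ x ∈ W, ∑ y ∈ W.erase x, φ x y) / ((W.card : ℝ) * ((W.card : ℝ) - 1)) := by
  induction a with
  | zero =>
    intro W b hab hb φ
    obtain ⟨b', rfl⟩ : ∃ b', b = b' + 1 := ⟨b - 1, by omega⟩
    have hW : W.Nonempty := card_pos.1 (by omega)
    have h2 : (1 : ℝ) < (W.card : ℝ) := by exact_mod_cast (by omega : 1 < W.card)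
    rw [Av_cons hW]
    have h1 : ∀ g ∈ W, Av (W.erase g) (fun π => ∑ x ∈ nx (g :: π) 0, ∑ y ∈ nx (g :: π) (b' + 1),
        φ x y) = (∑ y ∈ W.erase g, φ g y) / ((W.card : ℝ) - 1) := by
      intro g hg
      have hc : (W.erase g).card = W.card - 1 := card_erase_of_mem hg
      have e1 : Av (W.erase g) (fun π => ∑ x ∈ nx (g :: π) 0, ∑ y ∈ nx (g :: π) (b' + 1),
          φ x y) = Av (W.erase g) (fun π => ∑ y ∈ nx π b', φ g y) := by
        refine Av_congr fun π hπ => ?_
        rw [nx_cons_succ (notMem_of_erase hπ), nx_cons_zero, sum_singleton]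
      rw [e1, Av_nx b' (by rw [hc]; omega), hc, Nat.cast_sub (card_pos.2 hW)]
      simp only [Nat.cast_one]
    rw [sum_congr rfl h1, ← sum_div, div_div]
    congr 1
    ring
  | succ a ih =>
    intro W b hab hb φ
    obtain ⟨b', rfl⟩ : ∃ b', b = b' + 1 := ⟨b - 1, by omega⟩
    have hW : W.Nonempty := card_pos.1 (by omega)
    have h2 : (2 : ℝ) < (W.card : ℝ) := by exact_mod_cast (by omega : 2 < W.card)
    rw [Av_cons hW]
    obtain ⟨S, hS⟩ : ∃ S, S = ∑ x ∈ W, ∑ y ∈ W.erase x, φ x y := ⟨_, rfl⟩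
    have h1 : ∀ g ∈ W, Av (W.erase g) (fun π => ∑ x ∈ nx (g :: π) (a + 1),
        ∑ y ∈ nx (g :: π) (b' + 1), φ x y) =
        (S - (∑ y ∈ W.erase g, φ g y) - ∑ x ∈ W.erase g, φ x g) /
          (((W.card : ℝ) - 1) * ((W.card : ℝ) - 2)) := by
      intro g hg
      have hc : (W.erase g).card = W.card - 1 := card_erase_of_mem hg
      have e1 : Av (W.erase g) (fun π => ∑ x ∈ nx (g :: π) (a + 1),
          ∑ y ∈ nx (g :: π) (b' + 1), φ x y) =
          Av (W.erase g) (fun π => ∑ x ∈ nx π a, ∑ y ∈ nx π b', φ x y) := by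
        refine Av_congr fun π hπ => ?_
        rw [nx_cons_succ (notMem_of_erase hπ), nx_cons_succ (notMem_of_erase hπ)]
      rw [e1, ih (by omega) (by rw [hc]; omega), hc, Nat.cast_sub (card_pos.2 hW)]
      simp only [Nat.cast_one]
      have e2 : ∑ x ∈ W.erase g, ∑ y ∈ (W.erase g).erase x, φ x y =
          S - (∑ y ∈ W.erase g, φ g y) - ∑ x ∈ W.erase g, φ x g := by
        have e3 := add_sum_erase W (fun x => ∑ y ∈ W.erase x, φ x y) hg
        have e4 : ∀ x ∈ W.erase g, ∑ y ∈ W.erase x, φ x y =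
            φ x g + ∑ y ∈ (W.erase g).erase x, φ x y := by
          intro x hx
          have hgx : g ∈ W.erase x := mem_erase.2 ⟨(ne_of_mem_erase hx).symm, hg⟩
          rw [← add_sum_erase (W.erase x) (φ x) hgx, erase_right_comm]
        rw [sum_congr rfl e4, sum_add_distrib] at e3
        rw [hS]
        linarith
      rw [e2]
      congr 1
      ring
    rw [sum_congr rfl h1, ← sum_div, sum_sub_distrib, sum_sub_distrib, sum_const, nsmul_eq_mul,
      ← hS]
    have e5 : ∑ g ∈ W, ∑ x ∈ W.erase g, φ x g = S := by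
      rw [hS]
      exact sum_comm' (fun x y => by
        simp only [mem_erase]
        constructor
        · rintro ⟨h3, h4, h5⟩; exact ⟨⟨h4.symm, h3⟩, h5⟩
        · rintro ⟨⟨h3, h4⟩, h5⟩; exact ⟨h4, h3.symm, h5⟩)
    rw [e5]
    have h3 : ((W.card : ℝ) - 1) ≠ 0 := by linarith
    have h4 : (W.card : ℝ) ≠ 0 := by linarith
    have h5 : ((W.card : ℝ) - 2) ≠ 0 := by linarith
    field_simp
    ring

/-- two elements -/
theorem Av_nx2 {W : Finset α} {a b : ℕ} (hab : a ≠ b) (ha : a < W.card) (hb : b < W.card)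
    (φ : α → α → ℝ) :
    Av W (fun σ => ∑ x ∈ nx σ a, ∑ y ∈ nx σ b, φ x y) =
      (∑ x ∈ W, ∑ y ∈ W.erase x, φ x y) / ((W.card : ℝ) * ((W.card : ℝ) - 1)) := by
  rcases Nat.lt_or_gt_of_ne hab with h | h
  · exact Av_nx2_lt a h hb φ
  · have e1 : Av W (fun σ => ∑ x ∈ nx σ a, ∑ y ∈ nx σ b, φ x y) =
        Av W (fun σ => ∑ y ∈ nx σ b, ∑ x ∈ nx σ a, φ x y) := by
      refine Av_congr fun σ _ => ?_
      exact sum_comm
    rw [e1, Av_nx2_lt b h ha (fun y x => φ x y)]
    congr 1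
    exact sum_comm' (fun x y => by
        simp only [mem_erase]
        constructor
        · rintro ⟨h3, h4, h5⟩; exact ⟨⟨h4.symm, h3⟩, h5⟩
        · rintro ⟨⟨h3, h4⟩, h5⟩; exact ⟨h4, h3.symm, h5⟩)

/-- the three pieces of an order -/
theorem Av_three {D : Finset α} {i p : ℕ} (hip : i ≤ p) (hp : p ≤ D.card)
    (F : List α → List α → List α → ℝ) :
    Av D (fun π => F (π.take i) ((π.drop i).take (p - i)) (π.drop p)) =
      (∑ U ∈ powersetCard i D, Av U (fun π1 => (∑ W ∈ powersetCard (p - i) (D \ U),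
        Av W (fun σ => Av ((D \ U) \ W) (fun π3 => F π1 σ π3))) /
          ((D.card - i).choose (p - i) : ℝ))) / (D.card.choose i : ℝ) := by
  have e1 : Av D (fun π => F (π.take i) ((π.drop i).take (p - i)) (π.drop p)) =
      Av D (fun π => (fun π1 π2 : List α => F π1 (π2.take (p - i)) (π2.drop (p - i)))
        (π.take i) (π.drop i)) := by
    refine Av_congr fun π _ => ?_
    show _ = F (π.take i) ((π.drop i).take (p - i)) ((π.drop i).drop (p - i))
    rw [List.drop_drop]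
    congr 2
    omega
  rw [e1, Av_take_drop (hip.trans hp) (fun π1 π2 : List α => F π1 (π2.take (p - i))
    (π2.drop (p - i)))]
  congr 1
  refine sum_congr rfl fun U hU => ?_
  obtain ⟨hU1, hU2⟩ := mem_powersetCard.1 hU
  have hc : (D \ U).card = D.card - i := by rw [card_sdiff_of_subset hU1, hU2]
  refine Av_congr fun π1 _ => ?_
  rw [Av_take_drop (G := D \ U) (k := p - i) (by rw [hc]; omega) (fun σ π3 => F π1 σ π3), hc]

/-- the middle piece as a set -/
theorem mid_eq {D : Finset α} {π : List α} (h : π ∈ seqs D.card D) {i p : ℕ} (hip : i ≤ p) :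
    ((π.drop i).take (p - i)).toFinset = pre π p \ pre π i ∧
      pre π p = (π.take i).toFinset ∪ ((π.drop i).take (p - i)).toFinset := by
  have hnd := (mem_seqs_card.1 h).1
  have e : π.take p = π.take i ++ (π.drop i).take (p - i) := by
    have : p = i + (p - i) := by omega
    conv_lhs => rw [this]
    exact List.take_add
  have e2 : pre π p = (π.take i).toFinset ∪ ((π.drop i).take (p - i)).toFinset := by
    unfold pre
    rw [e, List.toFinset_append]
  refine ⟨?_, e2⟩
  rw [e2]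
  have hd : List.Disjoint (π.take i) ((π.drop i).take (p - i)) := by
    have h1 : (π.take i ++ (π.drop i).take (p - i)).Nodup := by
      rw [← e]
      exact hnd.sublist (List.take_sublist _ _)
    exact (List.nodup_append'.1 h1).2.2
  unfold pre
  ext x
  simp only [mem_sdiff, mem_union, List.mem_toFinset]
  constructor
  · intro hx
    exact ⟨Or.inr hx, fun h' => hd h' hx⟩
  · rintro ⟨h1 | h1, h2⟩
    · exact absurd h1 h2
    · exact h1

/-- the elements of the middle piece -/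
theorem nx_mid {D : Finset α} {π : List α} (h : π ∈ seqs D.card D) {i p a : ℕ} (hia : i ≤ a)
    (hap : a < p) : nx π a = nx ((π.drop i).take (p - i)) (a - i) := by
  have hnd := (mem_seqs_card.1 h).1
  unfold nx
  have key : ∀ b, i ≤ b → b ≤ p → pre π b \ pre π i = pre ((π.drop i).take (p - i)) (b - i) := by
    intro b hib hbp
    rw [← (mid_eq h hib).1]
    unfold pre
    rw [List.take_take, min_eq_left (by omega)]
  have h1 := key a hia hap.le
  have h2 := key (a + 1) (by omega) hap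
  have e : a + 1 - i = a - i + 1 := by omega
  rw [e] at h2
  rw [← h1, ← h2]
  have h3 : pre π i ⊆ pre π a := pre_mono hia
  ext x
  simp only [mem_sdiff, not_and, not_not]
  constructor
  · rintro ⟨h4, h5⟩
    exact ⟨⟨h4, fun h6 => h5 (h3 h6)⟩, fun h6 => absurd h6 h5⟩
  · rintro ⟨⟨h4, h5⟩, h6⟩
    exact ⟨h4, fun h7 => h5 (h6 h7)⟩

/-- **one element of a block** -/
theorem Av_one {D : Finset α} {i p a : ℕ} (hia : i ≤ a) (hap : a < p) (hp : p ≤ D.card)
    (G : List α → Finset α → List α → α → ℝ) :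
    Av D (fun π => ∑ x ∈ nx π a, G (π.take i) (pre π p) (π.drop p) x) =
      Av D (fun π => (∑ x ∈ pre π p \ pre π i, G (π.take i) (pre π p) (π.drop p) x) /
        ((p : ℝ) - i)) := by
  have hip : i ≤ p := by omega
  have e1 : Av D (fun π => ∑ x ∈ nx π a, G (π.take i) (pre π p) (π.drop p) x) =
      Av D (fun π => (fun π1 σ π3 => ∑ x ∈ nx σ (a - i), G π1 (π1.toFinset ∪ σ.toFinset) π3 x)
        (π.take i) ((π.drop i).take (p - i)) (π.drop p)) := by
    refine Av_congr fun π hπ => ?_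
    show _ = ∑ x ∈ nx ((π.drop i).take (p - i)) (a - i), G (π.take i)
      ((π.take i).toFinset ∪ ((π.drop i).take (p - i)).toFinset) (π.drop p) x
    rw [← nx_mid hπ hia hap, ← (mid_eq hπ hip).2]
  have e2 : Av D (fun π => (∑ x ∈ pre π p \ pre π i, G (π.take i) (pre π p) (π.drop p) x) /
        ((p : ℝ) - i)) =
      Av D (fun π => (fun π1 σ π3 => (∑ x ∈ σ.toFinset, G π1 (π1.toFinset ∪ σ.toFinset) π3 x) /
        ((p : ℝ) - i)) (π.take i) ((π.drop i).take (p - i)) (π.drop p)) := by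
    refine Av_congr fun π hπ => ?_
    show _ = (∑ x ∈ ((π.drop i).take (p - i)).toFinset, G (π.take i)
      ((π.take i).toFinset ∪ ((π.drop i).take (p - i)).toFinset) (π.drop p) x) / ((p : ℝ) - i)
    rw [← (mid_eq hπ hip).2, (mid_eq hπ hip).1]
  rw [e1, e2, Av_three hip hp (fun π1 σ π3 => ∑ x ∈ nx σ (a - i),
    G π1 (π1.toFinset ∪ σ.toFinset) π3 x), Av_three hip hp (fun π1 σ π3 =>
    (∑ x ∈ σ.toFinset, G π1 (π1.toFinset ∪ σ.toFinset) π3 x) / ((p : ℝ) - i))]
  congr 1
  refine sum_congr rfl fun U _ => Av_congr fun π1 h1 => ?_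
  congr 1
  refine sum_congr rfl fun W hW => ?_
  obtain ⟨hW1, hW2⟩ := mem_powersetCard.1 hW
  have hcast : (W.card : ℝ) = (p : ℝ) - i := by rw [hW2, Nat.cast_sub hip]
  have e3 : Av W (fun σ => Av ((D \ U) \ W) (fun π3 => ∑ x ∈ nx σ (a - i),
      G π1 (π1.toFinset ∪ σ.toFinset) π3 x)) =
      Av W (fun σ => ∑ x ∈ nx σ (a - i), Av ((D \ U) \ W) (fun π3 => G π1 (U ∪ W) π3 x)) := by
    refine Av_congr fun σ hσ => ?_
    rw [← Av_sum, (mem_seqs_card.1 hσ).2, (mem_seqs_card.1 h1).2]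
  have e4 : Av W (fun σ => Av ((D \ U) \ W) (fun π3 => (∑ x ∈ σ.toFinset,
      G π1 (π1.toFinset ∪ σ.toFinset) π3 x) / ((p : ℝ) - i))) =
      Av W (fun _ => (∑ x ∈ W, Av ((D \ U) \ W) (fun π3 => G π1 (U ∪ W) π3 x)) /
        ((p : ℝ) - i)) := by
    refine Av_congr fun σ hσ => ?_
    rw [← Av_sum, ← Av_div, (mem_seqs_card.1 hσ).2, (mem_seqs_card.1 h1).2]
  rw [e3, e4, Av_const, Av_nx (a - i) (by rw [hW2]; omega), hcast]

/-- **two elements of a block** -/
theorem Av_two {D : Finset α} {i p a b : ℕ} (hia : i ≤ a) (hap : a < p) (hib : i ≤ b)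
    (hbp : b < p) (hab : a ≠ b) (hp : p ≤ D.card)
    (G : List α → Finset α → List α → α → α → ℝ) :
    Av D (fun π => ∑ x ∈ nx π a, ∑ y ∈ nx π b, G (π.take i) (pre π p) (π.drop p) x y) =
      Av D (fun π => (∑ x ∈ pre π p \ pre π i, ∑ y ∈ (pre π p \ pre π i).erase x,
        G (π.take i) (pre π p) (π.drop p) x y) / (((p : ℝ) - i) * (((p : ℝ) - i) - 1))) := by
  have hip : i ≤ p := by omega
  have e1 : Av D (fun π => ∑ x ∈ nx π a, ∑ y ∈ nx π b,
      G (π.take i) (pre π p) (π.drop p) x y) =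
      Av D (fun π => (fun π1 σ π3 => ∑ x ∈ nx σ (a - i), ∑ y ∈ nx σ (b - i),
        G π1 (π1.toFinset ∪ σ.toFinset) π3 x y)
        (π.take i) ((π.drop i).take (p - i)) (π.drop p)) := by
    refine Av_congr fun π hπ => ?_
    show _ = ∑ x ∈ nx ((π.drop i).take (p - i)) (a - i),
      ∑ y ∈ nx ((π.drop i).take (p - i)) (b - i), G (π.take i)
      ((π.take i).toFinset ∪ ((π.drop i).take (p - i)).toFinset) (π.drop p) x y
    rw [← nx_mid hπ hia hap, ← nx_mid hπ hib hbp, ← (mid_eq hπ hip).2]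
  have e2 : Av D (fun π => (∑ x ∈ pre π p \ pre π i, ∑ y ∈ (pre π p \ pre π i).erase x,
        G (π.take i) (pre π p) (π.drop p) x y) / (((p : ℝ) - i) * (((p : ℝ) - i) - 1))) =
      Av D (fun π => (fun π1 σ π3 => (∑ x ∈ σ.toFinset, ∑ y ∈ σ.toFinset.erase x,
        G π1 (π1.toFinset ∪ σ.toFinset) π3 x y) / (((p : ℝ) - i) * (((p : ℝ) - i) - 1)))
        (π.take i) ((π.drop i).take (p - i)) (π.drop p)) := by
    refine Av_congr fun π hπ => ?_
    show _ = (∑ x ∈ ((π.drop i).take (p - i)).toFinset,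
      ∑ y ∈ ((π.drop i).take (p - i)).toFinset.erase x, G (π.take i)
      ((π.take i).toFinset ∪ ((π.drop i).take (p - i)).toFinset) (π.drop p) x y) /
        (((p : ℝ) - i) * (((p : ℝ) - i) - 1))
    rw [← (mid_eq hπ hip).2, (mid_eq hπ hip).1]
  rw [e1, e2, Av_three hip hp (fun π1 σ π3 => ∑ x ∈ nx σ (a - i), ∑ y ∈ nx σ (b - i),
    G π1 (π1.toFinset ∪ σ.toFinset) π3 x y), Av_three hip hp (fun π1 σ π3 =>
    (∑ x ∈ σ.toFinset, ∑ y ∈ σ.toFinset.erase x,
      G π1 (π1.toFinset ∪ σ.toFinset) π3 x y) / (((p : ℝ) - i) * (((p : ℝ) - i) - 1)))]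
  congr 1
  refine sum_congr rfl fun U _ => Av_congr fun π1 h1 => ?_
  congr 1
  refine sum_congr rfl fun W hW => ?_
  obtain ⟨hW1, hW2⟩ := mem_powersetCard.1 hW
  have hcast : (W.card : ℝ) = (p : ℝ) - i := by rw [hW2, Nat.cast_sub hip]
  have e3 : Av W (fun σ => Av ((D \ U) \ W) (fun π3 => ∑ x ∈ nx σ (a - i), ∑ y ∈ nx σ (b - i),
      G π1 (π1.toFinset ∪ σ.toFinset) π3 x y)) =
      Av W (fun σ => ∑ x ∈ nx σ (a - i), ∑ y ∈ nx σ (b - i),
        Av ((D \ U) \ W) (fun π3 => G π1 (U ∪ W) π3 x y)) := by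
    refine Av_congr fun σ hσ => ?_
    simp only [← Av_sum, (mem_seqs_card.1 hσ).2, (mem_seqs_card.1 h1).2]
  have e4 : Av W (fun σ => Av ((D \ U) \ W) (fun π3 => (∑ x ∈ σ.toFinset,
      ∑ y ∈ σ.toFinset.erase x, G π1 (π1.toFinset ∪ σ.toFinset) π3 x y) /
        (((p : ℝ) - i) * (((p : ℝ) - i) - 1)))) =
      Av W (fun _ => (∑ x ∈ W, ∑ y ∈ W.erase x,
        Av ((D \ U) \ W) (fun π3 => G π1 (U ∪ W) π3 x y)) /
        (((p : ℝ) - i) * (((p : ℝ) - i) - 1))) := by
    refine Av_congr fun σ hσ => ?_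
    simp only [← Av_sum, ← Av_div, (mem_seqs_card.1 hσ).2, (mem_seqs_card.1 h1).2]
  rw [e3, e4, Av_const, Av_nx2 (by omega) (by rw [hW2]; omega) (by rw [hW2]; omega), hcast]

/-- exchange of one element inside a block -/
theorem Av_one_one {D : Finset α} {i p a b : ℕ} (hia : i ≤ a) (hap : a < p) (hib : i ≤ b)
    (hbp : b < p) (hp : p ≤ D.card) (G : List α → Finset α → List α → α → ℝ) :
    Av D (fun π => ∑ x ∈ nx π a, G (π.take i) (pre π p) (π.drop p) x) =
      Av D (fun π => ∑ x ∈ nx π b, G (π.take i) (pre π p) (π.drop p) x) := by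
  rw [Av_one hia hap hp, Av_one hib hbp hp]

/-- exchange of two elements inside a block -/
theorem Av_two_two {D : Finset α} {i p a b c d : ℕ} (hia : i ≤ a) (hap : a < p) (hib : i ≤ b)
    (hbp : b < p) (hab : a ≠ b) (hic : i ≤ c) (hcp : c < p) (hid : i ≤ d) (hdp : d < p)
    (hcd : c ≠ d) (hp : p ≤ D.card) (G : List α → Finset α → List α → α → α → ℝ) :
    Av D (fun π => ∑ x ∈ nx π a, ∑ y ∈ nx π b, G (π.take i) (pre π p) (π.drop p) x y) =
      Av D (fun π => ∑ x ∈ nx π c, ∑ y ∈ nx π d, G (π.take i) (pre π p) (π.drop p) x y) := by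
  rw [Av_two hia hap hib hbp hab hp, Av_two hic hcp hid hdp hcd hp]

end Blk

end R5
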