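import Pool.Agent.Work.MP_8b6acb_ti_helper76.Two

/-!
# Both sides: pointwise counting (helper76)

Note 1523 (2) of the R5 room (helper25).
-/

namespace R5

namespace Two

open Finset T7

variable {α : Type} [DecidableEq α]

/-- `1` if the last set before the final B-run is a vertex -/
def lx (τ : Finset α → Lab) (π : List α) : ℝ := if τ (pre π (kN τ π)) = Lab.A then 0 else 1

/-- the coefficients of the levels -/
noncomputable def vv (τ : Finset α → Lab) (D : Finset α) (π : List α) (i : ℕ) : ℝ :=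
  if τ (pre π (kN τ π)) = Lab.A then (if an τ D π i = 0 then 0 else 1) else
    (if pn τ π i = 0 then (if an τ D π i = 0 then 0 else 1) else (D.card : ℝ) - kN τ π)

/-- the lower bound of one side, after the third compensator -/
noncomputable def LC (τ : Finset α → Lab) (D : Finset α) (π : List α) : ℝ :=
  ((kA τ π : ℝ) + 1) - n00 τ D π + lx τ π * ((D.card : ℝ) - kN τ π - 1) * lv τ D π -
    ((D.card : ℝ) - kN τ π) * lv τ D π +
    ((kN τ π : ℝ) - kA τ π) * ((D.card : ℝ) - kN τ π) * nl τ D π +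
    ((D.card : ℝ) - kN τ π) * n00 τ D π * iE τ π (kA τ π) -
    (((kN τ π : ℝ) - kA τ π) + ((D.card : ℝ) - kN τ π)) * nl τ D π

section path

variable {τ : Finset α → Lab} {D : Finset α} {π : List α}

theorem lx_cases (τ : Finset α → Lab) (π : List α) : lx τ π = 0 ∨ lx τ π = 1 := by
  unfold lx
  split_ifs
  · exact Or.inl rfl
  · exact Or.inr rfl

theorem nx_cases (hπ : π ∈ seqs D.card D) {i : ℕ} (hi : i < D.card) (S : Finset α) :
    ((nx π i ∩ S).card : ℝ) = 0 ∨ ((nx π i ∩ S).card : ℝ) = 1 := by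
  obtain ⟨x, hx⟩ := Blk.nx_single hπ hi
  rw [hx]
  by_cases h : x ∈ S
  · right
    rw [singleton_inter_of_mem h]
    simp
  · left
    rw [singleton_inter_of_notMem h]
    simp

/-- if `V_K` is a vertex then `k < K` -/
theorem lt_of_lx (h0 : τ ∅ = Lab.A) (hD : τ D = Lab.B) (hπ : π ∈ seqs D.card D)
    (hx : τ (pre π (kN τ π)) ≠ Lab.A) : kA τ π < kN τ π := by
  have hD' : τ D ≠ Lab.A := by rw [hD]; decide
  rcases Nat.lt_or_eq_of_le (kA_le_kN h0 hD hπ) with h | h
  · exact h
  · exfalso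
    apply hx
    rw [← h]
    exact ((allA_iff h0 hD' hπ (kA τ π)).2 le_rfl) _ (by simp)

/-- if the first exit is a vertex then `k < K` -/
theorem lt_of_fv (h0 : τ ∅ = Lab.A) (hD : τ D = Lab.B) (hπ : π ∈ seqs D.card D)
    (hx : iE τ π (kA τ π) = 0) : kA τ π < kN τ π := by
  have hD' : τ D ≠ Lab.A := by rw [hD]; decide
  have h0' : τ ∅ ≠ Lab.B := by rw [h0]; decide
  have hk := kA_lt h0 hD' hπ
  have hl := length_of_mem hπ
  have h1 : τ (pre π (kA τ π + 1)) ≠ Lab.B := by
    intro h
    rw [iE_pos ⟨(allA_iff h0 hD' hπ _).2 le_rfl, h⟩] at hx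
    exact one_ne_zero hx
  by_contra hc
  apply h1
  have h2 := (allB_iff h0' hD hπ (kA τ π + 1)).2 (by omega)
  exact h2 _ (by rw [mem_Icc, hl]; omega)

/-- counting the levels -/
theorem count_levels (h0 : τ ∅ = Lab.A) (hD : τ D = Lab.B) (hJ : ∃ x ∈ D, τ {x} = Lab.B)
    (hπ : π ∈ seqs D.card D) :
    ((kA τ π : ℝ) + 1) - n00 τ D π + lx τ π * ((D.card : ℝ) - kN τ π - 1) * lv τ D π ≤
      ∑ i ∈ range (kA τ π + 1), (vv τ D π i + ((HL τ D (pre π i)).card : ℝ)) := by
  have hD' : τ D ≠ Lab.A := by rw [hD]; decide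
  have h0' : τ ∅ ≠ Lab.B := by rw [h0]; decide
  have hk := kA_lt h0 hD' hπ
  have hN := kN_lt h0' hD hπ
  have hN1 : (1 : ℝ) ≤ (D.card : ℝ) - kN τ π := by
    have : (kN τ π : ℝ) + 1 ≤ D.card := by exact_mod_cast hN
    linarith
  -- the number `n00` as a sum
  have e1 : (n00 τ D π : ℝ) = ∑ i ∈ range (kA τ π + 1), (if 1 ≤ i ∧
      (∀ x ∈ D \ pre π i, τ (insert x (pre π i)) ≠ Lab.B) then (1 : ℝ) else 0) := by
    unfold n00
    rw [← sum_filter, sum_const, nsmul_eq_mul, mul_one]
    congr 2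
    ext i
    simp only [mem_filter, mem_Icc, mem_range]
    constructor
    · rintro ⟨⟨h1, h2⟩, h3⟩
      exact ⟨by omega, h1, h3⟩
    · rintro ⟨h1, h2, h3⟩
      exact ⟨⟨h2, by omega⟩, h3⟩
  -- the extra term as a sum
  have e2 : lx τ π * ((D.card : ℝ) - kN τ π - 1) * lv τ D π =
      ∑ i ∈ range (kA τ π + 1), (if i = kA τ π then
        lx τ π * ((D.card : ℝ) - kN τ π - 1) * lv τ D π else 0) := by
    rw [sum_ite_eq' (range (kA τ π + 1)) (kA τ π), if_pos (mem_range.2 (Nat.lt_succ_self _))]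
  have e3 : (kA τ π : ℝ) + 1 = ∑ i ∈ range (kA τ π + 1), (1 : ℝ) := by
    rw [sum_const, card_range, nsmul_eq_mul]
    push_cast
    ring
  rw [e1, e2, e3, ← sum_sub_distrib, ← sum_add_distrib]
  refine sum_le_sum fun i hi => ?_
  rw [mem_range] at hi
  have hvv0 : 0 ≤ vv τ D π i := by
    unfold vv
    split_ifs
    · exact le_rfl
    · exact zero_le_one
    · exact le_rfl
    · exact zero_le_one
    · linarith
  have hvv1 : an τ D π i ≠ 0 → 1 ≤ vv τ D π i := by
    intro h
    unfold vv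
    rw [if_neg h]
    split_ifs
    · exact le_rfl
    · exact le_rfl
    · linarith
  have hH0 : (0 : ℝ) ≤ ((HL τ D (pre π i)).card : ℝ) := Nat.cast_nonneg _
  -- the extra term
  have hex : (if i = kA τ π then lx τ π * ((D.card : ℝ) - kN τ π - 1) * lv τ D π else 0) ≤
      if an τ D π i ≠ 0 then vv τ D π i - 1 else 0 := by
    by_cases hik : i = kA τ π
    · subst hik
      rw [if_pos rfl]
      rcases nx_cases hπ hk (AL τ D (pre π (kA τ π))) with h | h
      · have : lv τ D π = 0 := h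
        rw [this, mul_zero]
        split_ifs with h2
        · have := hvv1 h2
          linarith
        · exact le_rfl
      · have h1 : lv τ D π = 1 := h
        have hne : (nx π (kA τ π) ∩ AL τ D (pre π (kA τ π))).Nonempty := by
          rw [← card_pos]
          have h3 : ((nx π (kA τ π) ∩ AL τ D (pre π (kA τ π))).card : ℝ) = 1 := h
          have : (nx π (kA τ π) ∩ AL τ D (pre π (kA τ π))).card = 1 := by exact_mod_cast h3
          omega
        obtain ⟨y, hy⟩ := hne
        rw [mem_inter] at hy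
        have han : an τ D π (kA τ π) ≠ 0 := by
          unfold an
          exact card_ne_zero_of_mem hy.2
        rw [if_pos han, h1, mul_one]
        unfold lx
        split_ifs with h4
        · have := hvv1 han
          linarith
        · -- `V_K` is a vertex
          have hlt := lt_of_lx h0 hD hπ h4
          have hp : pn τ π (kA τ π) ≠ 0 := by
            rw [pn_eq hπ]
            apply card_ne_zero_of_mem (a := y)
            rw [mem_inter, mem_sdiff]
            have h5 := Blk.mem_nx.1 hy.1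
            exact ⟨⟨pre_mono (by omega) h5.1, h5.2⟩, hy.2⟩
          unfold vv
          rw [if_neg h4, if_neg hp]
          linarith
    · rw [if_neg hik]
      split_ifs with h2
      · have := hvv1 h2
        linarith
      · exact le_rfl
  refine le_trans (add_le_add_right hex _) ?_
  by_cases hA : an τ D π i ≠ 0
  · rw [if_pos hA]
    have : (0 : ℝ) ≤ (if 1 ≤ i ∧ (∀ x ∈ D \ pre π i, τ (insert x (pre π i)) ≠ Lab.B)
        then (1 : ℝ) else 0) := by
      split_ifs
      · exact zero_le_one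
      · exact le_rfl
    linarith
  · rw [if_neg hA]
    push Not at hA
    by_cases hE : ∀ x ∈ D \ pre π i, τ (insert x (pre π i)) ≠ Lab.B
    · -- no edge exit: `i ≥ 1`
      have hi1 : 1 ≤ i := by
        by_contra hc
        have : i = 0 := by omega
        subst this
        obtain ⟨x, hx, hxB⟩ := hJ
        have := hE x (by rw [pre_zero, sdiff_empty]; exact hx)
        rw [pre_zero] at this
        exact this hxB
      rw [if_pos ⟨hi1, hE⟩]
      linarith
    · rw [if_neg (fun h => hE h.2)]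
      push Not at hE
      obtain ⟨x, hx, hxB⟩ := hE
      have hxH : x ∈ HL τ D (pre π i) := by
        unfold HL
        rw [mem_filter]
        refine ⟨hx, ?_, hxB⟩
        intro hL
        have : x ∈ AL τ D (pre π i) := by
          unfold AL
          rw [mem_filter]
          exact ⟨hx, hL, hxB⟩
        have h3 := card_ne_zero_of_mem this
        exact h3 hA
      have h4 : (1 : ℝ) ≤ ((HL τ D (pre π i)).card : ℝ) := by
        have := card_pos.2 ⟨x, hxH⟩
        exact_mod_cast this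
      linarith

end path

/-- **ONE SIDE**, after the third compensator -/
theorem one_side' {τ : Finset α → Lab} {D : Finset α} (h0 : τ ∅ = Lab.A) (hD : τ D = Lab.B)
    (hJ : ∃ x ∈ D, τ {x} = Lab.B) (g : List α → ℝ)
    (hW : ∀ π ∈ seqs D.card D, ∀ i ≤ kA τ π, (vv τ D π i - on τ D π i) * lamn D.card ≤
      (pn τ π i : ℝ) * Lam (kN τ π) D.card - gg D.card (an τ D π i) +
        gg (kN τ π) (pn τ π i) + g π) :
    lamn D.card * Av D (LC τ D) ≤ Av D (TP τ D g) := by
  refine le_trans (mul_le_mul_of_nonneg_left ?_ (lamn_nonneg _)) (one_side h0 hD g _ hW)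
  have c1 := compA h0 hD (HL τ D) (HL_exit τ D) (fun _ => 1)
  have c2 := compB h0 hD (HL τ D) (HL_exit τ D)
  have e1 : Av D (fun π => ∑ i ∈ range (kA τ π + 1), ((HL τ D (pre π i)).card : ℝ)) =
      Av D (fun π => (((kN τ π : ℝ) - kA τ π) + ((D.card : ℝ) - kN τ π)) * nl τ D π) := by
    have e2 : Av D (fun π => (((kN τ π : ℝ) - kA τ π) + ((D.card : ℝ) - kN τ π)) * nl τ D π) =
        Av D (fun π => ((kN τ π : ℝ) - kA τ π) *
          ((nx π (kA τ π) ∩ HL τ D (pre π (kA τ π))).card : ℝ) * 1) +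
        Av D (fun π => ((D.card : ℝ) - kN τ π) *
          ((nx π (kA τ π) ∩ HL τ D (pre π (kA τ π))).card : ℝ)) := by
      rw [← Av_add]
      refine Av_congr fun π _ => ?_
      unfold nl
      ring
    rw [e2, ← c1, ← c2, ← Av_add]
    refine Av_congr fun π hπ => ?_
    rw [← sum_add_distrib]
    refine sum_congr rfl fun i hi => ?_
    rw [mul_one]
    have hN := kN_lt (τ := τ) (by rw [h0]; decide) hD hπ
    have h3 : (HL τ D (pre π i)).card = ((pre π (kN τ π) \ pre π i) ∩ HL τ D (pre π i)).card +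
        ((D \ pre π (kN τ π)) ∩ HL τ D (pre π i)).card := by
      rw [← card_union_of_disjoint]
      · congr 1
        ext x
        simp only [mem_union, mem_inter, mem_sdiff]
        have hsub : x ∈ HL τ D (pre π i) → x ∈ D ∧ x ∉ pre π i := by
          intro h
          unfold HL at h
          exact mem_sdiff.1 (mem_filter.1 h).1
        constructor
        · intro h
          have h2 := hsub h
          by_cases h3 : x ∈ pre π (kN τ π)
          · exact Or.inl ⟨⟨h3, h2.2⟩, h⟩
          · exact Or.inr ⟨⟨h2.1, h3⟩, h⟩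
        · rintro (h | h)
          · exact h.2
          · exact h.2
      · rw [disjoint_left]
        intro x hx hx'
        simp only [mem_inter, mem_sdiff] at hx hx'
        exact hx'.1.2 hx.1.1
    rw [h3]
    push_cast
    ring
  have e4 : Av D (LC τ D) = Av D (fun π => ((kA τ π : ℝ) + 1) - n00 τ D π +
      lx τ π * ((D.card : ℝ) - kN τ π - 1) * lv τ D π -
      ((D.card : ℝ) - kN τ π) * lv τ D π +
      ((kN τ π : ℝ) - kA τ π) * ((D.card : ℝ) - kN τ π) * nl τ D π +
      ((D.card : ℝ) - kN τ π) * n00 τ D π * iE τ π (kA τ π)) -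
      Av D (fun π => (((kN τ π : ℝ) - kA τ π) + ((D.card : ℝ) - kN τ π)) * nl τ D π) := by
    rw [← Av_sub]
    rfl
  rw [e4, ← e1, ← Av_sub]
  refine Av_mono fun π hπ => ?_
  have h5 := count_levels h0 hD hJ hπ
  rw [sum_add_distrib] at h5
  unfold LB
  linarith

/-! ### the pointwise inequality -/

theorem pointwise {u w r n n' a b a' b' : ℝ} (hu : 1 ≤ u) (hw : 1 ≤ w) (hr : 0 ≤ r)
    (hn0 : 0 ≤ n) (hn : n ≤ u - 1) (hn0' : 0 ≤ n') (hn' : n' ≤ w - 1)
    (hab : (a = 0 ∧ b = 0 ∧ 1 ≤ r) ∨ (a = 1 ∧ b = 0) ∨ (a = 0 ∧ b = 1))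
    (hab' : (a' = 0 ∧ b' = 0 ∧ 1 ≤ r) ∨ (a' = 1 ∧ b' = 0) ∨ (a' = 0 ∧ b' = 1)) :
    w * (1 - a - b) * (a' + b') + u * (a + b) * (1 - a' - b') +
      2 * ((1 - a - b) * (1 - a' - b')) ≤
    (u - n + (1 - a' - b') * (w - 1) * a - w * a + r * w * b + w * n * (a + b) - (r + w) * b) +
    (w - n' + (1 - a - b) * (u - 1) * a' - u * a' + r * u * b' + u * n' * (a' + b') -
      (r + u) * b') := by
  have h1 : 0 ≤ (w - 1) * n := mul_nonneg (by linarith) hn0
  have h2 : 0 ≤ (u - 1) * n' := mul_nonneg (by linarith) hn0'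
  have h3 : 0 ≤ r * (w - 1) := mul_nonneg hr (by linarith)
  have h4 : 0 ≤ r * (u - 1) := mul_nonneg hr (by linarith)
  rcases hab with ⟨rfl, rfl, h5⟩ | ⟨rfl, rfl⟩ | ⟨rfl, rfl⟩ <;>
  rcases hab' with ⟨rfl, rfl, h6⟩ | ⟨rfl, rfl⟩ | ⟨rfl, rfl⟩
  · linarith
  · nlinarith
  · nlinarith [mul_nonneg (by linarith : (0 : ℝ) ≤ r - 1) (by linarith : (0 : ℝ) ≤ u - 1)]
  · nlinarith
  · nlinarith
  · nlinarith
  · nlinarith [mul_nonneg (by linarith : (0 : ℝ) ≤ r - 1) (by linarith : (0 : ℝ) ≤ w - 1)]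
  · nlinarith
  · nlinarith

end Two

end R5
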