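import Pool.Agent.Work.MP_8b6acb_ti_helper76.Block

/-!
# First exit level, last level before the final B-run, compensators (helper76)

`kA τ π` = last level of the initial A-run (`k_1`), `kB τ π` = last level before the final B-run
(`k_N`, `K`).
-/

namespace R5

namespace Blk

open Finset

variable {α : Type} [DecidableEq α]

/-- last level of the initial A-run -/
def kA (τ : Finset α → Lab) (π : List α) : ℕ :=
  ((Icc 1 π.length).filter (fun i => allA τ π i)).card

/-- last level before the final B-run -/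
def kB (τ : Finset α → Lab) (π : List α) : ℕ :=
  π.length - ((Icc 1 π.length).filter (fun j => allB τ π j)).card

theorem kA_le (τ : Finset α → Lab) (π : List α) : kA τ π ≤ π.length := by
  unfold kA
  refine (card_filter_le _ _).trans ?_
  rw [Nat.card_Icc]
  omega

theorem kB_le (τ : Finset α → Lab) (π : List α) : kB τ π ≤ π.length := by
  unfold kB
  omega

/-- a downward closed set of levels is an interval -/
theorem filter_initial {n : ℕ} {P : ℕ → Prop} [DecidablePred P]
    (h : ∀ i j, i ≤ j → P j → P i) :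
    (Icc 1 n).filter P = Icc 1 ((Icc 1 n).filter P).card := by
  induction n with
  | zero => simp
  | succ n ih =>
    by_cases hP : P (n + 1)
    · have h1 : (Icc 1 (n + 1)).filter P = Icc 1 (n + 1) := by
        refine filter_true_of_mem fun i hi => ?_
        rw [mem_Icc] at hi
        exact h i (n + 1) hi.2 hP
      rw [h1]
      simp
    · have h1 : (Icc 1 (n + 1)).filter P = (Icc 1 n).filter P := by
        ext i
        simp only [mem_filter, mem_Icc]
        constructor
        · rintro ⟨⟨h2, h3⟩, h4⟩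
          refine ⟨⟨h2, ?_⟩, h4⟩
          by_contra h5
          have : i = n + 1 := by omega
          exact hP (this ▸ h4)
        · rintro ⟨⟨h2, h3⟩, h4⟩
          exact ⟨⟨h2, by omega⟩, h4⟩
      rw [h1]
      exact ih

theorem filter_final {n : ℕ} {P : ℕ → Prop} [DecidablePred P]
    (h : ∀ i j, i ≤ j → P i → P j) :
    (Icc 1 n).filter P = Icc (n - ((Icc 1 n).filter P).card + 1) n := by
  induction n with
  | zero => simp
  | succ n ih =>
    by_cases hP : P (n + 1)
    · have h1 : (Icc 1 (n + 1)).filter P = insert (n + 1) ((Icc 1 n).filter P) := by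
        ext i
        simp only [mem_filter, mem_Icc, mem_insert]
        constructor
        · rintro ⟨⟨h2, h3⟩, h4⟩
          by_cases h5 : i = n + 1
          · exact Or.inl h5
          · exact Or.inr ⟨⟨h2, by omega⟩, h4⟩
        · rintro (h2 | ⟨⟨h2, h3⟩, h4⟩)
          · subst h2
            exact ⟨⟨by omega, le_rfl⟩, hP⟩
          · exact ⟨⟨h2, by omega⟩, h4⟩
      have hn : n + 1 ∉ (Icc 1 n).filter P := by
        simp
      have hc : ((Icc 1 (n + 1)).filter P).card = ((Icc 1 n).filter P).card + 1 := by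
        rw [h1, card_insert_of_notMem hn]
      have hle : ((Icc 1 n).filter P).card ≤ n := by
        refine (card_filter_le _ _).trans ?_
        rw [Nat.card_Icc]
        omega
      rw [hc, h1]
      conv_lhs => rw [ih]
      ext i
      simp only [mem_insert, mem_Icc]
      omega
    · have h1 : (Icc 1 (n + 1)).filter P = ∅ := by
        rw [filter_eq_empty_iff]
        intro i hi h2
        rw [mem_Icc] at hi
        exact hP (h i (n + 1) hi.2 h2)
      rw [h1]
      simp

theorem allA_iff {τ : Finset α → Lab} {π : List α} (h0 : τ ∅ = Lab.A) {i : ℕ}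
    (hi : i ≤ π.length) : allA τ π i ↔ i ≤ kA τ π := by
  rcases Nat.eq_zero_or_pos i with rfl | hp
  · rw [allA_zero]
    simp [h0]
  · have h1 := filter_initial (n := π.length) (P := fun i => allA τ π i)
      (fun i j hij hj => allA_mono hij hj)
    have h2 : i ∈ (Icc 1 π.length).filter (fun i => allA τ π i) ↔ allA τ π i := by
      rw [mem_filter, mem_Icc]
      exact ⟨fun h => h.2, fun h => ⟨⟨hp, hi⟩, h⟩⟩
    rw [← h2, h1, mem_Icc]
    unfold kA
    exact ⟨fun h => h.2, fun h => ⟨hp, h⟩⟩

theorem allB_iff {τ : Finset α → Lab} {π : List α} {j : ℕ} (h1 : 1 ≤ j)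
    (hj : j ≤ π.length) : allB τ π j ↔ kB τ π < j := by
  have h2 := filter_final (n := π.length) (P := fun i => allB τ π i)
    (fun i j hij hi => allB_mono hij hi)
  have h3 : j ∈ (Icc 1 π.length).filter (fun i => allB τ π i) ↔ allB τ π j := by
    rw [mem_filter, mem_Icc]
    exact ⟨fun h => h.2, fun h => ⟨⟨h1, hj⟩, h⟩⟩
  rw [← h3, h2, mem_Icc]
  unfold kB
  exact ⟨fun h => h.1, fun h => ⟨h, hj⟩⟩

/-- the labels at the two levels -/
theorem kA_lt {τ : Finset α → Lab} {π : List α} (hB : τ π.toFinset = Lab.B)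
    (h0 : τ ∅ = Lab.A) : kA τ π < π.length := by
  have h1 := kA_le τ π
  rcases Nat.lt_or_eq_of_le h1 with h | h
  · exact h
  · exfalso
    have h2 := (allA_iff h0 (le_refl π.length)).2 h.ge
    have h3 := h2 π.length (by simp)
    rw [pre_of_ge le_rfl, hB] at h3
    exact absurd h3 (by decide)

theorem kB_lt {τ : Finset α → Lab} {π : List α} (hB : τ π.toFinset = Lab.B)
    (hl : 0 < π.length) : kB τ π < π.length :=
  (allB_iff hl (le_refl π.length)).1 (allB_length.2 hB)

theorem tau_kB {τ : Finset α → Lab} {π : List α} (hB : τ π.toFinset = Lab.B)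
    (h0 : τ ∅ = Lab.A) (hl : 0 < π.length) : τ (pre π (kB τ π)) ≠ Lab.B := by
  intro h
  rcases Nat.eq_zero_or_pos (kB τ π) with h1 | h1
  · rw [h1, pre_zero, h0] at h
    exact absurd h (by decide)
  · have h2 := kB_lt hB hl
    have h3 : allB τ π (kB τ π + 1) := (allB_iff (by omega) h2).2 (Nat.lt_succ_self _)
    have h4 : allB τ π (kB τ π) := (allB_pred h2).2 ⟨h, h3⟩
    have h5 := (allB_iff h1 h2.le).1 h4
    omega

theorem kA_le_kB {τ : Finset α → Lab} {π : List α} (hB : τ π.toFinset = Lab.B)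
    (h0 : τ ∅ = Lab.A) : kA τ π ≤ kB τ π := by
  by_contra h
  push Not at h
  have h1 := kA_lt hB h0
  have h2 : allB τ π (kA τ π) := (allB_iff (by omega) h1.le).2 h
  have h3 := h2 (kA τ π) (by rw [mem_Icc]; omega)
  have h4 := (allA_iff h0 h1.le).2 le_rfl
  have h5 := h4 (kA τ π) (by simp)
  rw [h3] at h5
  exact absurd h5 (by decide)

theorem kB_eq_iff {τ : Finset α → Lab} {π : List α} (hB : τ π.toFinset = Lab.B)
    (h0 : τ ∅ = Lab.A) {K : ℕ} (hK : K < π.length) :
    kB τ π = K ↔ allB τ π (K + 1) ∧ τ (pre π K) ≠ Lab.B := by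
  constructor
  · rintro rfl
    exact ⟨(allB_iff (by omega) hK).2 (Nat.lt_succ_self _), tau_kB hB h0 (by omega)⟩
  · rintro ⟨h1, h2⟩
    have h3 := (allB_iff (by omega) hK).1 h1
    rcases Nat.lt_or_ge (kB τ π) K with h4 | h4
    · exfalso
      have h5 := (allB_iff (by omega) hK.le).2 h4
      exact h2 (h5 K (by rw [mem_Icc]; omega))
    · omega

theorem kA_eq_iff {τ : Finset α → Lab} {π : List α} (hB : τ π.toFinset = Lab.B)
    (h0 : τ ∅ = Lab.A) {i : ℕ} (hi : i < π.length) :
    kA τ π = i ↔ allA τ π i ∧ τ (pre π (i + 1)) ≠ Lab.A := by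
  constructor
  · rintro rfl
    refine ⟨(allA_iff h0 hi.le).2 le_rfl, fun h => ?_⟩
    have h1 := (allA_iff h0 hi).1 (allA_succ.2 ⟨(allA_iff h0 hi.le).2 le_rfl, h⟩)
    omega
  · rintro ⟨h1, h2⟩
    have h3 := (allA_iff h0 hi.le).1 h1
    rcases Nat.lt_or_ge i (kA τ π) with h4 | h4
    · exfalso
      exact h2 (allA_succ.1 ((allA_iff h0 hi).2 h4)).2
    · omega

/-- the condition `allB` depends only on the set below and on the rest -/
def aB (τ : Finset α → Lab) (U : Finset α) (σ : List α) : Prop :=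
  ∀ i ∈ range (σ.length + 1), τ (U ∪ pre σ i) = Lab.B

instance (τ : Finset α → Lab) (U : Finset α) (σ : List α) : Decidable (aB τ U σ) := by
  unfold aB; infer_instance

theorem allB_iff_aB {τ : Finset α → Lab} {π : List α} {j : ℕ} (hj : j ≤ π.length) :
    allB τ π j ↔ aB τ (pre π j) (π.drop j) := by
  have hl : (π.take j).length = j := by rw [List.length_take, min_eq_left hj]
  have h := allB_append (τ := τ) (π1 := π.take j) (π2 := π.drop j)
  rw [List.take_append_drop, hl] at h
  exact h

theorem allA_iff_take {τ : Finset α → Lab} {π : List α} {i : ℕ} :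
    allA τ π i ↔ allA τ (π.take i) i := (allA_take le_rfl).symm

theorem pre_eq_take {π : List α} {i : ℕ} : pre π i = (π.take i).toFinset := rfl

/-- **first compensator**, at a fixed level `K`: the last level before the final B-run is `K` -/
theorem comp1_at {τ : Finset α → Lab} {D : Finset α} (h0 : τ ∅ = Lab.A) (hB : τ D = Lab.B)
    (A : Finset α → Finset α) (f : List α → Finset α → List α → ℝ) {i K : ℕ} (hiK : i ≤ K)
    (hK : K < D.card) :
    Av D (fun π => if allA τ π i ∧ kB τ π = K then
      (((pre π K \ pre π i) ∩ A (pre π i)).card : ℝ) * f (π.take i) (pre π K) (π.drop K) else 0) =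
    Av D (fun π => if allA τ π i ∧ kB τ π = K then
      ((K : ℝ) - i) * (((nx π i) ∩ A (pre π i)).card : ℝ) * f (π.take i) (pre π K) (π.drop K)
        else 0) := by
  obtain ⟨G, hG⟩ : ∃ G : List α → Finset α → List α → α → ℝ, G = fun π1 U π3 x =>
    if allA τ π1 i ∧ (aB τ (U ∪ pre π3 1) (π3.drop 1) ∧ τ U ≠ Lab.B) ∧ x ∈ A π1.toFinset then
      f π1 U π3 else 0 := ⟨_, rfl⟩
  have hcond : ∀ π ∈ seqs D.card D, (allA τ π i ∧ kB τ π = K ↔ allA τ (π.take i) i ∧
      (aB τ (pre π K ∪ pre (π.drop K) 1) ((π.drop K).drop 1) ∧ τ (pre π K) ≠ Lab.B)) := by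
    intro π hπ
    have hl := length_of_mem hπ
    have hBπ : τ π.toFinset = Lab.B := by rw [(mem_seqs_card.1 hπ).2]; exact hB
    rw [kB_eq_iff hBπ h0 (by omega), ← allA_iff_take, allB_iff_aB (by omega)]
    have e1 : pre π K ∪ pre (π.drop K) 1 = pre π (K + 1) := by
      have := pre_append_add (π1 := π.take K) (π2 := π.drop K) (i := 1)
      rw [List.take_append_drop, List.length_take, min_eq_left (by omega)] at this
      rw [this]
      rfl
    rw [e1, List.drop_drop]
  have hsum : ∀ π ∈ seqs D.card D, ∀ S : Finset α, ∑ x ∈ S, G (π.take i) (pre π K) (π.drop K) x =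
      if allA τ π i ∧ kB τ π = K then ((S ∩ A (pre π i)).card : ℝ) *
        f (π.take i) (pre π K) (π.drop K) else 0 := by
    intro π hπ S
    rw [hG]
    simp only [if_congr (hcond π hπ) rfl rfl]
    by_cases h : allA τ (π.take i) i ∧
      (aB τ (pre π K ∪ pre (π.drop K) 1) ((π.drop K).drop 1) ∧ τ (pre π K) ≠ Lab.B)
    · rw [if_pos h]
      have e : ∀ x, (allA τ (π.take i) i ∧ (aB τ (pre π K ∪ pre (π.drop K) 1)
          ((π.drop K).drop 1) ∧ τ (pre π K) ≠ Lab.B) ∧ x ∈ A (π.take i).toFinset) ↔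
          x ∈ A (pre π i) := fun x => ⟨fun h' => h'.2.2, fun h' => ⟨h.1, h.2, h'⟩⟩
      simp only [e]
      rw [← sum_filter, sum_const, nsmul_eq_mul, filter_mem_eq_inter]
    · rw [if_neg h]
      refine sum_eq_zero fun x _ => if_neg fun h' => h ⟨h'.1, h'.2.1⟩
  rcases Nat.eq_or_lt_of_le hiK with rfl | hlt
  · refine Av_congr fun π _ => ?_
    split_ifs
    · simp
    · rfl
  · have h1 := Av_one (D := D) (i := i) (p := K) (a := i) le_rfl hlt hK.le G
    have e1 : Av D (fun π => if allA τ π i ∧ kB τ π = K then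
        (((pre π K \ pre π i) ∩ A (pre π i)).card : ℝ) * f (π.take i) (pre π K) (π.drop K)
          else 0) = ((K : ℝ) - i) * Av D (fun π => (∑ x ∈ pre π K \ pre π i,
            G (π.take i) (pre π K) (π.drop K) x) / ((K : ℝ) - i)) := by
      rw [← Av_mul]
      refine Av_congr fun π hπ => ?_
      rw [hsum π hπ]
      have : ((K : ℝ) - i) ≠ 0 := by
        have : (i : ℝ) < K := by exact_mod_cast hlt
        linarith
      field_simp
    have e2 : Av D (fun π => if allA τ π i ∧ kB τ π = K then
        ((K : ℝ) - i) * (((nx π i) ∩ A (pre π i)).card : ℝ) *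
          f (π.take i) (pre π K) (π.drop K) else 0) =
        ((K : ℝ) - i) * Av D (fun π => ∑ x ∈ nx π i, G (π.take i) (pre π K) (π.drop K) x) := by
      rw [← Av_mul]
      refine Av_congr fun π hπ => ?_
      rw [hsum π hπ]
      split_ifs
      · ring
      · simp
    rw [e1, e2, h1]

/-- splitting according to the last level before the final B-run -/
theorem Av_split_kB {τ : Finset α → Lab} {D : Finset α} (h0 : τ ∅ = Lab.A) (hB : τ D = Lab.B)
    (i : ℕ) (F : ℕ → List α → ℝ) :
    Av D (fun π => if allA τ π i ∧ i < D.card then F (kB τ π) π else 0) =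
      ∑ K ∈ Ico i D.card, Av D (fun π => if allA τ π i ∧ kB τ π = K then F K π else 0) := by
  rw [← Av_sum]
  refine Av_congr fun π hπ => ?_
  have hl := length_of_mem hπ
  have hBπ : τ π.toFinset = Lab.B := by rw [(mem_seqs_card.1 hπ).2]; exact hB
  by_cases hA : allA τ π i ∧ i < D.card
  · have h1 : i ≤ kA τ π := (allA_iff h0 (by omega)).1 hA.1
    have h2 := kA_le_kB hBπ h0
    have h3 := kB_lt hBπ (by omega)
    rw [if_pos hA, sum_eq_single_of_mem (kB τ π) (by rw [mem_Ico]; omega)]
    · rw [if_pos ⟨hA.1, rfl⟩]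
    · intro K _ hne
      rw [if_neg fun h => hne h.2.symm]
  · rw [if_neg hA]
    symm
    refine sum_eq_zero fun K hK => ?_
    rw [mem_Ico] at hK
    exact if_neg fun h => hA ⟨h.1, by omega⟩

/-- **first compensator** (note 1458, 1442): `E[|A_i ∩ V_K| f; i ≤ k] = E[(K - i) f; x_(i+1) ∈ A_i]`
for every function `f` of the first `i` elements, of `V_K` and of the order after `K`. -/
theorem comp1 {τ : Finset α → Lab} {D : Finset α} (h0 : τ ∅ = Lab.A) (hB : τ D = Lab.B)
    (A : Finset α → Finset α) (f : List α → Finset α → List α → ℝ) {i : ℕ} (hi : i < D.card) :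
    Av D (fun π => if allA τ π i then
      (((pre π (kB τ π) \ pre π i) ∩ A (pre π i)).card : ℝ) *
        f (π.take i) (pre π (kB τ π)) (π.drop (kB τ π)) else 0) =
    Av D (fun π => if allA τ π i then
      ((kB τ π : ℝ) - i) * (((nx π i) ∩ A (pre π i)).card : ℝ) *
        f (π.take i) (pre π (kB τ π)) (π.drop (kB τ π)) else 0) := by
  have e1 := Av_split_kB h0 hB i (fun K π => (((pre π K \ pre π i) ∩ A (pre π i)).card : ℝ) *
        f (π.take i) (pre π K) (π.drop K))
  have e2 := Av_split_kB h0 hB i (fun K π => ((K : ℝ) - i) *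
    (((nx π i) ∩ A (pre π i)).card : ℝ) * f (π.take i) (pre π K) (π.drop K))
  simp only [hi, and_true] at e1 e2
  rw [e1, e2]
  refine sum_congr rfl fun K hK => ?_
  rw [mem_Ico] at hK
  exact comp1_at h0 hB A f hK.1 hK.2

/-- the number of elements of `S` outside the last non-B set, as a sum over the levels -/
theorem card_out {τ : Finset α → Lab} {D : Finset α} {π : List α} (hπ : π ∈ seqs D.card D)
    (h0 : τ ∅ = Lab.A) (hB : τ D = Lab.B) {i : ℕ} (hi : i < D.card) (hA : allA τ π i)
    (S : Finset α) (g : ℕ → ℝ) :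
    ∑ p ∈ Ioc i D.card, (if allB τ π p then ∑ _x ∈ nx π (p - 1) ∩ S, g p else 0) =
      ∑ p ∈ Ioc (kB τ π) D.card, ((nx π (p - 1) ∩ S).card : ℝ) * g p := by
  have hl := length_of_mem hπ
  have hBπ : τ π.toFinset = Lab.B := by rw [(mem_seqs_card.1 hπ).2]; exact hB
  have h1 : i ≤ kA τ π := (allA_iff h0 (by omega)).1 hA
  have h2 := kA_le_kB hBπ h0
  have h3 := kB_lt hBπ (by omega)
  rw [← sum_filter]
  have e : (Ioc i D.card).filter (fun p => allB τ π p) = Ioc (kB τ π) D.card := by
    ext p
    simp only [mem_filter, mem_Ioc]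
    constructor
    · rintro ⟨h4, h5⟩
      exact ⟨(allB_iff (by omega) (by omega)).1 h5, h4.2⟩
    · rintro ⟨h4, h5⟩
      exact ⟨⟨by omega, h5⟩, (allB_iff (by omega) (by omega)).2 h4⟩
  rw [e]
  refine sum_congr rfl fun p _ => ?_
  rw [sum_const, nsmul_eq_mul]

/-- a set as the disjoint union of its elements in the order -/
theorem card_levels {D : Finset α} {π : List α} (hπ : π ∈ seqs D.card D) {K p : ℕ} (hKp : K ≤ p)
    (hp : p ≤ D.card) (S : Finset α) :
    ((pre π p \ pre π K) ∩ S).card = ∑ q ∈ Ioc K p, (nx π (q - 1) ∩ S).card := by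
  induction p, hKp using Nat.le_induction with
  | base => simp
  | succ p hKp ih =>
    have h1 := ih (by omega)
    have e1 : Ioc K (p + 1) = insert (p + 1) (Ioc K p) := by
      ext q
      simp only [mem_Ioc, mem_insert]
      omega
    rw [e1, sum_insert (by simp), ← h1]
    have e2 : (pre π (p + 1) \ pre π K) ∩ S =
        (nx π (p + 1 - 1) ∩ S) ∪ ((pre π p \ pre π K) ∩ S) := by
      have h2 : pre π p ⊆ pre π (p + 1) := pre_mono (Nat.le_succ p)
      have h3 : pre π K ⊆ pre π p := pre_mono hKp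
      unfold nx
      ext x
      simp only [mem_inter, mem_sdiff, mem_union, Nat.add_sub_cancel]
      constructor
      · rintro ⟨⟨h4, h5⟩, h6⟩
        by_cases h7 : x ∈ pre π p
        · exact Or.inr ⟨⟨h7, h5⟩, h6⟩
        · exact Or.inl ⟨⟨h4, h7⟩, h6⟩
      · rintro (⟨⟨h4, h5⟩, h6⟩ | ⟨⟨h4, h5⟩, h6⟩)
        · exact ⟨⟨h4, fun h7 => h5 (h3 h7)⟩, h6⟩
        · exact ⟨⟨h2 h4, h5⟩, h6⟩
    rw [e2, card_union_of_disjoint]
    rw [Finset.disjoint_left]
    intro x hx hx'
    unfold nx at hx
    simp only [mem_inter, mem_sdiff, Nat.add_sub_cancel] at hx hx'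
    exact hx.1.2 hx'.1.1

/-- **second compensator**, levelwise: `E[f; i ≤ k, p > K, x_p ∈ A_i] = E[f; p > K, x_(i+1) ∈ A_i]`
for every function `f` of the first `i` elements, of `V_p` and of the order after `p`. -/
theorem comp2_at {τ : Finset α → Lab} {D : Finset α} (A : Finset α → Finset α)
    (f : List α → Finset α → List α → ℝ) {i p : ℕ} (hip : i < p) (hp : p ≤ D.card) :
    Av D (fun π => if allA τ π i ∧ allB τ π p then
      ((nx π (p - 1) ∩ A (pre π i)).card : ℝ) * f (π.take i) (pre π p) (π.drop p) else 0) =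
    Av D (fun π => if allA τ π i ∧ allB τ π p then
      ((nx π i ∩ A (pre π i)).card : ℝ) * f (π.take i) (pre π p) (π.drop p) else 0) := by
  obtain ⟨G, hG⟩ : ∃ G : List α → Finset α → List α → α → ℝ, G = fun π1 U π3 x =>
    if allA τ π1 i ∧ aB τ U π3 ∧ x ∈ A π1.toFinset then f π1 U π3 else 0 := ⟨_, rfl⟩
  have hsum : ∀ π ∈ seqs D.card D, ∀ S : Finset α, ∑ x ∈ S, G (π.take i) (pre π p) (π.drop p) x =
      if allA τ π i ∧ allB τ π p then ((S ∩ A (pre π i)).card : ℝ) *
        f (π.take i) (pre π p) (π.drop p) else 0 := by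
    intro π hπ S
    have hl := length_of_mem hπ
    rw [hG, if_congr (and_congr allA_iff_take (allB_iff_aB (by omega))) rfl rfl]
    by_cases h : allA τ (π.take i) i ∧ aB τ (pre π p) (π.drop p)
    · rw [if_pos h]
      have e : ∀ x, (allA τ (π.take i) i ∧ aB τ (pre π p) (π.drop p) ∧
          x ∈ A (π.take i).toFinset) ↔ x ∈ A (pre π i) :=
        fun x => ⟨fun h' => h'.2.2, fun h' => ⟨h.1, h.2, h'⟩⟩
      simp only [e]
      rw [← sum_filter, sum_const, nsmul_eq_mul, filter_mem_eq_inter]
    · rw [if_neg h]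
      exact sum_eq_zero fun x _ => if_neg fun h' => h ⟨h'.1, h'.2.1⟩
  have h1 := Av_one_one (D := D) (i := i) (p := p) (a := p - 1) (b := i) (by omega) (by omega)
    le_rfl hip hp G
  rw [Av_congr (fun π hπ => hsum π hπ _), Av_congr (fun π hπ => hsum π hπ _)] at h1
  exact h1

/-- **second compensator** (note 1442, 1458, 1478):
`E[|A_i - V_K| f; i ≤ k] = E[(l - K) f; x_(i+1) ∈ A_i]` for every function `f` of the first `i`
elements. -/
theorem comp2 {τ : Finset α → Lab} {D : Finset α} (h0 : τ ∅ = Lab.A) (hB : τ D = Lab.B)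
    (A : Finset α → Finset α) (f : List α → ℝ) {i : ℕ} (hi : i < D.card) :
    Av D (fun π => if allA τ π i then
      (((D \ pre π (kB τ π)) ∩ A (pre π i)).card : ℝ) * f (π.take i) else 0) =
    Av D (fun π => if allA τ π i then
      ((D.card : ℝ) - kB τ π) * (((nx π i) ∩ A (pre π i)).card : ℝ) * f (π.take i) else 0) := by
  have e1 : Av D (fun π => if allA τ π i then
      (((D \ pre π (kB τ π)) ∩ A (pre π i)).card : ℝ) * f (π.take i) else 0) =
      ∑ p ∈ Ioc i D.card, Av D (fun π => if allA τ π i ∧ allB τ π p then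
        ((nx π (p - 1) ∩ A (pre π i)).card : ℝ) * f (π.take i) else 0) := by
    rw [← Av_sum]
    refine Av_congr fun π hπ => ?_
    have hl := length_of_mem hπ
    have hBπ : τ π.toFinset = Lab.B := by rw [(mem_seqs_card.1 hπ).2]; exact hB
    by_cases hA : allA τ π i
    · rw [if_pos hA]
      have h1 := card_out hπ h0 hB hi hA (A (pre π i)) (fun _ => f (π.take i))
      have h2 : ∑ p ∈ Ioc i D.card, (if allA τ π i ∧ allB τ π p then
          ((nx π (p - 1) ∩ A (pre π i)).card : ℝ) * f (π.take i) else 0) =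
          ∑ p ∈ Ioc i D.card, (if allB τ π p then
            ∑ _x ∈ nx π (p - 1) ∩ A (pre π i), f (π.take i) else 0) := by
        refine sum_congr rfl fun p _ => ?_
        simp only [hA, true_and, sum_const, nsmul_eq_mul]
      rw [h2, h1, ← sum_mul]
      congr 1
      have h3 := card_levels hπ (K := kB τ π) (p := D.card)
        (by have := kB_le τ π; omega) le_rfl (A (pre π i))
      rw [pre_card_of_mem hπ le_rfl] at h3
      exact_mod_cast h3
    · rw [if_neg hA]
      symm
      exact sum_eq_zero fun p _ => if_neg fun h => hA h.1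
  have e2 : Av D (fun π => if allA τ π i then
      ((D.card : ℝ) - kB τ π) * (((nx π i) ∩ A (pre π i)).card : ℝ) * f (π.take i) else 0) =
      ∑ p ∈ Ioc i D.card, Av D (fun π => if allA τ π i ∧ allB τ π p then
        ((nx π i ∩ A (pre π i)).card : ℝ) * f (π.take i) else 0) := by
    rw [← Av_sum]
    refine Av_congr fun π hπ => ?_
    have hl := length_of_mem hπ
    have hBπ : τ π.toFinset = Lab.B := by rw [(mem_seqs_card.1 hπ).2]; exact hB
    by_cases hA : allA τ π i
    · rw [if_pos hA]
      have h1 : i ≤ kA τ π := (allA_iff h0 (by omega)).1 hA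
      have h2 := kA_le_kB hBπ h0
      have h3 := kB_lt hBπ (by omega)
      simp only [hA, true_and]
      rw [← sum_filter]
      have e : (Ioc i D.card).filter (fun p => allB τ π p) = Ioc (kB τ π) D.card := by
        ext p
        simp only [mem_filter, mem_Ioc]
        constructor
        · rintro ⟨h4, h5⟩
          exact ⟨(allB_iff (by omega) (by omega)).1 h5, h4.2⟩
        · rintro ⟨h4, h5⟩
          exact ⟨⟨by omega, h5⟩, (allB_iff (by omega) (by omega)).2 h4⟩
      rw [e, sum_const, Nat.card_Ioc, nsmul_eq_mul, Nat.cast_sub (by omega)]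
      ring
    · rw [if_neg hA]
      symm
      exact sum_eq_zero fun p _ => if_neg fun h => hA h.1
  rw [e1, e2]
  refine sum_congr rfl fun p hp => ?_
  rw [mem_Ioc] at hp
  exact comp2_at A (fun π1 _ _ => f π1) hp.1 hp.2

end Blk

end R5
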