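import Pool.Agent.Work.MP_8b6acb_ti_helper76.Final

/-!
# The hypothesis `hW` of the two-sided inequality (helper76)

(i) at most two lights and no gains, (ii) any number of lights, full gains.
-/

namespace R5

namespace Two

open Finset T7

variable {α : Type} [DecidableEq α]

theorem rs_eq {l K p : ℕ} (hp : p ≤ K) (hK : K ≤ l) :
    (p : ℝ) * Lam K l + gg K p = Lev.rs l K p := by
  rcases Nat.eq_zero_or_pos K with hz | hz
  · have : p = 0 := by omega
    subst this
    simp [Lev.rs, gg]
  · rw [Lam_eq hz hK]
    unfold Lev.rs gg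
    have h1 : (p : ℝ) * Real.log ((l : ℝ) / K) =
        ∑ j ∈ range p, Real.log ((l : ℝ) / K) := by
      rw [sum_const, card_range, nsmul_eq_mul]
    rw [h1, ← sum_add_distrib]
    refine sum_congr rfl fun j hj => ?_
    rw [mem_range] at hj
    have hK' : (1 : ℝ) ≤ K := by exact_mod_cast hz
    have hl' : (K : ℝ) ≤ l := by exact_mod_cast hK
    have hj' : (j : ℝ) + 1 ≤ K := by exact_mod_cast (lt_of_lt_of_le hj hp)
    have hj0 : (0 : ℝ) ≤ j := Nat.cast_nonneg j
    rw [← Real.log_mul (by
      apply ne_of_gt
      exact div_pos (by linarith) (by linarith)) (by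
      apply ne_of_gt
      exact div_pos (by linarith) (by linarith))]
    congr 1
    have : (K : ℝ) - j ≠ 0 := by
      have : (0 : ℝ) < (K : ℝ) - j := by linarith
      exact this.ne'
    field_simp

theorem lamn_def (l : ℕ) : lamn l = Real.log ((l : ℝ) / ((l : ℝ) - 1)) := rfl

/-- `log (l / x) ≥ (l - x) * λ_l` -/
theorem log_ge {l x : ℕ} (hx : 1 ≤ x) (h : x ≤ l) :
    ((l : ℝ) - x) * lamn l ≤ Real.log ((l : ℝ) / x) := by
  have h1 := Lev.log_step (l := l) (x := x) (h := l - x) hx (by omega)
  rw [Nat.cast_sub h] at h1
  have e : (x : ℝ) + ((l : ℝ) - x) = l := by ring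
  rw [e] at h1
  exact h1

theorem gg_one (l : ℕ) : gg l 1 = 0 := by
  rcases Nat.eq_zero_or_pos l with rfl | h
  · simp [gg]
  · have : (l : ℝ) ≠ 0 := by positivity
    simp [gg, div_self this]

theorem gg_two (l : ℕ) : gg l 2 = lamn l := by
  have h := Lev.gg_succ l 1
  rw [gg_one, zero_add] at h
  rw [h, lamn_def]
  simp

/-- numbers: at most two lights, no gains -/
theorem lev_two {l K p o : ℕ} {v : ℝ} (hpo : p + o ≤ 2) (hp : p ≤ K) (hKo : K + o ≤ l)
    (hKl : K + 1 ≤ l)
    (hv : v ≤ if p = 0 then (if o = 0 then 0 else 1) else (l : ℝ) - K) :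
    (v - o) * lamn l ≤ Lev.rs l K p - gg l (p + o) := by
  have hlam := lamn_nonneg l
  have hKR : (K : ℝ) + 1 ≤ l := by exact_mod_cast hKl
  have hrs1 : 1 ≤ K → Lev.rs l K 1 = Real.log ((l : ℝ) / K) := by
    intro _
    simp [Lev.rs]
  have hrs2 : 2 ≤ K → Lev.rs l K 2 = Real.log ((l : ℝ) / K) +
      Real.log ((l : ℝ) / ((K - 1 : ℕ) : ℝ)) := by
    intro h
    unfold Lev.rs
    rw [sum_range_succ, sum_range_one, Nat.cast_sub (by omega)]
    simp
  have hrs0 : Lev.rs l K 0 = 0 := by simp [Lev.rs]
  have hg0 : gg l 0 = 0 := by simp [gg]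
  rcases Nat.lt_or_ge p 1 with h1 | h1
  · -- `p = 0`
    have hp0 : p = 0 := by omega
    subst hp0
    rw [if_pos rfl] at hv
    rw [hrs0, zero_add, zero_sub]
    have ho : o = 0 ∨ o = 1 ∨ o = 2 := by omega
    rcases ho with rfl | rfl | rfl
    · rw [if_pos rfl] at hv
      rw [hg0, neg_zero]
      push_cast
      nlinarith
    · rw [if_neg (by norm_num)] at hv
      rw [gg_one, neg_zero]
      push_cast
      nlinarith
    · rw [if_neg (by norm_num)] at hv
      rw [gg_two]
      push_cast
      nlinarith
  · rw [if_neg (by omega)] at hv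
    have hp' : p = 1 ∨ p = 2 := by omega
    rcases hp' with rfl | rfl
    · have h2 := log_ge (l := l) (x := K) hp (by omega)
      rw [hrs1 hp]
      have ho : o = 0 ∨ o = 1 := by omega
      rcases ho with rfl | rfl
      · rw [Nat.add_zero, gg_one]
        push_cast
        nlinarith
      · rw [gg_two]
        push_cast
        nlinarith
    · have ho : o = 0 := by omega
      subst ho
      have h2 := log_ge (l := l) (x := K) (by omega) (by omega)
      have h3 := log_ge (l := l) (x := K - 1) (by omega) (by omega)
      rw [Nat.cast_sub (by omega : 1 ≤ K)] at h3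
      rw [hrs2 hp, Nat.add_zero, gg_two, Nat.cast_sub (by omega : 1 ≤ K)]
      push_cast at h3 ⊢
      nlinarith

section path

variable {τ : Finset α → Lab} {D : Finset α} {π : List α}

theorem pn_le_kN (h0 : τ ∅ = Lab.A) (hD : τ D = Lab.B) (hπ : π ∈ seqs D.card D) (i : ℕ) :
    pn τ π i ≤ kN τ π := by
  have hN := kN_lt (τ := τ) (by rw [h0]; decide) hD hπ
  unfold pn AL
  refine (card_le_card (filter_subset _ _)).trans ?_
  refine (card_le_card sdiff_subset).trans ?_
  rw [card_pre_of_mem hπ hN.le]

theorem pn_le_an (hπ : π ∈ seqs D.card D) (i : ℕ) : pn τ π i ≤ an τ D π i := by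
  unfold pn an AL
  apply card_le_card
  intro x hx
  rw [mem_filter] at hx ⊢
  refine ⟨mem_sdiff.2 ⟨pre_subset_of_mem hπ _ (mem_sdiff.1 hx.1).1, (mem_sdiff.1 hx.1).2⟩, hx.2⟩

theorem out_card (hπ : π ∈ seqs D.card D) (i : ℕ) :
    an τ D π i - pn τ π i = ((D \ pre π (kN τ π)) ∩ AL τ D (pre π i)).card := by
  have h1 := an_eq (τ := τ) hπ (i := i)
  have h2 := pn_le_an (τ := τ) hπ i
  have h3 : ((an τ D π i - pn τ π i : ℕ) : ℝ) =
      (((D \ pre π (kN τ π)) ∩ AL τ D (pre π i)).card : ℝ) := by
    rw [Nat.cast_sub h2, h1]
  exact_mod_cast h3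

theorem out_le (h0 : τ ∅ = Lab.A) (hD : τ D = Lab.B) (hπ : π ∈ seqs D.card D) (i : ℕ) :
    kN τ π + (an τ D π i - pn τ π i) ≤ D.card := by
  have hN := kN_lt (τ := τ) (by rw [h0]; decide) hD hπ
  rw [out_card hπ i]
  have h1 := card_le_card (inter_subset_left (s₁ := D \ pre π (kN τ π))
    (s₂ := AL τ D (pre π i)))
  rw [card_sdiff_of_subset (pre_subset_of_mem hπ _), card_pre_of_mem hπ hN.le] at h1
  omega

/-- (i) at most two lights and no gains -/
theorem hW_two (h0 : τ ∅ = Lab.A) (hD : τ D = Lab.B)
    (hJ : (D.filter (fun x => τ {x} = Lab.B)).card ≤ 2) :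
    ∀ π ∈ seqs D.card D, ∀ i ≤ kA τ π, (vv τ D π i - on τ D π i) * lamn D.card ≤
      (pn τ π i : ℝ) * Lam (kN τ π) D.card - gg D.card (an τ D π i) +
        gg (kN τ π) (pn τ π i) + (fun _ : List α => (0 : ℝ)) π := by
  intro π hπ i hi
  have h0' : τ ∅ ≠ Lab.B := by rw [h0]; decide
  have hN := kN_lt h0' hD hπ
  have h1 := pn_le_kN h0 hD hπ i
  have h2 := pn_le_an (τ := τ) hπ i
  have h3 := out_le h0 hD hπ i
  have h4 : an τ D π i ≤ 2 := by
    refine le_trans ?_ hJ
    unfold an AL
    apply card_le_card
    intro x hx
    rw [mem_filter] at hx ⊢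
    exact ⟨(mem_sdiff.1 hx.1).1, hx.2.1⟩
  have h5 := rs_eq h1 hN.le
  have hKR : (1 : ℝ) ≤ (D.card : ℝ) - kN τ π := by
    have : (kN τ π : ℝ) + 1 ≤ D.card := by exact_mod_cast hN
    linarith
  have h6 := lev_two (l := D.card) (K := kN τ π) (p := pn τ π i)
    (o := an τ D π i - pn τ π i) (v := vv τ D π i) (by omega) h1 h3 hN (by
      unfold vv
      by_cases hp : pn τ π i = 0
      · rw [if_pos hp, if_pos hp]
        have e : an τ D π i - pn τ π i = an τ D π i := by omega
        rw [e]
        split_ifs <;> exact le_rfl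
      · rw [if_neg hp, if_neg hp]
        split_ifs with ha hb
        · linarith
        · linarith
        · exact le_rfl)
  have e1 : pn τ π i + (an τ D π i - pn τ π i) = an τ D π i := by omega
  have e2 : ((an τ D π i - pn τ π i : ℕ) : ℝ) = on τ D π i := by
    rw [Nat.cast_sub h2]
    rfl
  rw [e1, e2, ← h5] at h6
  simp only [add_zero]
  linarith

/-- the upper set of the object of a path -/
def U0 (τ : Finset α → Lab) (π : List α) : Finset α :=
  if τ (pre π (kN τ π)) = Lab.A then pre π (kN τ π + 1) else pre π (kN τ π)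

/-- the gain of the lights `L` on a path -/
noncomputable def gL (τ : Finset α → Lab) (D L : Finset α) (π : List α) : ℝ :=
  gg (L \ U0 τ π).card ((L \ U0 τ π) ∩ (D \ U0 τ π)).card

theorem U0_subset (hπ : π ∈ seqs D.card D) : U0 τ π ⊆ D := by
  unfold U0
  split_ifs
  · exact pre_subset_of_mem hπ _
  · exact pre_subset_of_mem hπ _

/-- (ii) any number of lights, full gains -/
theorem hW_gain (h0 : τ ∅ = Lab.A) (hD : τ D = Lab.B) (L : Finset α)
    (hL : ∀ x ∈ D, (x ∈ L ↔ τ {x} = Lab.B)) (hLl : L.card ≤ D.card) :
    ∀ π ∈ seqs D.card D, ∀ i ≤ kA τ π, (vv τ D π i - on τ D π i) * lamn D.card ≤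
      (pn τ π i : ℝ) * Lam (kN τ π) D.card - gg D.card (an τ D π i) +
        gg (kN τ π) (pn τ π i) + gL τ D L π := by
  intro π hπ i hi
  have h0' : τ ∅ ≠ Lab.B := by rw [h0]; decide
  have hD' : τ D ≠ Lab.A := by rw [hD]; decide
  have hN := kN_lt h0' hD hπ
  have hAN := kA_le_kN h0 hD hπ
  have h1 := pn_le_kN h0 hD hπ i
  have h2 := pn_le_an (τ := τ) hπ i
  have h3 := out_le h0 hD hπ i
  have h5 := rs_eq h1 hN.le
  have hlam := lamn_nonneg D.card
  have hKR : (1 : ℝ) ≤ (D.card : ℝ) - kN τ π := by
    have : (kN τ π : ℝ) + 1 ≤ D.card := by exact_mod_cast hN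
    linarith
  set l := D.card with hl
  set K := kN τ π with hK
  set p := pn τ π i with hp
  set o := an τ D π i - pn τ π i with ho
  have e1 : an τ D π i = o + p := by omega
  have e2 : on τ D π i = (o : ℝ) := by
    rw [ho, Nat.cast_sub h2]
    rfl
  -- the numbers of lights
  have hUD := U0_subset (τ := τ) hπ
  set b := L.card with hb
  set J := (L ∩ D).card with hJd
  set pN := (L ∩ U0 τ π).card with hpN
  have eb : (L \ U0 τ π).card = b - pN := by
    have := card_sdiff_add_card_inter L (U0 τ π)
    omega
  have eJ : ((L \ U0 τ π) ∩ (D \ U0 τ π)).card = J - pN := by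
    have e : (L \ U0 τ π) ∩ (D \ U0 τ π) = (L ∩ D) \ U0 τ π := by
      ext x
      simp only [mem_inter, mem_sdiff]
      tauto
    rw [e]
    have h := card_sdiff_add_card_inter (L ∩ D) (U0 τ π)
    have e' : (L ∩ D) ∩ U0 τ π = L ∩ U0 τ π := by
      ext x
      simp only [mem_inter]
      constructor
      · rintro ⟨⟨h1, _⟩, h2⟩
        exact ⟨h1, h2⟩
      · rintro ⟨h1, h2⟩
        exact ⟨⟨h1, hUD h2⟩, h2⟩
    rw [e'] at h
    omega
  have eg : gL τ D L π = gg (b - pN) (J - pN) := by
    unfold gL
    rw [eb, eJ]
  have hJb : J ≤ b := card_le_card inter_subset_left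
  -- live lights are in `L ∩ D`
  have hAL : AL τ D (pre π i) ⊆ L ∩ D := by
    intro x hx
    unfold AL at hx
    rw [mem_filter, mem_sdiff] at hx
    rw [mem_inter]
    exact ⟨(hL x hx.1.1).2 hx.2.1, hx.1.1⟩
  have hALi : ∀ x ∈ AL τ D (pre π i), x ∉ pre π i := by
    intro x hx
    unfold AL at hx
    rw [mem_filter, mem_sdiff] at hx
    exact hx.1.2
  have hpin : (pre π K \ pre π i) ∩ AL τ D (pre π i) ⊆ L ∩ pre π K := by
    intro x hx
    rw [mem_inter, mem_sdiff] at hx
    rw [mem_inter]
    exact ⟨(mem_inter.1 (hAL hx.2)).1, hx.1.1⟩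
  have hpe : p = ((pre π K \ pre π i) ∩ AL τ D (pre π i)).card := pn_eq hπ i
  have hoe : o = ((D \ pre π K) ∩ AL τ D (pre π i)).card := out_card hπ i
  rw [e1, e2, eg]
  have goal' : (vv τ D π i - o) * lamn l ≤ Lev.rs l K p - gg l (o + p) + gg (b - pN) (J - pN) := by
    by_cases hle : τ (pre π K) = Lab.A
    · -- the last object is an edge
      have hU : U0 τ π = pre π (K + 1) := by
        unfold U0
        rw [if_pos hle]
      have hv : vv τ D π i = if an τ D π i = 0 then 0 else 1 := by
        unfold vv
        rw [if_pos hle]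
      obtain ⟨y, hy⟩ := Blk.nx_single hπ hN
      have hym : y ∈ nx π K := by rw [hy]; exact mem_singleton_self y
      have hy1 := Blk.mem_nx.1 hym
      have hins := Blk.insert_nx hπ hN hym
      by_cases hyA : y ∈ AL τ D (pre π i)
      · -- `e_N` is a live light
        have hyo : y ∈ (D \ pre π K) ∩ AL τ D (pre π i) := by
          rw [mem_inter, mem_sdiff]
          exact ⟨⟨pre_subset_of_mem hπ _ hy1.1, hy1.2⟩, hyA⟩
        have ho1 : 1 ≤ o := by
          rw [hoe]
          exact card_pos.2 ⟨y, hyo⟩
        have hpp : p + 1 ≤ pN := by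
          have : insert y ((pre π K \ pre π i) ∩ AL τ D (pre π i)) ⊆ L ∩ U0 τ π := by
            intro x hx
            rw [mem_insert] at hx
            rw [hU]
            rcases hx with rfl | hx
            · rw [mem_inter]
              exact ⟨(mem_inter.1 (hAL hyA)).1, hy1.1⟩
            · have := hpin hx
              rw [mem_inter] at this ⊢
              exact ⟨this.1, pre_mono (Nat.le_succ K) this.2⟩
          have h7 := card_le_card this
          rw [card_insert_of_notMem (by
            intro h
            rw [mem_inter, mem_sdiff] at h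
            exact hy1.2 h.1.1), ← hpe] at h7
          exact h7
        have hoo : (o - 1) + pN ≤ J := by
          have hdis : Disjoint (((D \ pre π K) ∩ AL τ D (pre π i)).erase y) (L ∩ U0 τ π) := by
            rw [disjoint_left]
            intro x hx hx'
            rw [mem_erase, mem_inter, mem_sdiff] at hx
            rw [mem_inter, hU, ← hins, mem_insert] at hx'
            rcases hx'.2 with h | h
            · exact hx.1 h
            · exact hx.2.1.2 h
          have hsub : ((D \ pre π K) ∩ AL τ D (pre π i)).erase y ∪ (L ∩ U0 τ π) ⊆ L ∩ D := by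
            intro x hx
            rw [mem_union] at hx
            rcases hx with hx | hx
            · exact hAL (mem_inter.1 (mem_of_mem_erase hx)).2
            · rw [mem_inter] at hx ⊢
              exact ⟨hx.1, hUD hx.2⟩
          have h7 := card_le_card hsub
          rw [card_union_of_disjoint hdis, card_erase_of_mem hyo, ← hoe] at h7
          exact h7
        have h8 := Lev.level_live (l := l) (K := K) (o := o - 1) (p := p) (b := b) (J := J)
          (pN := pN) (by omega) h1 hpp hoo hJb (by omega)
        have e3 : o - 1 + 1 + p = o + p := by omega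
        rw [e3, ← lamn_def] at h8
        have h9 : an τ D π i ≠ 0 := by omega
        rw [hv, if_neg h9]
        rw [Nat.cast_sub ho1] at h8
        push_cast at h8
        linarith
      · -- `e_N` is not a live light
        have hpp : p ≤ pN := by
          rw [hpe]
          apply card_le_card
          intro x hx
          have := hpin hx
          rw [hU]
          rw [mem_inter] at this ⊢
          exact ⟨this.1, pre_mono (Nat.le_succ K) this.2⟩
        have hoo : o + pN ≤ J := by
          have hdis : Disjoint ((D \ pre π K) ∩ AL τ D (pre π i)) (L ∩ U0 τ π) := by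
            rw [disjoint_left]
            intro x hx hx'
            rw [mem_inter, mem_sdiff] at hx
            rw [mem_inter, hU, ← hins, mem_insert] at hx'
            rcases hx'.2 with h | h
            · exact hyA (h ▸ hx.2)
            · exact hx.1.2 h
          have hsub : ((D \ pre π K) ∩ AL τ D (pre π i)) ∪ (L ∩ U0 τ π) ⊆ L ∩ D := by
            intro x hx
            rw [mem_union] at hx
            rcases hx with hx | hx
            · exact hAL (mem_inter.1 hx).2
            · rw [mem_inter] at hx ⊢
              exact ⟨hx.1, hUD hx.2⟩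
          have h7 := card_le_card hsub
          rw [card_union_of_disjoint hdis, ← hoe] at h7
          exact h7
        rcases Nat.eq_zero_or_pos o with hoz | hop
        · -- no outer light
          rcases Nat.eq_zero_or_pos p with hpz | hpp'
          · have h9 : an τ D π i = 0 := by omega
            rw [hv, if_pos h9, hoz, hpz]
            have h10 : 0 ≤ gg (b - pN) (J - pN) := Lev.gg_nonneg (by omega)
            simp only [Nat.cast_zero, sub_zero, zero_mul, Nat.add_zero]
            have h11 : Lev.rs l K 0 = 0 := by simp [Lev.rs]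
            have h12 : gg l 0 = 0 := by simp [gg]
            rw [h11, h12]
            linarith
          · have h8 := Lev.level_surplus (l := l) (K := K) (p := p) (b := b) (J := J) (pN := pN)
              hN h1 (by omega) hJb
            have h9 : an τ D π i ≠ 0 := by omega
            rw [hv, if_neg h9, hoz]
            have h10 : lamn l ≤ Real.log ((l : ℝ) / ((l : ℝ) - p)) := by
              rw [lamn_def]
              have hp1 : (1 : ℝ) ≤ p := by exact_mod_cast hpp'
              have hpK : (p : ℝ) ≤ K := by exact_mod_cast h1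
              have hKl : (K : ℝ) + 1 ≤ l := by exact_mod_cast hN
              apply Real.log_le_log (div_pos (by linarith) (by linarith))
              apply div_le_div_of_nonneg_left (by linarith) (by linarith) (by linarith)
            simp only [Nat.cast_zero, sub_zero, one_mul, zero_add]
            linarith
        · have hKo : K + o + 1 ≤ l := by
            have hdis : ((D \ pre π K) ∩ AL τ D (pre π i)) ⊆ D \ pre π (K + 1) := by
              intro x hx
              rw [mem_inter, mem_sdiff] at hx
              rw [mem_sdiff, ← hins, mem_insert]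
              refine ⟨hx.1.1, ?_⟩
              rintro (h | h)
              · exact hyA (h ▸ hx.2)
              · exact hx.1.2 h
            have h7 := card_le_card hdis
            rw [← hoe, card_sdiff_of_subset (pre_subset_of_mem hπ _),
              card_pre_of_mem hπ (by omega : K + 1 ≤ D.card)] at h7
            omega
          have h8 := Lev.level_dead (l := l) (K := K) (o := o) (p := p) (b := b) (J := J)
            (pN := pN) hKo h1 hpp hoo hJb hLl
          have h9 : an τ D π i ≠ 0 := by omega
          rw [hv, if_neg h9]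
          have h10 : (1 : ℝ) ≤ o := by exact_mod_cast hop
          nlinarith
    · -- the last object is a vertex
      have hU : U0 τ π = pre π K := by
        unfold U0
        rw [if_neg hle]
      have hpp : p ≤ pN := by
        rw [hpe]
        apply card_le_card
        rw [hU]
        exact hpin
      have hoo : o + pN ≤ J := by
        have hdis : Disjoint ((D \ pre π K) ∩ AL τ D (pre π i)) (L ∩ U0 τ π) := by
          rw [disjoint_left]
          intro x hx hx'
          rw [mem_inter, mem_sdiff] at hx
          rw [mem_inter, hU] at hx'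
          exact hx.1.2 hx'.2
        have hsub : ((D \ pre π K) ∩ AL τ D (pre π i)) ∪ (L ∩ U0 τ π) ⊆ L ∩ D := by
          intro x hx
          rw [mem_union] at hx
          rcases hx with hx | hx
          · exact hAL (mem_inter.1 hx).2
          · rw [mem_inter] at hx ⊢
            exact ⟨hx.1, hUD hx.2⟩
        have h7 := card_le_card hsub
        rw [card_union_of_disjoint hdis, ← hoe] at h7
        exact h7
      have h8 := Lev.level_dead_lin (l := l) (K := K) (o := o) (p := p) (b := b) (J := J)
        (pN := pN) (h := l - K - o) (by omega) h1 hpp hoo hJb hLl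
      rw [← lamn_def] at h8
      have hh : ((l - K - o : ℕ) : ℝ) = (l : ℝ) - K - o := by
        rw [Nat.cast_sub (by omega), Nat.cast_sub (by omega)]
      rw [hh] at h8
      unfold vv
      rw [if_neg hle]
      split_ifs with hpz haz
      · -- `p = 0`, no light
        have hoz : o = 0 := by omega
        have hpz' : p = 0 := hpz
        rw [hpz'] at h8
        rw [hpz', hoz]
        rw [hoz] at h8
        simp only [Nat.cast_zero, zero_mul, sub_zero] at h8 ⊢
        linarith
      · have hpz' : p = 0 := hpz
        rw [hpz'] at h8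
        rw [hpz']
        have hop : 1 ≤ o := by omega
        have h10 : (1 : ℝ) ≤ o := by exact_mod_cast hop
        simp only [Nat.cast_zero, zero_mul] at h8 ⊢
        nlinarith
      · have hp1 : 1 ≤ p := Nat.one_le_iff_ne_zero.2 hpz
        have h10 : (1 : ℝ) ≤ p := by exact_mod_cast hp1
        have h11 : (0 : ℝ) ≤ (l : ℝ) - K - o := by
          rw [← hh]
          exact Nat.cast_nonneg _
        have h12 : 0 ≤ ((p : ℝ) - 1) * (((l : ℝ) - K - o) * lamn l) :=
          mul_nonneg (by linarith) (mul_nonneg h11 hlam)
        nlinarith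
  linarith

end path

end Two

end R5
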