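import Pool.Agent.Work.MP_8b6acb_ti_helper76.UU

/-!
# Full gains on both sides: assembly for any kernel with the T-lemma (helper76)
-/

namespace R5

namespace Two

open Finset T7

variable {α : Type} [DecidableEq α]

theorem gm_lmk (L D U : Finset α) :
    gm (lmk L) D U = gg (L \ U).card ((L \ U) ∩ (D \ U)).card := by
  unfold gm lmk
  by_cases h : 2 ≤ (L \ U).card
  · rw [if_pos h]
  · rw [if_neg h]
    have h1 : gg (∅ : Finset α).card ((∅ : Finset α) ∩ (D \ U)).card = 0 := by simp [gg]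
    rw [h1]
    have h2 : ((L \ U) ∩ (D \ U)).card ≤ (L \ U).card := card_le_card inter_subset_left
    have h3 : ((L \ U) ∩ (D \ U)).card = 0 ∨ ((L \ U) ∩ (D \ U)).card = 1 := by omega
    rcases h3 with h3 | h3
    · rw [h3]
      simp [gg]
    · rw [h3, gg_one]

/-- the gain of one side on a path, first exit form -/
noncomputable def gT (τ : Finset α → Lab) (D L : Finset α) (π : List α) : ℝ :=
  iE τ π (kA τ π) * gm (lmk L) D (D \ pre π (kA τ π)) +
    iX τ π (kA τ π) * gm (lmk L) D (D \ pre π (kA τ π + 1))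

section path

variable {τ : Finset α → Lab} {D : Finset α} {π : List α}

theorem iX_eq (h0 : τ ∅ = Lab.A) (hD : τ D = Lab.B) (hπ : π ∈ seqs D.card D) :
    iX τ π (kA τ π) = 1 - iE τ π (kA τ π) := by
  have hD' : τ D ≠ Lab.A := by rw [hD]; decide
  have h1 := (allA_iff h0 hD' hπ (kA τ π)).2 le_rfl
  have h2 := lab_kA h0 hD' hπ
  rcases h3 : τ (pre π (kA τ π + 1)) with _ | _ | _
  · exact absurd h3 h2
  · rw [iE_pos ⟨h1, h3⟩, iX_neg, sub_self]
    intro h
    rw [h.2] at h3
    exact absurd h3 (by decide)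
  · rw [iX_pos ⟨h1, h3⟩, iE_neg, sub_zero]
    intro h
    rw [h.2] at h3
    exact absurd h3 (by decide)

theorem gL_dual (h0 : τ ∅ = Lab.A) (hD : τ D = Lab.B) (hπ : π ∈ seqs D.card D) (L : Finset α) :
    gL (dual τ D) D L π.reverse = gT τ D L π := by
  have hD' : τ D ≠ Lab.A := by rw [hD]; decide
  have hk := kA_lt h0 hD' hπ
  have k2 := kN_dual h0 hD hπ
  have x2 := lx_dual h0 hD hπ
  have e1 : pre π.reverse (kN (dual τ D) π.reverse) = D \ pre π (kA τ π + 1) := by
    rw [k2, pre_reverse hπ (by omega)]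
    have e : D.card - (D.card - 1 - kA τ π) = kA τ π + 1 := by omega
    rw [e]
  have e2 : pre π.reverse (kN (dual τ D) π.reverse + 1) = D \ pre π (kA τ π) := by
    rw [k2, pre_reverse hπ (by omega)]
    have e : D.card - (D.card - 1 - kA τ π + 1) = kA τ π := by omega
    rw [e]
  unfold gT gL
  rw [iX_eq h0 hD hπ, gm_lmk, gm_lmk]
  unfold lx at x2
  by_cases h3 : dual τ D (pre π.reverse (kN (dual τ D) π.reverse)) = Lab.A
  · rw [if_pos h3] at x2
    have h4 : iE τ π (kA τ π) = 1 := by linarith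
    have h5 : U0 (dual τ D) π.reverse = D \ pre π (kA τ π) := by
      unfold U0
      rw [if_pos h3, e2]
    rw [h4, h5]
    ring
  · rw [if_neg h3] at x2
    have h4 : iE τ π (kA τ π) = 0 := by linarith
    have h5 : U0 (dual τ D) π.reverse = D \ pre π (kA τ π + 1) := by
      unfold U0
      rw [if_neg h3, e1]
    rw [h4, h5]
    ring

theorem kN_dual_dual (h0 : τ ∅ = Lab.A) (hD : τ D = Lab.B) (hπ : π ∈ seqs D.card D) :
    kN (dual (dual τ D) D) π = kN τ π := by
  have h0' : τ ∅ ≠ Lab.B := by rw [h0]; decide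
  have hN := kN_lt h0' hD hπ
  have h1 := kN_dual (dual_empty hD) (dual_top h0) (reverse_mem hπ)
  rw [List.reverse_reverse, kA_dual h0 hD hπ] at h1
  omega

theorem gL_dual_dual (h0 : τ ∅ = Lab.A) (hD : τ D = Lab.B) (hπ : π ∈ seqs D.card D)
    (L : Finset α) : gL (dual (dual τ D) D) D L π = gL τ D L π := by
  have h1 := kN_dual_dual h0 hD hπ
  have h2 : U0 (dual (dual τ D) D) π = U0 τ π := by
    unfold U0
    rw [h1]
    rw [if_congr (by rw [dual_dual (pre_subset_of_mem hπ _)]) rfl rfl]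
  unfold gL
  rw [h2]

end path

/-- **assembly with full gains**: `T`, `S` = the two sides of the value (times `l + 1`) of any
kernel with the first exit form of the gains and the charges, re-entry and no-exit credits of
CT0' -/
theorem both_gain {τ : Finset α → Lab} {D : Finset α} (L L' : Finset α) (T S : ℝ)
    (h0 : τ ∅ = Lab.A) (hD : τ D = Lab.B)
    (hJ : ∃ x ∈ D, τ {x} = Lab.B) (hJ' : ∃ x ∈ D, τ (D.erase x) = Lab.A)
    (hL : ∀ x ∈ D, (x ∈ L ↔ τ {x} = Lab.B)) (hL' : ∀ x ∈ D, (x ∈ L' ↔ τ (D.erase x) = Lab.A))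
    (hLl : L.card ≤ D.card) (hLl' : L'.card ≤ D.card)
    (hT : Av D (fun π => lowT0 τ D π + ((D.card : ℝ) - kN τ π) * gT τ D L' π) ≤ T)
    (hS : Av D (fun π => lowT0 (dual τ D) D π +
      ((D.card : ℝ) - kN (dual τ D) π) * gT (dual τ D) D L π) ≤ S) :
    lamn D.card * Av D (sur τ D) ≤ T + S := by
  have d0 := dual_empty hD
  have dD := dual_top (D := D) h0
  have hD' : τ D ≠ Lab.A := by rw [hD]; decide
  have h0' : τ ∅ ≠ Lab.B := by rw [h0]; decide
  have hdl : ∀ x ∈ D, (dual τ D {x} = Lab.B ↔ τ (D.erase x) = Lab.A) := by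
    intro x _
    rw [dual_flip, flip_eq_B, sdiff_singleton_eq_erase]
  have hJ'' : ∃ x ∈ D, dual τ D {x} = Lab.B := by
    obtain ⟨x, hx, hA⟩ := hJ'
    exact ⟨x, hx, (hdl x hx).2 hA⟩
  have hLd : ∀ x ∈ D, (x ∈ L' ↔ dual τ D {x} = Lab.B) := by
    intro x hx
    rw [hL' x hx, hdl x hx]
  have h1 := both h0 hD hJ hJ'' (gL τ D L) (gL (dual τ D) D L') (hW_gain h0 hD L hL hLl)
    (hW_gain d0 dD L' hLd hLl')
  refine h1.trans ?_
  -- the two path functionals
  have e1 : Av D (TP τ D (gL τ D L)) = Av D (lowT0 τ D) +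
      Av D (fun π => ((kA τ π : ℝ) + 1) * gL τ D L π) := by
    rw [← Av_add]
    refine Av_congr fun π _ => ?_
    rw [← TP_zero]
    unfold TP
    ring
  have e2 : Av D (TP (dual τ D) D (gL (dual τ D) D L')) = Av D (lowT0 (dual τ D) D) +
      Av D (fun π => ((kA (dual τ D) π : ℝ) + 1) * gL (dual τ D) D L' π) := by
    rw [← Av_add]
    refine Av_congr fun π _ => ?_
    rw [← TP_zero]
    unfold TP
    ring
  have e3 : Av D (fun π => ((kA (dual τ D) π : ℝ) + 1) * gL (dual τ D) D L' π) =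
      Av D (fun π => ((D.card : ℝ) - kN τ π) * gT τ D L' π) := by
    rw [← Av_reverse D (fun π => ((kA (dual τ D) π : ℝ) + 1) * gL (dual τ D) D L' π)]
    refine Av_congr fun π hπ => ?_
    have hN := kN_lt h0' hD hπ
    rw [gL_dual h0 hD hπ, kA_dual h0 hD hπ, Nat.cast_sub (by omega), Nat.cast_sub (by omega)]
    push_cast
    ring
  have e4 : Av D (fun π => ((kA τ π : ℝ) + 1) * gL τ D L π) =
      Av D (fun π => ((D.card : ℝ) - kN (dual τ D) π) * gT (dual τ D) D L π) := by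
    rw [← Av_reverse D (fun π => ((D.card : ℝ) - kN (dual τ D) π) * gT (dual τ D) D L π)]
    refine Av_congr fun π hπ => ?_
    have hk := kA_lt h0 hD' hπ
    have h2 := gL_dual d0 dD (reverse_mem hπ) L
    rw [List.reverse_reverse] at h2
    rw [← h2, gL_dual_dual h0 hD hπ, kN_dual h0 hD hπ, Nat.cast_sub (by omega),
      Nat.cast_sub (by omega)]
    push_cast
    ring
  rw [Av_add] at hT hS
  rw [e1, e2, e3, e4]
  linarith

/-! ### comparison with the cost -/

theorem lamn_ge {l : ℕ} (hl : 2 ≤ l) : 1 / (l : ℝ) ≤ lamn l := by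
  have h1 : (2 : ℝ) ≤ l := by exact_mod_cast hl
  rw [lamn_def]
  have h2 := Real.one_sub_inv_le_log_of_pos (x := (l : ℝ) / ((l : ℝ) - 1))
    (div_pos (by linarith) (by linarith))
  refine le_trans (le_of_eq ?_) h2
  rw [inv_div]
  have : (l : ℝ) ≠ 0 := by linarith
  field_simp
  ring

/-- the surplus is at least the cost `(u [fv] + w [lv]) / l ^ 2` -/
theorem cost_le {τ : Finset α → Lab} {D : Finset α} {π : List α} (h0 : τ ∅ = Lab.A)
    (hD : τ D = Lab.B) (hl : 2 ≤ D.card) (hπ : π ∈ seqs D.card D) :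
    (((kA τ π : ℝ) + 1) * (1 - iE τ π (kA τ π)) + ((D.card : ℝ) - kN τ π) * lx τ π) /
      (D.card : ℝ) ^ 2 ≤ lamn D.card * sur τ D π := by
  have hD' : τ D ≠ Lab.A := by rw [hD]; decide
  have h0' : τ ∅ ≠ Lab.B := by rw [h0]; decide
  have hk := kA_lt h0 hD' hπ
  have hN := kN_lt h0' hD hπ
  have hlR : (2 : ℝ) ≤ D.card := by exact_mod_cast hl
  have hlam := lamn_ge hl
  have hkR : (kA τ π : ℝ) + 1 ≤ D.card := by exact_mod_cast hk
  have hNR : (kN τ π : ℝ) + 1 ≤ D.card := by exact_mod_cast hN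
  have hk0 : (0 : ℝ) ≤ kA τ π := Nat.cast_nonneg _
  have hN0 : (0 : ℝ) ≤ kN τ π := Nat.cast_nonneg _
  have hi : iE τ π (kA τ π) = 0 ∨ iE τ π (kA τ π) = 1 := by
    unfold iE
    split_ifs
    · exact Or.inr rfl
    · exact Or.inl rfl
  have hl2 : 1 / (D.card : ℝ) = (D.card : ℝ) / (D.card : ℝ) ^ 2 := by
    have : (D.card : ℝ) ≠ 0 := by linarith
    field_simp
  have key : ∀ x y : ℝ, x ≤ D.card → 1 ≤ y → x / (D.card : ℝ) ^ 2 ≤ lamn D.card * y := by
    intro x y hx hy
    have h3 : x / (D.card : ℝ) ^ 2 ≤ 1 / (D.card : ℝ) := by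
      rw [hl2]
      exact div_le_div_of_nonneg_right hx (by positivity)
    have h4 : (0 : ℝ) < 1 / (D.card : ℝ) := by positivity
    nlinarith
  unfold sur
  rcases hi with hi | hi <;> rcases lx_cases τ π with hx | hx
  · rw [hi, hx]
    have := key ((kA τ π : ℝ) + 1) ((D.card : ℝ) - kN τ π) hkR (by linarith)
    simpa using this
  · rw [hi, hx]
    have h5 := lt_of_fv h0 hD hπ hi
    have h6 : (kA τ π : ℝ) + 1 ≤ kN τ π := by exact_mod_cast h5
    have := key (((kA τ π : ℝ) + 1) + ((D.card : ℝ) - kN τ π)) 2 (by linarith) (by norm_num)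
    simpa using this
  · rw [hi, hx]
    simp
  · rw [hi, hx]
    have := key ((D.card : ℝ) - kN τ π) ((kA τ π : ℝ) + 1) (by linarith) (by linarith)
    simpa using this

end Two

end R5
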