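import Pool.Agent.Work.MP_8b6acb_ti_helper76.SetAsm
import Pool.Agent.Work.MP_8b6acb_tk.Side0K
import Pool.Agent.Work.MP_8b6acb_fs.Interface

/-!
# The set kernel: the typewise inequality with light elements on both sides (helper76)

`surplus_le`: the value without the cost is at least `lamn l * Av (sur)` over `l + 1`.
`VAL_nonneg`: with the bound of the cost by the fraction of vertex exits.
-/

namespace R5

namespace Two

open Finset T7

variable {α : Type} [DecidableEq α]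

theorem gm_sdiff (L D U : Finset α) : gm (fun U => L \ U) D U = gm (lmk L) D U := by
  rw [gm_lmk]
  rfl

theorem gT_K {τ : Finset α → Lab} {D : Finset α} {π : List α} (h0 : τ ∅ = Lab.A)
    (hD : τ D = Lab.B) (hπ : π ∈ seqs D.card D) (L : Finset α) :
    K.gT τ D (fun U => L \ U) π = ((D.card : ℝ) - kN τ π) * gT τ D L π := by
  have hD' : τ D ≠ Lab.A := by rw [hD]; decide
  obtain ⟨e1, e2⟩ := K.exit_kA h0 hD' hπ
  unfold K.gT gT
  rw [e1, e2, gm_sdiff, gm_sdiff]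
  split_ifs <;> ring

/-- **the value of the set kernel without the cost**, light elements on both sides -/
theorem surplus_le {τ : Finset α → Lab} {D : Finset α} (L L' : Finset α)
    (ρ ρ' : Finset α → α → ℝ) (h0 : τ ∅ = Lab.A) (hD : τ D = Lab.B)
    (hJ : ∃ x ∈ D, τ {x} = Lab.B) (hJ' : ∃ x ∈ D, τ (D.erase x) = Lab.A)
    (hL : ∀ x ∈ D, (x ∈ L ↔ τ {x} = Lab.B)) (hL' : ∀ x ∈ D, (x ∈ L' ↔ τ (D.erase x) = Lab.A))
    (hLl : L.card ≤ D.card) (hLl' : L'.card ≤ D.card)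
    (hT : K.StateK τ D ρ') (hS : K.StateK (dual τ D) D ρ) :
    lamn D.card * Av D (sur τ D) ≤ ((D.card : ℝ) + 1) *
      (K.vset τ D ρ L + K.vset (dual τ D) D ρ' L' -
        Real.log (D.card : ℝ) * (PEL τ D + PEL (dual τ D) D)) := by
  have d0 := dual_empty hD
  have dD := dual_top (D := D) h0
  have h1 := K.T_side0_K τ D ρ' (fun U => L' \ U) h0 hD hT
  have h2 := K.T_side0_K (dual τ D) D ρ (fun U => L \ U) d0 dD hS
  rw [PEL_dual_dual] at h2
  unfold K.SGs at h1 h2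
  rw [K.SGx_dual_dual] at h2
  have e1 : Av D (fun π => lowT0 τ D π + K.gT τ D (fun U => L' \ U) π) =
      Av D (fun π => lowT0 τ D π + ((D.card : ℝ) - kN τ π) * gT τ D L' π) :=
    Av_congr fun π hπ => by rw [gT_K h0 hD hπ]
  have e2 : Av D (fun π => lowT0 (dual τ D) D π + K.gT (dual τ D) D (fun U => L \ U) π) =
      Av D (fun π => lowT0 (dual τ D) D π +
        ((D.card : ℝ) - kN (dual τ D) π) * gT (dual τ D) D L π) :=
    Av_congr fun π hπ => by rw [gT_K d0 dD hπ]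
  rw [e1] at h1
  rw [e2] at h2
  have h3 := both_gain L L' _ _ h0 hD hJ hJ' hL hL' hLl hLl' h1 h2
  refine h3.trans (le_of_eq ?_)
  unfold K.vset K.SGs
  ring

/-- the bound of the cost by the vertex exits -/
def CostV (τ : Finset α → Lab) (D : Finset α) : Prop :=
  ((D.card : ℝ) + 1) * COST1 τ D ≤ Av D (fun π =>
    (((kA τ π : ℝ) + 1) * (1 - iE τ π (kA τ π)) + ((D.card : ℝ) - kN τ π) * lx τ π) /
      (D.card : ℝ) ^ 2)

/-- **the typewise inequality for the set kernel**, light elements on both sides -/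
theorem VAL_nonneg {τ : Finset α → Lab} {D : Finset α} (L L' : Finset α)
    (ρ ρ' : Finset α → α → ℝ) (h0 : τ ∅ = Lab.A) (hD : τ D = Lab.B) (hl : 2 ≤ D.card)
    (hJ : ∃ x ∈ D, τ {x} = Lab.B) (hJ' : ∃ x ∈ D, τ (D.erase x) = Lab.A)
    (hL : ∀ x ∈ D, (x ∈ L ↔ τ {x} = Lab.B)) (hL' : ∀ x ∈ D, (x ∈ L' ↔ τ (D.erase x) = Lab.A))
    (hLl : L.card ≤ D.card) (hLl' : L'.card ≤ D.card)
    (hT : K.StateK τ D ρ') (hS : K.StateK (dual τ D) D ρ) (hC : CostV τ D) :
    0 ≤ K.VAL τ D (K.vset τ D ρ L) (K.vset (dual τ D) D ρ' L') := by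
  have h1 := surplus_le L L' ρ ρ' h0 hD hJ hJ' hL hL' hLl hLl' hT hS
  have h2 : Av D (fun π =>
      (((kA τ π : ℝ) + 1) * (1 - iE τ π (kA τ π)) + ((D.card : ℝ) - kN τ π) * lx τ π) /
        (D.card : ℝ) ^ 2) ≤ lamn D.card * Av D (sur τ D) := by
    rw [← Av_mul]
    exact Av_mono fun π hπ => cost_le h0 hD hl hπ
  unfold CostV at hC
  have hp : (0 : ℝ) < (D.card : ℝ) + 1 := by positivity
  have h3 : ((D.card : ℝ) + 1) * COST1 τ D ≤ ((D.card : ℝ) + 1) *
      (K.vset τ D ρ L + K.vset (dual τ D) D ρ' L' -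
        Real.log (D.card : ℝ) * (PEL τ D + PEL (dual τ D) D)) := hC.trans (h2.trans h1)
  have h4 := le_of_mul_le_mul_left h3 hp
  unfold K.VAL
  linarith

end Two

end R5
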