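import Pool.Agent.Work.MP_8b6acb_ti_helper76.One

/-!
# The two-sided path inequality for `J, J' ≥ 1`, vertices included (helper76)

Note 1523 of the R5 room (helper25).
-/

namespace R5

namespace Two

open Finset T7

variable {α : Type} [DecidableEq α]

/-- the number of lights of level `i` outside `V_K` -/
noncomputable def on (τ : Finset α → Lab) (D : Finset α) (π : List α) (i : ℕ) : ℝ :=
  (an τ D π i : ℝ) - pn τ π i

/-- the lower bound of one side after the compensators, in units of `lamn l` -/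
noncomputable def LB (τ : Finset α → Lab) (D : Finset α) (v : List α → ℕ → ℝ) (π : List α) : ℝ :=
  ∑ i ∈ range (kA τ π + 1), v π i - ((D.card : ℝ) - kN τ π) * lv τ D π +
    ((kN τ π : ℝ) - kA τ π) * ((D.card : ℝ) - kN τ π) * nl τ D π +
    ((D.card : ℝ) - kN τ π) * n00 τ D π * iE τ π (kA τ π)

theorem lamn_nonneg (m : ℕ) : 0 ≤ lamn m := by
  unfold lamn
  rcases Nat.lt_or_ge m 2 with h | h
  · interval_cases m <;> simp
  · have h1 : (2 : ℝ) ≤ m := by exact_mod_cast h
    apply Real.log_nonneg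
    rw [one_le_div (by linarith)]
    linarith

theorem lamn_anti {m n : ℕ} (hm : 2 ≤ m) (h : m ≤ n) : lamn n ≤ lamn m := by
  unfold lamn
  have h1 : (2 : ℝ) ≤ m := by exact_mod_cast hm
  have h2 : (m : ℝ) ≤ n := by exact_mod_cast h
  apply Real.log_le_log (div_pos (by linarith) (by linarith))
  rw [div_le_div_iff₀ (by linarith) (by linarith)]
  nlinarith

theorem Lam_ge {K l : ℕ} (hK : 1 ≤ K) (h : K ≤ l) :
    ((l : ℝ) - K) * lamn l ≤ Lam K l := by
  unfold Lam
  have h1 : ((l : ℝ) - K) * lamn l = ∑ j ∈ Ioc K l, lamn l := by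
    rw [sum_const, Nat.card_Ioc, nsmul_eq_mul, Nat.cast_sub h]
  rw [h1]
  refine sum_le_sum fun j hj => ?_
  rw [mem_Ioc] at hj
  exact lamn_anti (by omega) hj.2

/-- **ONE SIDE** -/
theorem one_side {τ : Finset α → Lab} {D : Finset α} (h0 : τ ∅ = Lab.A) (hD : τ D = Lab.B)
    (g : List α → ℝ) (v : List α → ℕ → ℝ)
    (hW : ∀ π ∈ seqs D.card D, ∀ i ≤ kA τ π, (v π i - on τ D π i) * lamn D.card ≤
      (pn τ π i : ℝ) * Lam (kN τ π) D.card - gg D.card (an τ D π i) +
        gg (kN τ π) (pn τ π i) + g π) :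
    lamn D.card * Av D (LB τ D v) ≤ Av D (TP τ D g) := by
  have hD' : τ D ≠ Lab.A := by rw [hD]; decide
  have h0' : τ ∅ ≠ Lab.B := by rw [h0]; decide
  set l := D.card with hl
  -- the first compensator
  have c1 := compA h0 hD (AL τ D) (AL_exit τ D) (fun K => Lam K l)
  -- the second compensator
  have c2 := compB h0 hD (AL τ D) (AL_exit τ D)
  have e1 : Av D (TP τ D g) = Av D (fun π =>
      nl τ D π * (((kN τ π : ℝ) - kA τ π) * Lam (kN τ π) l) +
      iE τ π (kA τ π) * ((n00 τ D π : ℝ) * Lam (kN τ π) l) +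
      ∑ i ∈ range (kA τ π + 1), ((pn τ π i : ℝ) * Lam (kN τ π) l - gg l (an τ D π i) +
        gg (kN τ π) (pn τ π i) + g π)) := by
    have e2 : Av D (TP τ D g) = Av D (fun π =>
        nl τ D π * (((kN τ π : ℝ) - kA τ π) * Lam (kN τ π) l) +
        iE τ π (kA τ π) * ((n00 τ D π : ℝ) * Lam (kN τ π) l) +
        ∑ i ∈ range (kA τ π + 1), (- gg l (an τ D π i) +
          gg (kN τ π) (pn τ π i) + g π)) +
        Av D (fun π => ((kN τ π : ℝ) - kA τ π) *
          ((nx π (kA τ π) ∩ AL τ D (pre π (kA τ π))).card : ℝ) * Lam (kN τ π) l) := by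
      rw [← Av_add]
      refine Av_congr fun π hπ => ?_
      unfold TP
      have h1 := iE_eq h0 hD hπ
      have h2 : ∑ i ∈ range (kA τ π + 1), (- gg l (an τ D π i) +
          gg (kN τ π) (pn τ π i) + g π) = - ∑ i ∈ range (kA τ π + 1), (gg l (an τ D π i) -
            gg (kN τ π) (pn τ π i)) + ((kA τ π : ℝ) + 1) * g π := by
        rw [sum_add_distrib, sum_const, card_range, nsmul_eq_mul, ← sum_neg_distrib]
        push_cast
        congr 1
        refine sum_congr rfl fun i _ => by ring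
      rw [h2]
      have h3 : iE τ π (kA τ π) * (((kN τ π : ℝ) - kA τ π + n00 τ D π) * Lam (kN τ π) D.card) =
          lv τ D π * (((kN τ π : ℝ) - kA τ π) * Lam (kN τ π) l) +
          nl τ D π * (((kN τ π : ℝ) - kA τ π) * Lam (kN τ π) l) +
          iE τ π (kA τ π) * ((n00 τ D π : ℝ) * Lam (kN τ π) l) := by
        rw [hl]
        have : iE τ π (kA τ π) * (((kN τ π : ℝ) - kA τ π + n00 τ D π) * Lam (kN τ π) D.card) =
          iE τ π (kA τ π) * (((kN τ π : ℝ) - kA τ π) * Lam (kN τ π) D.card) +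
          iE τ π (kA τ π) * ((n00 τ D π : ℝ) * Lam (kN τ π) D.card) := by ring
        rw [this]
        congr 1
        rw [h1]
        ring
      rw [h3]
      unfold lv
      ring
    rw [e2, ← c1, ← Av_add]
    refine Av_congr fun π hπ => ?_
    rw [add_assoc, ← sum_add_distrib]
    congr 1
    refine sum_congr rfl fun i _ => ?_
    rw [pn_eq hπ i]
    ring
  rw [e1]
  have e3 : lamn l * Av D (LB τ D v) = Av D (fun π =>
      nl τ D π * (((kN τ π : ℝ) - kA τ π) * (((l : ℝ) - kN τ π) * lamn l)) +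
      iE τ π (kA τ π) * ((n00 τ D π : ℝ) * (((l : ℝ) - kN τ π) * lamn l)) +
      ∑ i ∈ range (kA τ π + 1), (v π i - on τ D π i) * lamn l) := by
    have e4 : Av D (LB τ D v) = Av D (fun π => ∑ i ∈ range (kA τ π + 1), v π i +
        ((kN τ π : ℝ) - kA τ π) * ((D.card : ℝ) - kN τ π) * nl τ D π +
        ((D.card : ℝ) - kN τ π) * n00 τ D π * iE τ π (kA τ π)) -
        Av D (fun π => ((D.card : ℝ) - kN τ π) *
          ((nx π (kA τ π) ∩ AL τ D (pre π (kA τ π))).card : ℝ)) := by
      rw [← Av_sub]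
      refine Av_congr fun π _ => ?_
      unfold LB lv
      ring
    rw [e4, ← c2, ← Av_sub, ← Av_mul]
    refine Av_congr fun π hπ => ?_
    have h1 : ∑ i ∈ range (kA τ π + 1), (((D \ pre π (kN τ π)) ∩ AL τ D (pre π i)).card : ℝ) =
        ∑ i ∈ range (kA τ π + 1), on τ D π i := by
      refine sum_congr rfl fun i hi => ?_
      rw [mem_range] at hi
      unfold on
      rw [an_eq hπ]
    rw [h1, ← sum_mul, sum_sub_distrib, ← hl]
    ring
  rw [e3]
  refine Av_mono fun π hπ => ?_
  have hN := kN_lt h0' hD hπ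
  have hAN := kA_le_kN h0 hD hπ
  have hr : (0 : ℝ) ≤ (kN τ π : ℝ) - kA τ π := by
    have : (kA τ π : ℝ) ≤ kN τ π := by exact_mod_cast hAN
    linarith
  -- the three parts
  have p3 : ∑ i ∈ range (kA τ π + 1), (v π i - on τ D π i) * lamn l ≤
      ∑ i ∈ range (kA τ π + 1), ((pn τ π i : ℝ) * Lam (kN τ π) l - gg l (an τ D π i) +
        gg (kN τ π) (pn τ π i) + g π) := by
    refine sum_le_sum fun i hi => ?_
    rw [mem_range] at hi
    exact hW π hπ i (by omega)
  have p1 : nl τ D π * (((kN τ π : ℝ) - kA τ π) * (((l : ℝ) - kN τ π) * lamn l)) ≤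
      nl τ D π * (((kN τ π : ℝ) - kA τ π) * Lam (kN τ π) l) := by
    rcases Nat.eq_zero_or_pos (kN τ π) with hz | hz
    · have h1 : kA τ π = 0 := by omega
      rw [hz, h1]
      simp
    · exact mul_le_mul_of_nonneg_left (mul_le_mul_of_nonneg_left
        (Lam_ge hz (by omega)) hr) (nl_nonneg _ _ _)
  have p2 : iE τ π (kA τ π) * ((n00 τ D π : ℝ) * (((l : ℝ) - kN τ π) * lamn l)) ≤
      iE τ π (kA τ π) * ((n00 τ D π : ℝ) * Lam (kN τ π) l) := by
    rcases Nat.eq_zero_or_pos (kN τ π) with hz | hz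
    · have h1 : kA τ π = 0 := by omega
      have h2 : n00 τ D π = 0 := by
        unfold n00
        rw [h1]
        simp
      rw [h2]
      simp
    · exact mul_le_mul_of_nonneg_left (mul_le_mul_of_nonneg_left
        (Lam_ge hz (by omega)) (Nat.cast_nonneg _)) (iE_nonneg _ _ _)
  linarith

end Two

end R5
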