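import Pool.Agent.Work.MP_8b6acb_ti_helper76.LevW
import Pool.Agent.Work.MP_8b6acb_ti.Side0

/-!
# No marks, one or two lights on both sides (helper76)
-/

namespace R5

namespace Two

open Finset T7

variable {α : Type} [DecidableEq α]

theorem n0_eq (τ : Finset α → Lab) (D : Finset α) (π : List α) :
    n0 τ D π (kA τ π) = (n00 τ D π : ℝ) := by
  unfold n0 n00
  rw [← sum_filter, sum_const, nsmul_eq_mul, mul_one]

theorem TP_zero (τ : Finset α → Lab) (D : Finset α) (π : List α) :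
    TP τ D (fun _ => 0) π = lowT0 τ D π := by
  unfold TP lowT0
  rw [n0_eq, mul_zero, add_zero]
  rfl

/-- **one or two lights on both sides, no marks** -/
theorem uu {τ : Finset α → Lab} {D : Finset α} (ρ ρ' : Finset α → α → ℝ)
    (mk mk' : Finset α → Finset α) (h0 : τ ∅ = Lab.A) (hD : τ D = Lab.B)
    (hmk : ∀ U, mk U = ∅) (hmk' : ∀ U, mk' U = ∅)
    (hρ : ∀ X ⊆ D, ∀ g ∈ D \ X, 0 < ρ X g ∧ ρ X g ≤ 1)
    (hρ' : ∀ X ⊆ D, ∀ g ∈ D \ X, 0 < ρ' X g ∧ ρ' X g ≤ 1)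
    (hJ : ∃ x ∈ D, τ {x} = Lab.B) (hJ' : ∃ x ∈ D, τ (D.erase x) = Lab.A)
    (hJ2 : (D.filter (fun x => τ {x} = Lab.B)).card ≤ 2)
    (hJ2' : (D.filter (fun x => τ (D.erase x) = Lab.A)).card ≤ 2) :
    lamn D.card * Av D (sur τ D) ≤ ((D.card : ℝ) + 1) *
      (SGc τ D ρ mk + SGc (dual τ D) D ρ' mk' -
        Real.log (D.card : ℝ) * (PEL τ D + PEL (dual τ D) D)) := by
  have d0 := dual_empty hD
  have dD := dual_top (D := D) h0
  have hdl : ∀ x ∈ D, (dual τ D {x} = Lab.B ↔ τ (D.erase x) = Lab.A) := by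
    intro x _
    rw [dual_flip, flip_eq_B, sdiff_singleton_eq_erase]
  have hJ'' : ∃ x ∈ D, dual τ D {x} = Lab.B := by
    obtain ⟨x, hx, hA⟩ := hJ'
    exact ⟨x, hx, (hdl x hx).2 hA⟩
  have hJ2'' : (D.filter (fun x => dual τ D {x} = Lab.B)).card ≤ 2 := by
    rwa [filter_congr hdl]
  have h1 := both h0 hD hJ hJ'' (fun _ => 0) (fun _ => 0) (hW_two h0 hD hJ2)
    (hW_two d0 dD hJ2'')
  have h2 := T_side_path0 τ D ρ' mk' h0 hD hmk' hρ'
  have h3 := T_side_path0 (dual τ D) D ρ mk d0 dD hmk hρ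
  rw [SGc_dual_dual, PEL_dual_dual] at h3
  have e1 : Av D (TP τ D (fun _ => 0)) = Av D (lowT0 τ D) :=
    Av_congr fun π _ => TP_zero τ D π
  have e2 : Av D (TP (dual τ D) D (fun _ => 0)) = Av D (lowT0 (dual τ D) D) :=
    Av_congr fun π _ => TP_zero (dual τ D) D π
  rw [e1, e2] at h1
  have : ((D.card : ℝ) + 1) * (SGc τ D ρ mk + SGc (dual τ D) D ρ' mk' -
        Real.log (D.card : ℝ) * (PEL τ D + PEL (dual τ D) D)) =
      ((D.card : ℝ) + 1) * (SGc (dual τ D) D ρ' mk' - Real.log (D.card : ℝ) *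
        PEL (dual τ D) D) +
      ((D.card : ℝ) + 1) * (SGc τ D ρ mk - Real.log (D.card : ℝ) * PEL τ D) := by ring
  rw [this]
  linarith

end Two

end R5
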